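import Mathlib

/-!
# Free pro-`p` groups: the universal property for finite `p`-groups, crossed homomorphisms
-/

set_option autoImplicit false

namespace Pdb20

/-- The part of being a free pro-`p` group of rank `d` on `ι` that is used: open normal subgroups have
`p`-power index, and the universal property holds for finite (discrete) `p`-groups. -/
structure FreeP (p d : ℕ) (G : Type) [Group G] [TopologicalSpace G] (ι : Fin d → G) : Prop where
  idx : ∀ N : Subgroup G, IsOpen (N : Set G) → N.Normal → ∃ k : ℕ, N.index = p ^ k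
  ex : ∀ (H : Type) [Group H] [Finite H], IsPGroup p H → ∀ f : Fin d → H,
      ∃ φ : G →* H, IsOpen (φ.ker : Set G) ∧ ∀ i, φ (ι i) = f i
  ext : ∀ (H : Type) [Group H] [Finite H], IsPGroup p H → ∀ φ ψ : G →* H,
      IsOpen (φ.ker : Set G) → IsOpen (ψ.ker : Set G) → (∀ i, φ (ι i) = ψ (ι i)) → φ = ψ

theorem freeP_of (p : ℕ) (hp : p.Prime) (d : ℕ) (G : Type) [Group G] [TopologicalSpace G]
    [IsTopologicalGroup G] [CompactSpace G] [TotallyDisconnectedSpace G] [T2Space G]
    (hG : ∀ N : Subgroup G, IsOpen (N : Set G) → N.Normal → ∃ k : ℕ, N.index = p ^ k)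
    (ι : Fin d → G)
    (huniv : ∀ (H : Type) [Group H] [TopologicalSpace H] [IsTopologicalGroup H] [CompactSpace H]
        [TotallyDisconnectedSpace H] [T2Space H],
      (∀ N : Subgroup H, IsOpen (N : Set H) → N.Normal → ∃ k : ℕ, N.index = p ^ k) →
      ∀ f : Fin d → H, ∃! φ : G →* H, Continuous φ ∧ ∀ i, φ (ι i) = f i) :
    FreeP p d G ι := by
  haveI : Fact p.Prime := ⟨hp⟩
  have key : ∀ (H : Type) [Group H] [TopologicalSpace H] [DiscreteTopology H] (φ : G →* H),
      IsOpen (φ.ker : Set G) → Continuous φ := by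
    intro H _ _ _ φ hφ
    refine continuous_of_continuousAt_one φ ?_
    rw [ContinuousAt, map_one]
    rw [show nhds (1 : H) = pure 1 from by rw [nhds_discrete], Filter.tendsto_pure]
    exact Filter.mem_of_superset (hφ.mem_nhds (one_mem φ.ker)) (fun x hx => hx)
  have key2 : ∀ (H : Type) [Group H] [TopologicalSpace H] [DiscreteTopology H] (φ : G →* H),
      Continuous φ → IsOpen (φ.ker : Set G) := by
    intro H _ _ _ φ hφ
    have : (φ.ker : Set G) = φ ⁻¹' {1} := by
      ext x; simp [MonoidHom.mem_ker]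
    rw [this]
    exact (isOpen_discrete _).preimage hφ
  refine ⟨hG, ?_, ?_⟩
  · intro H _ _ hH f
    letI : TopologicalSpace H := ⊥
    haveI : DiscreteTopology H := ⟨rfl⟩
    haveI : CompactSpace H := Finite.compactSpace
    obtain ⟨φ, ⟨h1, h2⟩, -⟩ := huniv H (fun N _ _ => hH.index N) f
    exact ⟨φ, key2 H φ h1, h2⟩
  · intro H _ _ hH φ ψ hφ hψ hi
    letI : TopologicalSpace H := ⊥
    haveI : DiscreteTopology H := ⟨rfl⟩
    haveI : CompactSpace H := Finite.compactSpace
    exact (huniv H (fun N _ _ => hH.index N) (fun i => ψ (ι i))).unique ⟨key H φ hφ, hi⟩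
      ⟨key H ψ hψ, fun _ => rfl⟩

/-- A crossed homomorphism `G → (X → E)`, trivial (together with the action) on an open
subgroup. -/
def IsCr {G X E : Type} [Group G] [TopologicalSpace G] [Group E] (σ : G →* Equiv.Perm X)
    (B : G → X → E) : Prop :=
  (∀ g h x, B (g * h) x = B g x * B h ((σ g)⁻¹ x)) ∧
    ∃ N : Subgroup G, IsOpen (N : Set G) ∧ ∀ n ∈ N, ∀ x, B n x = 1 ∧ σ n x = x

theorem isPGroup_range {p d : ℕ} (hp : p.Prime) {G : Type} [Group G] [TopologicalSpace G]
    {ι : Fin d → G} (hF : FreeP p d G ι) {K : Type} [Group K] [Finite K] (σ : G →* K)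
    (hσ : IsOpen (σ.ker : Set G)) : IsPGroup p σ.range := by
  haveI : Fact p.Prime := ⟨hp⟩
  obtain ⟨k, hk⟩ := hF.idx σ.ker hσ inferInstance
  rw [IsPGroup.iff_card]
  exact ⟨k, by rw [← Subgroup.index_ker, hk]⟩

theorem ker_open_of {G K : Type} [Group G] [TopologicalSpace G] [IsTopologicalGroup G] [Group K]
    (σ : G →* K)
    (N : Subgroup G) (hN : IsOpen (N : Set G)) (h : ∀ n ∈ N, σ n = 1) :
    IsOpen (σ.ker : Set G) :=
  Subgroup.isOpen_mono (H₁ := N) (fun n hn => h n hn) hN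

instance finite_wreath {X E : Type} [Finite X] [Group E] [Finite E]
    (R : Subgroup (Equiv.Perm X)) : Finite ((X → E) ⋊[mulAutArrow] R) :=
  Finite.of_equiv _ SemidirectProduct.equivProd.symm

theorem isPGroup_wreath {p : ℕ} (hp : p.Prime) {X E : Type} [Finite X] [Group E] [Finite E]
    (hE : IsPGroup p E) (R : Subgroup (Equiv.Perm X)) (hR : IsPGroup p R) :
    IsPGroup p ((X → E) ⋊[mulAutArrow] R) := by
  haveI : Fact p.Prime := ⟨hp⟩
  rw [IsPGroup.iff_card] at hE hR
  obtain ⟨a, ha⟩ := hE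
  obtain ⟨b, hb⟩ := hR
  rw [IsPGroup.iff_card]
  refine ⟨a * Nat.card X + b, ?_⟩
  rw [SemidirectProduct.card, hb, pow_add]
  haveI := Fintype.ofFinite X
  rw [Nat.card_pi, Finset.prod_const, ha, Finset.card_univ, Nat.card_eq_fintype_card, pow_mul]

theorem exists_cr {p d : ℕ} (hp : p.Prime) {G : Type} [Group G] [TopologicalSpace G]
    [IsTopologicalGroup G]
    {ι : Fin d → G} (hF : FreeP p d G ι) {X E : Type} [Finite X] [Group E] [Finite E]
    (hE : IsPGroup p E) (σ : G →* Equiv.Perm X) (hσ : IsOpen (σ.ker : Set G))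
    (e : Fin d → X → E) :
    ∃ B : G → X → E, IsCr σ B ∧ ∀ i, B (ι i) = e i := by
  have hR := isPGroup_range hp hF σ hσ
  have hW := isPGroup_wreath hp hE σ.range hR
  obtain ⟨Φ, hΦ, hΦi⟩ := hF.ex ((X → E) ⋊[mulAutArrow] σ.range) hW
    (fun i => ⟨e i, σ.rangeRestrict (ι i)⟩)
  have hr : (SemidirectProduct.rightHom.comp Φ : G →* σ.range) = σ.rangeRestrict := by
    refine hF.ext σ.range hR _ _ ?_ ?_ ?_
    · refine ker_open_of _ Φ.ker hΦ ?_
      intro n hn
      rw [MonoidHom.comp_apply, (MonoidHom.mem_ker.1 hn : Φ n = 1), map_one]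
    · rw [MonoidHom.ker_rangeRestrict]; exact hσ
    · intro i
      simp [hΦi]
  have hr' : ∀ g, (Φ g).right = σ.rangeRestrict g := fun g => by
    rw [← hr]; rfl
  refine ⟨fun g => (Φ g).left, ⟨?_, Φ.ker ⊓ σ.ker, ?_, ?_⟩, ?_⟩
  · intro g h x
    show (Φ (g * h)).left x = (Φ g).left x * (Φ h).left ((σ g)⁻¹ x)
    rw [map_mul, SemidirectProduct.mul_left, Pi.mul_apply, hr' g]
    rfl
  · rw [Subgroup.coe_inf]
    exact hΦ.inter hσ
  · intro n hn x
    have h1 : Φ n = 1 := hn.1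
    have h2 : σ n = 1 := hn.2
    constructor
    · show (Φ n).left x = 1
      rw [h1]; rfl
    · rw [h2]; rfl
  · intro i
    show (Φ (ι i)).left = e i
    rw [hΦi]

theorem cr_one {G X E : Type} [Group G] [TopologicalSpace G] [Group E] {σ : G →* Equiv.Perm X}
    {B : G → X → E} (hB : IsCr σ B) (x : X) : B 1 x = 1 := by
  have h := hB.1 1 1 x
  rw [mul_one, map_one] at h
  have h' : B 1 x = B 1 x * B 1 x := h
  exact ((mul_eq_left.1 h'.symm))

theorem cr_ext {p d : ℕ} (hp : p.Prime) {G : Type} [Group G] [TopologicalSpace G]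
    [IsTopologicalGroup G]
    {ι : Fin d → G} (hF : FreeP p d G ι) {X E : Type} [Finite X] [Group E] [Finite E]
    (hE : IsPGroup p E) (σ : G →* Equiv.Perm X)
    (B B' : G → X → E) (hB : IsCr σ B) (hB' : IsCr σ B') (h : ∀ i, B (ι i) = B' (ι i)) :
    B = B' := by
  have hσ : IsOpen (σ.ker : Set G) := by
    obtain ⟨N, hN, hN'⟩ := hB.2
    exact ker_open_of σ N hN (fun n hn => Equiv.ext (fun x => (hN' n hn x).2))
  have hR := isPGroup_range hp hF σ hσ
  have hW := isPGroup_wreath hp hE σ.range hR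
  have mk : ∀ C : G → X → E, IsCr σ C → ∃ Φ : G →* ((X → E) ⋊[mulAutArrow] σ.range),
      IsOpen (Φ.ker : Set G) ∧ ∀ g, Φ g = ⟨C g, σ.rangeRestrict g⟩ := by
    intro C hC
    refine ⟨MonoidHom.mk' (fun g => ⟨C g, σ.rangeRestrict g⟩) ?_, ?_, fun _ => rfl⟩
    · intro g h
      refine SemidirectProduct.ext ?_ ?_
      · funext x
        exact hC.1 g h x
      · exact map_mul _ _ _
    · obtain ⟨N, hN, hN'⟩ := hC.2
      refine ker_open_of _ N hN ?_
      intro n hn
      refine SemidirectProduct.ext ?_ ?_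
      · funext x
        exact (hN' n hn x).1
      · refine Subtype.ext (Equiv.ext (fun x => (hN' n hn x).2))
  obtain ⟨Φ, hΦ, hΦ'⟩ := mk B hB
  obtain ⟨Ψ, hΨ, hΨ'⟩ := mk B' hB'
  have hh : Φ = Ψ := by
    refine hF.ext _ hW Φ Ψ hΦ hΨ ?_
    intro i
    rw [hΦ', hΨ', h i]
  funext g
  have h1 := hΦ' g
  rw [hh, hΨ'] at h1
  exact (congrArg SemidirectProduct.left h1).symm

/-! ### Additive version with values in `ZMod p` -/

/-- Additive crossed homomorphisms with values in `ZMod p`. -/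
def IsCrA {G X : Type} [Group G] [TopologicalSpace G] (p : ℕ) (σ : G →* Equiv.Perm X)
    (B : G → X → ZMod p) : Prop :=
  (∀ g h x, B (g * h) x = B g x + B h ((σ g)⁻¹ x)) ∧
    ∃ N : Subgroup G, IsOpen (N : Set G) ∧ ∀ n ∈ N, ∀ x, B n x = 0 ∧ σ n x = x

theorem isCr_of_isCrA {G X : Type} [Group G] [TopologicalSpace G] {p : ℕ} {σ : G →* Equiv.Perm X}
    {B : G → X → ZMod p} (hB : IsCrA p σ B) :
    IsCr σ (fun g x => Multiplicative.ofAdd (B g x)) :=
  ⟨fun g h x => congrArg Multiplicative.ofAdd (hB.1 g h x), hB.2⟩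

theorem isCrA_of_isCr {G X : Type} [Group G] [TopologicalSpace G] {p : ℕ} {σ : G →* Equiv.Perm X}
    {B : G → X → Multiplicative (ZMod p)} (hB : IsCr σ B) :
    IsCrA p σ (fun g x => Multiplicative.toAdd (B g x)) :=
  ⟨fun g h x => congrArg Multiplicative.toAdd (hB.1 g h x), hB.2⟩

theorem isPGroup_zmod {p : ℕ} (hp : p.Prime) : IsPGroup p (Multiplicative (ZMod p)) := by
  haveI : Fact p.Prime := ⟨hp⟩
  rw [IsPGroup.iff_card]
  exact ⟨1, by rw [Nat.card_congr Multiplicative.toAdd, Nat.card_zmod, pow_one]⟩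

theorem exists_crA {p d : ℕ} (hp : p.Prime) {G : Type} [Group G] [TopologicalSpace G]
    [IsTopologicalGroup G]
    {ι : Fin d → G} (hF : FreeP p d G ι) {X : Type} [Finite X]
    (σ : G →* Equiv.Perm X) (hσ : IsOpen (σ.ker : Set G))
    (e : Fin d → X → ZMod p) :
    ∃ B : G → X → ZMod p, IsCrA p σ B ∧ ∀ i, B (ι i) = e i := by
  haveI : Fact p.Prime := ⟨hp⟩
  haveI : NeZero p := ⟨hp.ne_zero⟩
  haveI : Finite (Multiplicative (ZMod p)) := inferInstanceAs (Finite (ZMod p))
  obtain ⟨B, hB, hBi⟩ := exists_cr hp hF (isPGroup_zmod hp) σ hσ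
    (fun i x => Multiplicative.ofAdd (e i x))
  refine ⟨_, isCrA_of_isCr hB, ?_⟩
  intro i
  funext x
  rw [hBi]
  rfl

theorem crA_ext {p d : ℕ} (hp : p.Prime) {G : Type} [Group G] [TopologicalSpace G]
    [IsTopologicalGroup G]
    {ι : Fin d → G} (hF : FreeP p d G ι) {X : Type} [Finite X] (σ : G →* Equiv.Perm X)
    (B B' : G → X → ZMod p) (hB : IsCrA p σ B) (hB' : IsCrA p σ B')
    (h : ∀ i, B (ι i) = B' (ι i)) :
    B = B' := by
  haveI : Fact p.Prime := ⟨hp⟩
  haveI : NeZero p := ⟨hp.ne_zero⟩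
  haveI : Finite (Multiplicative (ZMod p)) := inferInstanceAs (Finite (ZMod p))
  have := cr_ext hp hF (isPGroup_zmod hp) σ _ _ (isCr_of_isCrA hB) (isCr_of_isCrA hB')
    (fun i => by funext x; rw [h i])
  funext g x
  exact congrArg Multiplicative.toAdd (congrFun (congrFun this g) x)

end Pdb20
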