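import Mathlib
import Pool.Agent.Lib.Pdb20.Free

/-!
# Commuting elements of a free pro-`p` group
-/

set_option autoImplicit false

namespace Pdb20

open Subgroup

/-- The Heisenberg group over `ZMod p`. -/
@[ext] structure Heis (p : ℕ) where
  x : ZMod p
  y : ZMod p
  z : ZMod p

namespace Heis

variable {p : ℕ}

instance : Mul (Heis p) := ⟨fun a b => ⟨a.x + b.x, a.y + b.y, a.z + b.z + a.x * b.y⟩⟩
instance : One (Heis p) := ⟨⟨0, 0, 0⟩⟩
instance : Inv (Heis p) := ⟨fun a => ⟨-a.x, -a.y, -a.z + a.x * a.y⟩⟩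

@[simp] theorem mul_x (a b : Heis p) : (a * b).x = a.x + b.x := rfl
@[simp] theorem mul_y (a b : Heis p) : (a * b).y = a.y + b.y := rfl
@[simp] theorem mul_z (a b : Heis p) : (a * b).z = a.z + b.z + a.x * b.y := rfl
@[simp] theorem one_x : (1 : Heis p).x = 0 := rfl
@[simp] theorem one_y : (1 : Heis p).y = 0 := rfl
@[simp] theorem one_z : (1 : Heis p).z = 0 := rfl
@[simp] theorem inv_x (a : Heis p) : (a⁻¹).x = -a.x := rfl
@[simp] theorem inv_y (a : Heis p) : (a⁻¹).y = -a.y := rfl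
@[simp] theorem inv_z (a : Heis p) : (a⁻¹).z = -a.z + a.x * a.y := rfl

instance : Group (Heis p) :=
  Group.ofLeftAxioms
    (by intro a b c; ext <;> simp <;> ring)
    (by intro a; ext <;> simp)
    (by intro a; ext <;> simp)

/-- The underlying set. -/
def equiv (p : ℕ) : Heis p ≃ ZMod p × ZMod p × ZMod p where
  toFun a := (a.x, a.y, a.z)
  invFun t := ⟨t.1, t.2.1, t.2.2⟩
  left_inv _ := rfl
  right_inv _ := rfl

theorem finite (hp : p.Prime) : Finite (Heis p) := by
  have : NeZero p := ⟨hp.ne_zero⟩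
  exact Finite.of_equiv _ (equiv p).symm

theorem isPGroup (hp : p.Prime) : IsPGroup p (Heis p) := by
  have := Fact.mk hp
  have := finite hp
  rw [IsPGroup.iff_card]
  refine ⟨3, ?_⟩
  rw [Nat.card_congr (equiv p), Nat.card_prod, Nat.card_prod, Nat.card_zmod]
  ring

end Heis

theorem open_core {G : Type} [Group G] [TopologicalSpace G] [IsTopologicalGroup G] [CompactSpace G]
    (N : Subgroup G) (hN : IsOpen (N : Set G)) : IsOpen (N.normalCore : Set G) := by
  have : Finite (G ⧸ N) := N.quotient_finite_of_isOpen hN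
  have : N.FiniteIndex := Subgroup.finiteIndex_of_finite_quotient
  exact Subgroup.isOpen_of_isClosed_of_finiteIndex _
    (N.normalCore_isClosed (Subgroup.isClosed_of_isOpen N hN))

section cup

variable {G : Type} [Group G] (U : Subgroup G)

/-- A section of `G → G ⧸ U`. -/
noncomputable def sct (x : G ⧸ U) : G := Quotient.out x

theorem sct_eq (x : G ⧸ U) : ((sct U x : G) : G ⧸ U) = x := QuotientGroup.out_eq' x

/-- The canonical cocycle. -/
noncomputable def coc (g : G) (x : G ⧸ U) : G := (sct U x)⁻¹ * (g * sct U (g⁻¹ • x))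

theorem coc_mem (g : G) (x : G ⧸ U) : coc U g x ∈ U := by
  rw [coc, ← QuotientGroup.eq, sct_eq]
  have : ((g * sct U (g⁻¹ • x) : G) : G ⧸ U) = g • ((sct U (g⁻¹ • x) : G) : G ⧸ U) := rfl
  rw [this, sct_eq, smul_inv_smul]

theorem coc_mul (g h : G) (x : G ⧸ U) : coc U (g * h) x = coc U g x * coc U h (g⁻¹ • x) := by
  simp only [coc, mul_inv_rev, mul_smul]
  group

end cup

/-- An element of a subgroup normal in `G` and contained in `U` acts trivially on `G ⧸ U`. -/
theorem smul_eq_of_mem_core {G : Type} [Group G] (U N : Subgroup G) (hN : N.Normal) (hNU : N ≤ U)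
    (n : G) (hn : n ∈ N) (x : G ⧸ U) : n • x = x := by
  conv_lhs => rw [← sct_eq U x]
  conv_rhs => rw [← sct_eq U x]
  have : n • ((sct U x : G) : G ⧸ U) = ((n * sct U x : G) : G ⧸ U) := rfl
  rw [this, eq_comm, QuotientGroup.eq, ← mul_assoc]
  apply hNU
  have := hN.conj_mem n hn (sct U x)⁻¹
  rwa [inv_inv] at this

section

variable {p d : ℕ} (hp : p.Prime) {G : Type} [Group G] [TopologicalSpace G]
    [IsTopologicalGroup G] [CompactSpace G] {ι : Fin d → G} (hF : FreeP p d G ι)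

/-- The induced crossed homomorphism. -/
theorem induced_crA (U N : Subgroup G) (hN : IsOpen (N : Set G)) (hNU : N ≤ U)
    (χ : G → ZMod p) (hχ : ∀ u ∈ U, ∀ v ∈ U, χ (u * v) = χ u + χ v) (hχN : ∀ n ∈ N, χ n = 0) :
    IsCrA p (MulAction.toPermHom G (G ⧸ U)) (fun g x => χ (coc U g x)) := by
  refine ⟨?_, N.normalCore, open_core N hN, ?_⟩
  · intro g h x
    show χ (coc U (g * h) x) = χ (coc U g x) + χ (coc U h (g⁻¹ • x))
    rw [coc_mul, hχ _ (coc_mem U g x) _ (coc_mem U h _)]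
  · intro n hn x
    have hx : ∀ m ∈ N.normalCore, m • x = x := fun m hm =>
      smul_eq_of_mem_core U N.normalCore inferInstance (N.normalCore_le.trans hNU) m hm x
    refine ⟨?_, hx n hn⟩
    show χ (coc U n x) = 0
    apply hχN
    rw [coc, hx _ (inv_mem hn), ← mul_assoc]
    have := N.normalCore_normal.conj_mem n hn (sct U x)⁻¹
    rw [inv_inv] at this
    exact N.normalCore_le this

include hp hF in
/-- Cup products of characters of open subgroups are trivial. -/
theorem cup_trivial (U N : Subgroup G) (hN : IsOpen (N : Set G)) (hNU : N ≤ U)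
    (χ₁ χ₂ : G → ZMod p) (h₁ : ∀ u ∈ U, ∀ v ∈ U, χ₁ (u * v) = χ₁ u + χ₁ v)
    (h₁N : ∀ n ∈ N, χ₁ n = 0) (h₂ : ∀ u ∈ U, ∀ v ∈ U, χ₂ (u * v) = χ₂ u + χ₂ v)
    (h₂N : ∀ n ∈ N, χ₂ n = 0) :
    ∃ γ : G → ZMod p, ∀ u ∈ U, ∀ v ∈ U, γ (u * v) = γ u + γ v + χ₁ u * χ₂ v := by
  have hU : IsOpen (U : Set G) := Subgroup.isOpen_mono hNU hN
  have : Finite (G ⧸ U) := U.quotient_finite_of_isOpen hU
  have := Heis.finite hp
  have c₁ := induced_crA U N hN hNU χ₁ h₁ h₁N
  have c₂ := induced_crA U N hN hNU χ₂ h₂ h₂N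
  have hσ : IsOpen ((MulAction.toPermHom G (G ⧸ U)).ker : Set G) := by
    obtain ⟨M, hM, hM'⟩ := c₁.2
    exact ker_open_of _ M hM (fun n hn => Equiv.ext (fun x => (hM' n hn x).2))
  obtain ⟨B, hB, hBi⟩ := exists_cr hp hF (Heis.isPGroup hp) (MulAction.toPermHom G (G ⧸ U)) hσ
    (fun i x => ⟨χ₁ (coc U (ι i) x), χ₂ (coc U (ι i) x), 0⟩)
  have hx : (fun g x => (B g x).x) = (fun g x => χ₁ (coc U g x)) := by
    refine crA_ext hp hF _ _ _ ⟨?_, ?_⟩ c₁ ?_
    · intro g h x
      show (B (g * h) x).x = (B g x).x + _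
      rw [hB.1]; rfl
    · obtain ⟨M, hM, hM'⟩ := hB.2
      exact ⟨M, hM, fun n hn x => ⟨by show (B n x).x = 0; rw [(hM' n hn x).1]; rfl,
        (hM' n hn x).2⟩⟩
    · intro i; funext x
      show (B (ι i) x).x = _
      rw [hBi]
  have hy : (fun g x => (B g x).y) = (fun g x => χ₂ (coc U g x)) := by
    refine crA_ext hp hF _ _ _ ⟨?_, ?_⟩ c₂ ?_
    · intro g h x
      show (B (g * h) x).y = (B g x).y + _
      rw [hB.1]; rfl
    · obtain ⟨M, hM, hM'⟩ := hB.2
      exact ⟨M, hM, fun n hn x => ⟨by show (B n x).y = 0; rw [(hM' n hn x).1]; rfl,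
        (hM' n hn x).2⟩⟩
    · intro i; funext x
      show (B (ι i) x).y = _
      rw [hBi]
  set x0 : G ⧸ U := ((1 : G) : G ⧸ U) with hx0
  have hfix : ∀ u ∈ U, u⁻¹ • x0 = x0 := by
    intro u hu
    have : u⁻¹ • x0 = ((u⁻¹ * 1 : G) : G ⧸ U) := rfl
    rw [this, hx0, QuotientGroup.eq, mul_one, mul_one, inv_inv]
    exact hu
  have ht : sct U x0 ∈ U := by
    have := sct_eq U x0
    rw [hx0, QuotientGroup.eq, mul_one] at this
    exact inv_mem_iff.1 this
  have hco : ∀ u ∈ U, coc U u x0 = (sct U x0)⁻¹ * (u * sct U x0) := by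
    intro u hu
    rw [coc, hfix u hu]
  have hχ : ∀ (χ : G → ZMod p), (∀ u ∈ U, ∀ v ∈ U, χ (u * v) = χ u + χ v) → ∀ u ∈ U,
      χ (coc U u x0) = χ u := by
    intro χ h u hu
    have h1 : χ 1 = 0 := by
      have := h 1 (one_mem U) 1 (one_mem U)
      rw [mul_one] at this
      exact (left_eq_add.1 this)
    have h2 := h _ (inv_mem ht) _ ht
    rw [inv_mul_cancel, h1] at h2
    rw [hco u hu, h _ (inv_mem ht) _ (mul_mem hu ht), h _ hu _ ht]
    calc χ (sct U x0)⁻¹ + (χ u + χ (sct U x0)) = χ u + (χ (sct U x0)⁻¹ + χ (sct U x0)) := by ring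
      _ = χ u := by rw [← h2, add_zero]
  refine ⟨fun u => (B u x0).z, ?_⟩
  intro u hu v hv
  show (B (u * v) x0).z = (B u x0).z + (B v x0).z + χ₁ u * χ₂ v
  have e1 : (B u x0).x = χ₁ u := by
    have := congrFun (congrFun hx u) x0
    exact this.trans (hχ χ₁ h₁ u hu)
  have e2 : (B v x0).y = χ₂ v := by
    have := congrFun (congrFun hy v) x0
    exact this.trans (hχ χ₂ h₂ v hv)
  have e3 : B (u * v) x0 = B u x0 * B v x0 := by
    have := hB.1 u v x0
    have h' : (MulAction.toPermHom G (G ⧸ U) u)⁻¹ x0 = x0 := hfix u hu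
    rwa [h'] at this
  rw [e3, Heis.mul_z, e1, e2]

end

/-- In a finite `p`-group with commuting `a`, `b` and `b ∉ ⟨a⟩`, there is a character of `⟨a, b⟩`
killing `a` and sending `b` to `1`. -/
theorem exists_char {p : ℕ} (hp : p.Prime) {Q : Type} [Group Q] [Finite Q] (hQ : IsPGroup p Q)
    (a b : Q) (hab : a * b = b * a) (hba : b ∉ zpowers a) :
    ∃ χ : Q → ZMod p, (∀ x ∈ closure {a, b}, ∀ y ∈ closure {a, b}, χ (x * y) = χ x + χ y) ∧
      χ a = 0 ∧ χ b = 1 := by
  classical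
  have := Fact.mk hp
  set C : Subgroup Q := closure {a, b} with hC
  have haC : a ∈ C := subset_closure (by simp)
  have hbC : b ∈ C := subset_closure (by simp)
  have hc : ∀ x y : C, x * y = y * x := by
    have hcl : C ≤ Subgroup.centralizer ({a, b} : Set Q) := by
      rw [hC, closure_le]
      intro x hx
      rw [SetLike.mem_coe, Subgroup.mem_centralizer_iff]
      intro y hy
      simp only [Set.mem_insert_iff, Set.mem_singleton_iff] at hx hy
      rcases hx with rfl | rfl <;> rcases hy with rfl | rfl <;> simp [hab]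
    have hcl2 : C ≤ Subgroup.centralizer (C : Set Q) := by
      rw [Subgroup.le_centralizer_iff, hC, closure_le]
      intro x hx
      rw [SetLike.mem_coe, Subgroup.mem_centralizer_iff]
      intro y hy
      exact ((Subgroup.mem_centralizer_iff.1 (hcl hy)) x hx).symm
    intro x y
    apply Subtype.ext
    exact (Subgroup.mem_centralizer_iff.1 (hcl2 y.2)) x x.2
  set Z : Subgroup C := zpowers (⟨a, haC⟩ : C) with hZ
  have hZn : Z.Normal := ⟨fun n hn g => by
    have : g * n * g⁻¹ = n := by rw [hc g n, mul_inv_cancel_right]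
    rwa [this]⟩
  set q : C ⧸ Z := QuotientGroup.mk (⟨b, hbC⟩ : C) with hq
  have hgen : ∀ x : C ⧸ Z, x ∈ zpowers q := by
    have hall : ∀ x (hx : x ∈ C), (QuotientGroup.mk (⟨x, hx⟩ : C) : C ⧸ Z) ∈ zpowers q := by
      intro x hx
      have hx' : x ∈ closure ({a, b} : Set Q) := hx
      induction hx' using Subgroup.closure_induction with
      | mem x hx1 =>
        rcases hx1 with rfl | rfl
        · have : (QuotientGroup.mk (⟨x, hx⟩ : C) : C ⧸ Z) = 1 := by
            rw [QuotientGroup.eq_one_iff]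
            exact mem_zpowers _
          rw [this]; exact one_mem _
        · exact mem_zpowers _
      | one =>
        exact one_mem _
      | mul x y hx1 hy1 ihx ihy =>
        exact mul_mem (ihx hx1) (ihy hy1)
      | inv x hx1 ih =>
        exact inv_mem (ih hx1)
    intro x
    obtain ⟨c, rfl⟩ := QuotientGroup.mk_surjective x
    exact hall c.1 c.2
  have hq1 : q ≠ 1 := by
    intro h
    rw [hq, QuotientGroup.eq_one_iff, hZ] at h
    obtain ⟨k, hk⟩ := mem_zpowers_iff.1 h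
    apply hba
    refine mem_zpowers_iff.2 ⟨k, ?_⟩
    have := congrArg Subtype.val hk
    simpa using this
  have hpq : p ∣ orderOf q := by
    have hP : IsPGroup p (C ⧸ Z) := (hQ.to_subgroup C).to_quotient Z
    obtain ⟨k, hk⟩ := IsPGroup.iff_orderOf.1 hP q
    rw [hk]
    rcases k with _ | k
    · rw [pow_zero, orderOf_eq_one_iff] at hk
      exact absurd hk hq1
    · exact dvd_pow_self p (Nat.succ_ne_zero k)
  have ho : orderOf (Multiplicative.ofAdd (1 : ZMod p)) ∣ orderOf q := by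
    rw [orderOf_ofAdd_eq_addOrderOf, ZMod.addOrderOf_one]
    exact hpq
  set ψ := monoidHomOfForallMemZpowers hgen ho with hψ
  refine ⟨fun x => if h : x ∈ C then Multiplicative.toAdd (ψ (QuotientGroup.mk ⟨x, h⟩)) else 0,
    ?_, ?_, ?_⟩
  · intro x hx y hy
    simp only [dif_pos hx, dif_pos hy, dif_pos (mul_mem hx hy)]
    rw [← toAdd_mul, ← map_mul]
    rfl
  · simp only [dif_pos haC]
    have : (QuotientGroup.mk (⟨a, haC⟩ : C) : C ⧸ Z) = 1 := by
      rw [QuotientGroup.eq_one_iff]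
      exact mem_zpowers _
    rw [this, map_one]
    rfl
  · simp only [dif_pos hbC]
    have : ψ q = Multiplicative.ofAdd (1 : ZMod p) := monoidHomOfForallMemZpowers_apply_gen hgen ho
    rw [← hq, this]
    rfl

section

variable {p d : ℕ} (hp : p.Prime) {G : Type} [Group G] [TopologicalSpace G]
    [IsTopologicalGroup G] [CompactSpace G] [TotallyDisconnectedSpace G] {ι : Fin d → G}
    (hF : FreeP p d G ι)

omit [CompactSpace G] [TotallyDisconnectedSpace G] in
theorem mem_closure_zpowers_aux [CompactSpace G] [TotallyDisconnectedSpace G] (a b : G)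
    (h : a ∉ _root_.closure (zpowers b : Set G)) :
    ∃ V : Subgroup G, IsOpen (V : Set G) ∧ V.Normal ∧ ∀ k : ℤ, a⁻¹ * b ^ k ∉ V := by
  have ho : IsOpen ((fun x => a * x) ⁻¹' (_root_.closure (zpowers b : Set G))ᶜ) :=
    (isClosed_closure.isOpen_compl).preimage (continuous_const_mul a)
  obtain ⟨V, hV⟩ := ProfiniteGrp.exist_openNormalSubgroup_sub_open_nhds_of_one ho (by simpa using h)
  refine ⟨V.toSubgroup, V.isOpen', V.isNormal', ?_⟩
  intro k hk
  have := hV hk
  apply this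
  show a * (a⁻¹ * b ^ k) ∈ _root_.closure (zpowers b : Set G)
  rw [mul_inv_cancel_left]
  exact _root_.subset_closure (zpow_mem (mem_zpowers b) k)

include hp hF in
theorem comm_dichotomy (a b : G) (hab : a * b = b * a) :
    a ∈ _root_.closure (zpowers b : Set G) ∨ b ∈ _root_.closure (zpowers a : Set G) := by
  by_contra hcon
  push Not at hcon
  obtain ⟨V₁, hV₁, hV₁n, h₁⟩ := mem_closure_zpowers_aux a b hcon.1
  obtain ⟨V₂, hV₂, hV₂n, h₂⟩ := mem_closure_zpowers_aux b a hcon.2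
  set V : Subgroup G := V₁ ⊓ V₂ with hVdef
  have hV : IsOpen (V : Set G) := by
    rw [hVdef, Subgroup.coe_inf]; exact hV₁.inter hV₂
  have hVn : V.Normal := Subgroup.normal_inf_normal V₁ V₂
  have := Fact.mk hp
  have hfin : Finite (G ⧸ V) := V.quotient_finite_of_isOpen hV
  have hQ : IsPGroup p (G ⧸ V) := by
    obtain ⟨k, hk⟩ := hF.idx V hV hVn
    rw [IsPGroup.iff_card]
    exact ⟨k, by rw [← hk]; rfl⟩
  set π := QuotientGroup.mk' V with hπ
  have hπker : ∀ x, π x = 1 ↔ x ∈ V := fun x => QuotientGroup.eq_one_iff x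
  have hcomm : π a * π b = π b * π a := by rw [← map_mul, hab, map_mul]
  have nb : π b ∉ zpowers (π a) := by
    intro h
    obtain ⟨k, hk⟩ := mem_zpowers_iff.1 h
    apply h₂ k
    have : π (b⁻¹ * a ^ k) = 1 := by rw [map_mul, map_inv, map_zpow, hk, inv_mul_cancel]
    exact ((hπker _).1 this).2
  have na : π a ∉ zpowers (π b) := by
    intro h
    obtain ⟨k, hk⟩ := mem_zpowers_iff.1 h
    apply h₁ k
    have : π (a⁻¹ * b ^ k) = 1 := by rw [map_mul, map_inv, map_zpow, hk, inv_mul_cancel]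
    exact ((hπker _).1 this).1
  obtain ⟨χ₁, c₁, a₁, b₁⟩ := exists_char hp hQ (π a) (π b) hcomm nb
  obtain ⟨χ₂, c₂, b₂, a₂⟩ := exists_char hp hQ (π b) (π a) hcomm.symm na
  rw [Set.pair_comm] at c₂
  set U : Subgroup G := (Subgroup.closure {π a, π b}).comap π with hU
  have hNU : V ≤ U := by
    intro v hv
    rw [hU, Subgroup.mem_comap, (hπker v).2 hv]
    exact one_mem _
  have haU : a ∈ U := by
    rw [hU, Subgroup.mem_comap]; exact Subgroup.subset_closure (by simp)
  have hbU : b ∈ U := by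
    rw [hU, Subgroup.mem_comap]; exact Subgroup.subset_closure (by simp)
  have hz : ∀ χ : G ⧸ V → ZMod p, (∀ x ∈ Subgroup.closure {π a, π b},
      ∀ y ∈ Subgroup.closure {π a, π b},
      χ (x * y) = χ x + χ y) → ∀ n ∈ V, χ (π n) = 0 := by
    intro χ h n hn
    rw [(hπker n).2 hn]
    have := h 1 (one_mem _) 1 (one_mem _)
    rw [mul_one] at this
    exact (left_eq_add.1 this)
  obtain ⟨γ, hγ⟩ := cup_trivial hp hF U V hV hNU (fun g => χ₁ (π g)) (fun g => χ₂ (π g))
    (fun u hu v hv => by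
      show χ₁ (π (u * v)) = _
      rw [map_mul]; exact c₁ _ hu _ hv) (hz χ₁ c₁)
    (fun u hu v hv => by
      show χ₂ (π (u * v)) = _
      rw [map_mul]; exact c₂ _ hu _ hv) (hz χ₂ c₂)
  have e1 := hγ a haU b hbU
  have e2 := hγ b hbU a haU
  simp only [a₁, b₁, a₂, b₂] at e1 e2
  rw [hab, e2] at e1
  have : (1 : ZMod p) = 0 := by linear_combination e1
  exact one_ne_zero this

include hp hF in
theorem inf_ne_bot (A B : Subgroup G) (hA : IsClosed (A : Set G)) (hB : IsClosed (B : Set G))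
    (hAB : ∀ a ∈ A, ∀ b ∈ B, b * a * b⁻¹ ∈ A) (hBA : ∀ b ∈ B, ∀ a ∈ A, a * b * a⁻¹ ∈ B)
    (hA' : A ≠ ⊥) (hB' : B ≠ ⊥) : A ⊓ B ≠ ⊥ := by
  intro hbot
  obtain ⟨⟨a, ha⟩, ha0⟩ := (Subgroup.ne_bot_iff_exists_ne_one).1 hA'
  obtain ⟨⟨b, hb⟩, hb0⟩ := (Subgroup.ne_bot_iff_exists_ne_one).1 hB'
  have ha1 : a ≠ 1 := fun h => ha0 (Subtype.ext h)
  have hb1 : b ≠ 1 := fun h => hb0 (Subtype.ext h)
  have hmem : ∀ x, x ∈ A → x ∈ B → x = 1 := by
    intro x hx hx'
    have : x ∈ A ⊓ B := ⟨hx, hx'⟩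
    rwa [hbot, Subgroup.mem_bot] at this
  have hc : a * b * a⁻¹ * b⁻¹ = 1 := by
    apply hmem
    · have := mul_mem ha (hAB _ (inv_mem ha) _ hb)
      have e : a * (b * a⁻¹ * b⁻¹) = a * b * a⁻¹ * b⁻¹ := by group
      rwa [e] at this
    · exact mul_mem (hBA _ hb _ ha) (inv_mem hb)
  have hab : a * b = b * a := by
    have := mul_inv_eq_one.1 hc
    rw [mul_inv_eq_iff_eq_mul] at this
    exact this
  rcases comm_dichotomy hp hF a b hab with h | h
  · apply ha1
    apply hmem a ha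
    have : _root_.closure (zpowers b : Set G) ⊆ B := hB.closure_subset_iff.2 (by
      intro x hx
      obtain ⟨k, rfl⟩ := mem_zpowers_iff.1 hx
      exact zpow_mem hb k)
    exact this h
  · apply hb1
    refine hmem b ?_ hb
    have : _root_.closure (zpowers a : Set G) ⊆ A := hA.closure_subset_iff.2 (by
      intro x hx
      obtain ⟨k, rfl⟩ := mem_zpowers_iff.1 hx
      exact zpow_mem ha k)
    exact this h

include hp hF in
theorem iInf_ne_bot {κ : Type} (R : κ → Subgroup G) (hcl : ∀ k, IsClosed (R k : Set G))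
    (hn : ∀ j k, ∀ a ∈ R j, ∀ b ∈ R k, b * a * b⁻¹ ∈ R j) (hR : ∀ k, R k ≠ ⊥)
    (hne : (⊤ : Subgroup G) ≠ ⊥) (s : Finset κ) : (⨅ k ∈ s, R k) ≠ ⊥ := by
  classical
  induction s using Finset.induction_on with
  | empty => simpa using hne
  | insert k s hk ih =>
    rw [Finset.iInf_insert]
    rcases s.eq_empty_or_nonempty with rfl | ⟨j, hj⟩
    · simpa using hR k
    refine inf_ne_bot hp hF _ _ (hcl k) ?_ ?_ ?_ (hR k) ih
    · simp only [Subgroup.coe_iInf]
      exact isClosed_iInter fun i => isClosed_iInter fun _ => hcl i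
    · intro a ha b hb
      have hb' : b ∈ R j := by
        simp only [Subgroup.mem_iInf] at hb
        exact hb j hj
      exact hn k j a ha b hb'
    · intro b hb a ha
      simp only [Subgroup.mem_iInf] at hb ⊢
      intro j hj
      exact hn j k b (hb j hj) a ha

end

end Pdb20
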