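import Mathlib
import Pool.Agent.Lib.Pdb20.Comm

/-!
# Faithful self-similar actions: sections
-/

set_option autoImplicit false

namespace Pdb20

/-- A faithful continuous self-similar action of `G` on the `p`-ary tree. -/
structure SelfSim (p : ℕ) (G : Type) [Group G] [TopologicalSpace G]
    (ρ : G →* Equiv.Perm (List (Fin p))) : Prop where
  inj : Function.Injective ρ
  opn : ∀ v : List (Fin p), IsOpen {g : G | ρ g v = v}
  nil : ∀ g : G, ρ g [] = []
  ss : ∀ (g : G) (x : Fin p), ∃ (y : Fin p) (h : G),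
    ∀ w : List (Fin p), ρ g (x :: w) = y :: ρ h w

/-- Vertex stabilisers. -/
def St {p : ℕ} {G : Type} [Group G] (ρ : G →* Equiv.Perm (List (Fin p))) (v : List (Fin p)) :
    Subgroup G where
  carrier := {g | ρ g v = v}
  mul_mem' {a b} ha hb := by
    simp only [Set.mem_setOf_eq] at ha hb ⊢
    rw [map_mul, Equiv.Perm.mul_apply, hb, ha]
  one_mem' := by simp
  inv_mem' {a} ha := by
    simp only [Set.mem_setOf_eq] at ha ⊢
    rw [map_inv, Equiv.Perm.inv_eq_iff_eq, ha]

theorem mem_St {p : ℕ} {G : Type} [Group G] {ρ : G →* Equiv.Perm (List (Fin p))}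
    {v : List (Fin p)} {g : G} : g ∈ St ρ v ↔ ρ g v = v := Iff.rfl

namespace SelfSim

variable {p : ℕ} {G : Type} [Group G] [TopologicalSpace G] {ρ : G →* Equiv.Perm (List (Fin p))}

theorem length (hS : SelfSim p G ρ) (v : List (Fin p)) : ∀ g : G, (ρ g v).length = v.length := by
  induction v with
  | nil => intro g; rw [hS.nil]
  | cons x w ih =>
    intro g
    obtain ⟨y, h, hy⟩ := hS.ss g x
    rw [hy, List.length_cons, ih h, List.length_cons]

theorem exists_sec (hS : SelfSim p G ρ) (v : List (Fin p)) :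
    ∀ g : G, ∃ h : G, ∀ w, ρ g (v ++ w) = ρ g v ++ ρ h w := by
  induction v with
  | nil => intro g; exact ⟨g, fun w => by rw [hS.nil]; rfl⟩
  | cons x v ih =>
    intro g
    obtain ⟨y, h, hy⟩ := hS.ss g x
    obtain ⟨k, hk⟩ := ih h
    refine ⟨k, fun w => ?_⟩
    rw [List.cons_append, hy, hk, hy, List.cons_append]

/-- The section of `g` at the vertex `v`. -/
noncomputable def sec (hS : SelfSim p G ρ) (v : List (Fin p)) (g : G) : G :=
  (hS.exists_sec v g).choose

theorem sec_spec (hS : SelfSim p G ρ) (v w : List (Fin p)) (g : G) :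
    ρ g (v ++ w) = ρ g v ++ ρ (hS.sec v g) w :=
  (hS.exists_sec v g).choose_spec w

theorem sec_unique (hS : SelfSim p G ρ) (v : List (Fin p)) (g h : G)
    (hh : ∀ w, ρ g (v ++ w) = ρ g v ++ ρ h w) : hS.sec v g = h := by
  apply hS.inj
  apply Equiv.ext
  intro w
  have := hh w
  rw [hS.sec_spec] at this
  exact List.append_cancel_left this

theorem sec_mul (hS : SelfSim p G ρ) (v : List (Fin p)) (g g' : G) :
    hS.sec v (g * g') = hS.sec (ρ g' v) g * hS.sec v g' := by
  apply hS.sec_unique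
  intro w
  rw [map_mul, Equiv.Perm.mul_apply, Equiv.Perm.mul_apply, hS.sec_spec v w g', hS.sec_spec,
    map_mul, Equiv.Perm.mul_apply]

theorem sec_one (hS : SelfSim p G ρ) (v : List (Fin p)) : hS.sec v 1 = 1 := by
  apply hS.sec_unique
  intro w
  simp

theorem sec_append (hS : SelfSim p G ρ) (v u : List (Fin p)) (g : G) :
    hS.sec (v ++ u) g = hS.sec u (hS.sec v g) := by
  apply hS.sec_unique
  intro w
  rw [List.append_assoc, hS.sec_spec v (u ++ w), hS.sec_spec u w, hS.sec_spec v u,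
    List.append_assoc]

theorem sec_nil (hS : SelfSim p G ρ) (g : G) : hS.sec [] g = g := by
  apply hS.sec_unique
  intro w
  rw [hS.nil]; rfl

/-- Multiplicativity of the section on the stabiliser. -/
theorem sec_mul_of_mem (hS : SelfSim p G ρ) (v : List (Fin p)) (g g' : G) (h : g' ∈ St ρ v) :
    hS.sec v (g * g') = hS.sec v g * hS.sec v g' := by
  rw [sec_mul, mem_St.1 h]

theorem mem_append (hS : SelfSim p G ρ) (v u : List (Fin p)) (g : G) :
    g ∈ St ρ (v ++ u) ↔ g ∈ St ρ v ∧ hS.sec v g ∈ St ρ u := by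
  constructor
  · intro h
    have h1 : ρ g (v ++ u) = v ++ u := h
    rw [hS.sec_spec] at h1
    have h2 := List.append_inj h1 (hS.length v g)
    exact ⟨h2.1, h2.2⟩
  · rintro ⟨h1, h2⟩
    show ρ g (v ++ u) = v ++ u
    rw [hS.sec_spec, mem_St.1 h1, mem_St.1 h2]

theorem isOpen_St (hS : SelfSim p G ρ) (v : List (Fin p)) : IsOpen (St ρ v : Set G) := hS.opn v

variable [IsTopologicalGroup G]

/-- `{g | ρ g v = u}` is open. -/
theorem isOpen_eq (hS : SelfSim p G ρ) (v u : List (Fin p)) : IsOpen {g : G | ρ g v = u} := by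
  rw [isOpen_iff_mem_nhds]
  intro g hg
  have h1 : IsOpen ((fun x => g⁻¹ * x) ⁻¹' {g : G | ρ g v = v}) :=
    (hS.opn v).preimage (continuous_const_mul g⁻¹)
  refine Filter.mem_of_superset (h1.mem_nhds ?_) ?_
  · show ρ (g⁻¹ * g) v = v
    simp
  · intro x hx
    have hx' : ρ (g⁻¹ * x) v = v := hx
    have hg' : ρ g v = u := hg
    show ρ x v = u
    rw [map_mul, Equiv.Perm.mul_apply, map_inv, Equiv.Perm.inv_eq_iff_eq, hg'] at hx'
    exact hx'

theorem isClosed_eq (hS : SelfSim p G ρ) (v u : List (Fin p)) : IsClosed {g : G | ρ g v = u} := by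
  rw [← isOpen_compl_iff]
  have : {g : G | ρ g v = u}ᶜ = ⋃ u' ∈ {u' | u' ≠ u}, {g : G | ρ g v = u'} := by
    ext g
    simp
  rw [this]
  exact isOpen_biUnion fun u' _ => hS.isOpen_eq v u'

/-- The section maps are continuous (closed graph). -/
theorem continuous_sec (hS : SelfSim p G ρ) [CompactSpace G] (v : List (Fin p)) :
    Continuous (hS.sec v) := by
  rw [continuous_iff_isClosed]
  intro C hC
  have hgr : IsClosed {q : G × G | hS.sec v q.1 = q.2} := by
    have : {q : G × G | hS.sec v q.1 = q.2} =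
        ⋂ w : List (Fin p), {q : G × G | ρ q.1 (v ++ w) = ρ q.1 v ++ ρ q.2 w} := by
      ext ⟨g, h⟩
      simp only [Set.mem_setOf_eq, Set.mem_iInter]
      constructor
      · rintro rfl w
        exact hS.sec_spec v w g
      · intro hh
        exact hS.sec_unique v g h hh
    rw [this]
    refine isClosed_iInter fun w => ?_
    have h2 : {q : G × G | ρ q.1 (v ++ w) = ρ q.1 v ++ ρ q.2 w}ᶜ =
        ⋃ t ∈ {t : List (Fin p) × List (Fin p) × List (Fin p) | t.1 ≠ t.2.1 ++ t.2.2},
          ({g : G | ρ g (v ++ w) = t.1} ∩ {g : G | ρ g v = t.2.1}) ×ˢ {g : G | ρ g w = t.2.2} := by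
      ext ⟨g, h⟩
      simp only [Set.mem_compl_iff, Set.mem_setOf_eq, Set.mem_iUnion, Set.mem_prod, Set.mem_inter_iff,
        exists_prop, Prod.exists]
      constructor
      · intro hne
        exact ⟨_, _, _, hne, ⟨rfl, rfl⟩, rfl⟩
      · rintro ⟨a, b, c, hne, ⟨rfl, rfl⟩, rfl⟩
        exact hne
    rw [← isOpen_compl_iff, h2]
    refine isOpen_biUnion fun t _ => ?_
    exact ((hS.isOpen_eq _ _).inter (hS.isOpen_eq _ _)).prod (hS.isOpen_eq _ _)
  have : hS.sec v ⁻¹' C = Prod.fst '' ({q : G × G | hS.sec v q.1 = q.2} ∩ (Prod.snd ⁻¹' C)) := by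
    ext g
    simp only [Set.mem_preimage, Set.mem_image, Set.mem_inter_iff, Set.mem_setOf_eq, Prod.exists,
      exists_and_right, exists_eq_right]
    constructor
    · intro h
      exact ⟨_, rfl, h⟩
    · rintro ⟨h, rfl, hC⟩
      exact hC
  rw [this]
  exact isClosedMap_fst_of_compactSpace _ (hgr.inter (hC.preimage continuous_snd))

end SelfSim

end Pdb20
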