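import Mathlib
import Pool.Agent.Lib.Pdb20.Basic

/-!
# Level transitivity
-/

set_option autoImplicit false

namespace Pdb20

namespace SelfSim

variable {p : ℕ} {G : Type} [Group G] [TopologicalSpace G] {ρ : G →* Equiv.Perm (List (Fin p))}

/-- The action on level `n`. -/
def lev (hS : SelfSim p G ρ) (n : ℕ) : G →* Equiv.Perm (List.Vector (Fin p) n) where
  toFun g :=
    { toFun := fun v => ⟨ρ g v.1, by rw [hS.length]; exact v.2⟩
      invFun := fun v => ⟨ρ g⁻¹ v.1, by rw [hS.length]; exact v.2⟩
      left_inv := fun v => Subtype.ext (by simp)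
      right_inv := fun v => Subtype.ext (by simp) }
  map_one' := Equiv.ext fun v => Subtype.ext (by simp)
  map_mul' g h := Equiv.ext fun v => Subtype.ext (by simp)

theorem lev_val (hS : SelfSim p G ρ) (n : ℕ) (g : G) (v : List.Vector (Fin p) n) :
    (hS.lev n g v).1 = ρ g v.1 := rfl

/-- The pointwise stabiliser of level `n`. -/
theorem ker_lev_mem (hS : SelfSim p G ρ) (n : ℕ) (g : G) :
    g ∈ (hS.lev n).ker ↔ ∀ v : List (Fin p), v.length = n → ρ g v = v := by
  rw [MonoidHom.mem_ker]
  constructor
  · intro h v hv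
    have := congrArg Subtype.val (DFunLike.congr_fun h (⟨v, hv⟩ : List.Vector (Fin p) n))
    exact this
  · intro h
    apply Equiv.ext
    intro v
    exact Subtype.ext (h v.1 v.2)

theorem isOpen_ker_lev (hS : SelfSim p G ρ) (n : ℕ) : IsOpen ((hS.lev n).ker : Set G) := by
  have : ((hS.lev n).ker : Set G) = ⋂ v : List.Vector (Fin p) n, {g : G | ρ g v.1 = v.1} := by
    ext g
    rw [SetLike.mem_coe, hS.ker_lev_mem]
    simp only [Set.mem_iInter, Set.mem_setOf_eq]
    exact ⟨fun h v => h v.1 v.2, fun h v hv => h ⟨v, hv⟩⟩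
  rw [this]
  exact isOpen_iInter_of_finite fun v => hS.opn v.1

end SelfSim

section

variable {p d : ℕ} {G : Type} [Group G] [TopologicalSpace G]
    [IsTopologicalGroup G] [CompactSpace G] {ι : Fin d → G}

theorem exists_pow_mem (hF : FreeP p d G ι) (K : Subgroup G) (hK : IsOpen (K : Set G)) (u : G) :
    ∃ k : ℕ, u ^ p ^ k ∈ K := by
  obtain ⟨k, hk⟩ := hF.idx K.normalCore (open_core K hK) inferInstance
  refine ⟨k, ?_⟩
  rw [← hk]
  exact K.normalCore_le (Subgroup.pow_index_mem _ u)

omit [IsTopologicalGroup G] [CompactSpace G] in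
theorem not_open_bot (hp : p.Prime) (hd : 1 ≤ d) (hF : FreeP p d G ι) :
    ¬ IsOpen ((⊥ : Subgroup G) : Set G) := by
  intro h
  have := Fact.mk hp
  obtain ⟨k, hk⟩ := hF.idx ⊥ h inferInstance
  rw [Subgroup.index_bot] at hk
  have : NeZero (p ^ (k + 1)) := ⟨(pow_pos hp.pos _).ne'⟩
  have : Finite (Multiplicative (ZMod (p ^ (k + 1)))) :=
    inferInstanceAs (Finite (ZMod (p ^ (k + 1))))
  have hH : IsPGroup p (Multiplicative (ZMod (p ^ (k + 1)))) := by
    rw [IsPGroup.iff_card]
    exact ⟨k + 1, by rw [Nat.card_congr Multiplicative.toAdd, Nat.card_zmod]⟩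
  obtain ⟨φ, -, hφ⟩ := hF.ex _ hH (fun _ => Multiplicative.ofAdd 1)
  have hsurj : Function.Surjective φ := by
    intro y
    refine ⟨ι ⟨0, hd⟩ ^ (Multiplicative.toAdd y).val, ?_⟩
    rw [map_pow, hφ]
    apply Multiplicative.toAdd.injective
    rw [toAdd_pow, toAdd_ofAdd, nsmul_eq_mul, mul_one, ZMod.natCast_val, ZMod.cast_id]
  have hdvd := Subgroup.card_dvd_of_surjective φ hsurj
  rw [hk, Nat.card_congr Multiplicative.toAdd, Nat.card_zmod] at hdvd
  have := Nat.le_of_dvd (pow_pos hp.pos k) hdvd
  exact absurd this (not_le.2 (Nat.pow_lt_pow_right hp.one_lt (Nat.lt_succ_self k)))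

namespace SelfSim

variable {ρ : G →* Equiv.Perm (List (Fin p))}

theorem dichotomy (hp : p.Prime) (hF : FreeP p d G ι) (hS : SelfSim p G ρ) (v : List (Fin p)) :
    (∀ z z' : List (Fin p), z.length = 1 → z'.length = 1 →
      ∃ g ∈ St ρ v, ρ g (v ++ z) = v ++ z') ∨
    (∀ g ∈ St ρ v, ∀ z : List (Fin p), z.length = 1 → ρ g (v ++ z) = v ++ z) := by
  have := Fact.mk hp
  set θ : St ρ v →* Equiv.Perm (List.Vector (Fin p) 1) :=
    { toFun := fun g => hS.lev 1 (hS.sec v g)
      map_one' := by rw [Subgroup.coe_one, hS.sec_one, map_one]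
      map_mul' := fun g h => by
        rw [Subgroup.coe_mul, hS.sec_mul_of_mem v _ _ h.2, map_mul] } with hθ
  have hθv : ∀ (g : St ρ v) (z : List.Vector (Fin p) 1),
      ρ g (v ++ z.1) = v ++ (θ g z).1 := by
    intro g z
    rw [hS.sec_spec, mem_St.1 g.2]
    rfl
  set K : Subgroup G := St ρ v ⊓ ⨅ z : List.Vector (Fin p) 1, St ρ (v ++ z.1) with hK
  have hKo : IsOpen (K : Set G) := by
    rw [hK, Subgroup.coe_inf, Subgroup.coe_iInf]
    exact (hS.isOpen_St v).inter (isOpen_iInter_of_finite fun z => hS.isOpen_St _)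
  have hP : IsPGroup p θ.range := by
    rintro ⟨_, g, rfl⟩
    obtain ⟨k, hk⟩ := exists_pow_mem hF K hKo g
    refine ⟨k, Subtype.ext ?_⟩
    show (θ g) ^ p ^ k = 1
    rw [← map_pow]
    apply Equiv.ext
    intro z
    have h1 := hθv (g ^ p ^ k) z
    have h2 : (g.1 ^ p ^ k) ∈ St ρ (v ++ z.1) := by
      have := (Subgroup.mem_inf.1 hk).2
      rw [Subgroup.mem_iInf] at this
      exact this z
    have h3 : ρ ((g ^ p ^ k : St ρ v) : G) (v ++ z.1) = v ++ z.1 := h2
    rw [h3] at h1
    exact (Subtype.ext (List.append_cancel_left h1)).symm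
  have hcard : Nat.card (List.Vector (Fin p) 1) = p := by
    rw [Nat.card_eq_fintype_card, card_vector, Fintype.card_fin, pow_one]
  by_cases hall : ∀ z : List.Vector (Fin p) 1, Nat.card (MulAction.orbit θ.range z) = 1
  · right
    have hz1 : ∀ (g : St ρ v) (zz : List.Vector (Fin p) 1), θ g zz = zz := by
      intro g zz
      have h1 := hall zz
      rw [Nat.card_eq_one_iff_unique] at h1
      have hsub := h1.1
      have h2 : (⟨(⟨θ g, g, rfl⟩ : θ.range) • zz,
          MulAction.mem_orbit _ _⟩ : MulAction.orbit θ.range zz) =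
          ⟨zz, MulAction.mem_orbit_self _⟩ := Subsingleton.elim _ _
      exact congrArg Subtype.val h2
    intro g hg z hz
    have h4 := hθv ⟨g, hg⟩ ⟨z, hz⟩
    rw [hz1] at h4
    exact h4
  · left
    push Not at hall
    obtain ⟨z₀, hz₀⟩ := hall
    obtain ⟨n, hn⟩ := hP.card_orbit z₀
    have hn0 : n ≠ 0 := by
      rintro rfl
      exact hz₀ (by rw [hn, pow_zero])
    have hge : p ≤ Nat.card (MulAction.orbit θ.range z₀) := by
      rw [hn]
      exact Nat.le_self_pow hn0 p
    have huniv : MulAction.orbit θ.range z₀ = Set.univ := by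
      apply Set.eq_of_subset_of_ncard_le (Set.subset_univ _) _ Set.finite_univ
      rw [Set.ncard_univ, hcard]
      exact hge
    intro z z' hz hz'
    have h1 : (⟨z, hz⟩ : List.Vector (Fin p) 1) ∈ MulAction.orbit θ.range z₀ := by
      rw [huniv]; trivial
    have h2 : (⟨z', hz'⟩ : List.Vector (Fin p) 1) ∈ MulAction.orbit θ.range z₀ := by
      rw [huniv]; trivial
    obtain ⟨⟨_, a, rfl⟩, ha⟩ := h1
    obtain ⟨⟨_, b, rfl⟩, hb⟩ := h2
    refine ⟨(b * a⁻¹ : St ρ v), (b * a⁻¹ : St ρ v).2, ?_⟩
    have h3 := hθv (b * a⁻¹) ⟨z, hz⟩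
    have ha' : θ a z₀ = ⟨z, hz⟩ := ha
    have hb' : θ b z₀ = ⟨z', hz'⟩ := hb
    rw [map_mul, Equiv.Perm.mul_apply, map_inv, Equiv.Perm.inv_eq_iff_eq.2 ha'.symm, hb'] at h3
    exact h3

/-- The action on every level is transitive. -/
theorem transitive (hp : p.Prime) (hd : 1 ≤ d) (hF : FreeP p d G ι) (hS : SelfSim p G ρ) (n : ℕ) :
    ∀ v w : List (Fin p), v.length = n → w.length = n → ∃ g, ρ g v = w := by
  induction n with
  | zero =>
    intro v w hv hw
    rw [List.length_eq_zero_iff] at hv hw
    exact ⟨1, by rw [hv, hw, hS.nil]⟩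
  | succ n ih =>
    by_cases hex : ∃ v₀ : List (Fin p), v₀.length = n ∧ ∀ z z' : List (Fin p), z.length = 1 →
        z'.length = 1 → ∃ g ∈ St ρ v₀, ρ g (v₀ ++ z) = v₀ ++ z'
    · obtain ⟨v₀, hv₀, h₀⟩ := hex
      have key : ∀ u : List (Fin p), u.length = n + 1 → ∃ g z, z.length = 1 ∧
          ρ g u = v₀ ++ z := by
        intro u hu
        have hne : u ≠ [] := by
          rintro rfl
          simp at hu
        obtain ⟨g, hg⟩ := ih u.dropLast v₀ (by rw [List.length_dropLast, hu]; rfl) hv₀
        refine ⟨g, ρ (hS.sec u.dropLast g) [u.getLast hne], ?_, ?_⟩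
        · rw [hS.length]; rfl
        · rw [← hg, ← hS.sec_spec, List.dropLast_append_getLast]
      intro v w hv hw
      obtain ⟨g, z, hz, hg⟩ := key v hv
      obtain ⟨g', z', hz', hg'⟩ := key w hw
      obtain ⟨h, -, hh⟩ := h₀ z z' hz hz'
      refine ⟨g'⁻¹ * h * g, ?_⟩
      rw [map_mul, map_mul, Equiv.Perm.mul_apply, Equiv.Perm.mul_apply, hg, hh, map_inv,
        Equiv.Perm.inv_eq_iff_eq, hg']
    · exfalso
      push Not at hex
      have h2 : ∀ v : List (Fin p), v.length = n → ∀ g ∈ St ρ v, ∀ z : List (Fin p),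
          z.length = 1 → ρ g (v ++ z) = v ++ z := by
        intro v hv
        rcases hS.dichotomy hp hF v with h | h
        · obtain ⟨z, z', hz, hz', hh⟩ := hex v hv
          obtain ⟨g, hg, hg'⟩ := h z z' hz hz'
          exact absurd hg' (hh g hg)
        · exact h
      have hstep : ∀ m, n ≤ m → (hS.lev m).ker ≤ (hS.lev (m + 1)).ker := by
        intro m hm
        induction m, hm using Nat.le_induction with
        | base =>
          intro g hg
          rw [hS.ker_lev_mem] at hg ⊢
          intro u hu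
          have hne : u ≠ [] := by
            rintro rfl
            simp at hu
          have hl : u.dropLast.length = n := by rw [List.length_dropLast, hu]; rfl
          have := h2 u.dropLast hl g (hg _ hl) [u.getLast hne] rfl
          rwa [List.dropLast_append_getLast] at this
        | succ m hm ih2 =>
          intro g hg
          have hg' := (hS.ker_lev_mem _ _).1 hg
          rw [hS.ker_lev_mem]
          intro u hu
          rcases u with _ | ⟨x, u⟩
          · simp at hu
          · have hsec : ∀ w : List (Fin p), w.length = m → g ∈ St ρ [x] ∧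
                hS.sec [x] g ∈ St ρ w := by
              intro w hw
              rw [← hS.mem_append]
              exact hg' _ (by simp [hw])
            have h3 : hS.sec [x] g ∈ (hS.lev m).ker := by
              rw [hS.ker_lev_mem]
              intro w hw
              exact (hsec w hw).2
            have h4 := (hS.ker_lev_mem _ _).1 (ih2 h3)
            have h5 : g ∈ St ρ ([x] ++ u) := by
              rw [hS.mem_append]
              refine ⟨(hsec (u.take m) ?_).1, h4 u ?_⟩
              · rw [List.length_take]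
                simp only [List.length_cons] at hu
                omega
              · simp only [List.length_cons] at hu
                omega
            exact h5
      have hle : ∀ m, n ≤ m → (hS.lev n).ker ≤ (hS.lev m).ker := by
        intro m hm
        induction m, hm using Nat.le_induction with
        | base => exact le_rfl
        | succ m hm ih2 => exact ih2.trans (hstep m hm)
      have hbot : (hS.lev n).ker = ⊥ := by
        rw [eq_bot_iff]
        intro g hg
        rw [Subgroup.mem_bot]
        apply hS.inj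
        rw [map_one]
        apply Equiv.ext
        intro v
        have hp0 : 0 < p := hp.pos
        have h3 := (hS.ker_lev_mem _ _).1 (hle (v.length + n) (by omega) hg)
          (v ++ List.replicate n ⟨0, hp0⟩) (by simp)
        exact ((hS.mem_append v _ g).1 h3).1
      exact not_open_bot hp hd hF (hbot ▸ hS.isOpen_ker_lev n)

end SelfSim

end

end Pdb20
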