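import Mathlib
import Pool.Agent.Lib.Pdb20.Trans

/-!
# All section maps are injective
-/

set_option autoImplicit false

namespace Pdb20

section

variable {p d : ℕ} {G : Type} [Group G] [TopologicalSpace G]
    [IsTopologicalGroup G] [CompactSpace G] {ι : Fin d → G}

omit [IsTopologicalGroup G] [CompactSpace G] in
theorem top_ne_bot (hp : p.Prime) (hd : 1 ≤ d) (hF : FreeP p d G ι) :
    (⊤ : Subgroup G) ≠ ⊥ := by
  intro h
  apply not_open_bot hp hd hF
  rw [← h, Subgroup.coe_top]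
  exact isOpen_univ

namespace SelfSim

variable {ρ : G →* Equiv.Perm (List (Fin p))}

/-- An element fixing one letter fixes all letters. -/
theorem mem_St_letter (hp : p.Prime) (hF : FreeP p d G ι) (hS : SelfSim p G ρ) (x y : Fin p)
    (g : G) (hg : g ∈ St ρ [x]) : g ∈ St ρ [y] := by
  have := Fact.mk hp
  set a : Equiv.Perm (List.Vector (Fin p) 1) := hS.lev 1 g with ha
  have hP : IsPGroup p (Subgroup.zpowers a) := by
    rintro ⟨_, k, rfl⟩
    obtain ⟨j, hj⟩ := exists_pow_mem hF (hS.lev 1).ker (hS.isOpen_ker_lev 1) g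
    refine ⟨j, Subtype.ext ?_⟩
    show (a ^ k) ^ p ^ j = 1
    rw [← zpow_natCast, ← zpow_mul, mul_comm, zpow_mul, zpow_natCast, ha, ← map_pow,
      MonoidHom.mem_ker.1 hj, one_zpow]
  have hcard : Nat.card (List.Vector (Fin p) 1) = p := by
    rw [Nat.card_eq_fintype_card, card_vector, Fintype.card_fin, pow_one]
  have hmod := hP.card_modEq_card_fixedPoints (List.Vector (Fin p) 1)
  rw [hcard] at hmod
  set P := MulAction.fixedPoints (Subgroup.zpowers a) (List.Vector (Fin p) 1) with hPdef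
  have hmem : ∀ z : List.Vector (Fin p) 1, a z = z → z ∈ P := by
    rintro z hz ⟨_, k, rfl⟩
    show (a ^ k) z = z
    exact Function.IsFixedPt.perm_zpow hz k
  have hdvd : p ∣ Nat.card P := by
    have := (Nat.modEq_zero_iff_dvd.2 (dvd_refl p)).symm.trans hmod
    exact (Nat.modEq_zero_iff_dvd.1 this.symm)
  have hx : (⟨[x], rfl⟩ : List.Vector (Fin p) 1) ∈ P :=
    hmem _ (Subtype.ext hg)
  have hpos : 0 < Nat.card P := by
    have : Nonempty P := ⟨⟨_, hx⟩⟩
    exact Nat.card_pos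
  have hge : p ≤ Nat.card P := Nat.le_of_dvd hpos hdvd
  have huniv : P = Set.univ := by
    apply Set.eq_of_subset_of_ncard_le (Set.subset_univ _) _ Set.finite_univ
    rw [Set.ncard_univ, hcard]
    exact hge
  have hy : (⟨[y], rfl⟩ : List.Vector (Fin p) 1) ∈ P := by
    rw [huniv]; trivial
  have h1 : a (⟨[y], rfl⟩ : List.Vector (Fin p) 1) = ⟨[y], rfl⟩ :=
    hy ⟨a, Subgroup.mem_zpowers a⟩
  exact congrArg Subtype.val h1

/-- The pointwise stabiliser of the subtree at the letter `x`. -/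
def Rg (hS : SelfSim p G ρ) (x : Fin p) : Subgroup G where
  carrier := {g | ∀ w, ρ g (x :: w) = x :: w}
  mul_mem' {a b} ha hb := by
    simp only [Set.mem_setOf_eq] at ha hb ⊢
    intro w
    rw [map_mul, Equiv.Perm.mul_apply, hb, ha]
  one_mem' := by simp
  inv_mem' {a} ha := by
    simp only [Set.mem_setOf_eq] at ha ⊢
    intro w
    rw [map_inv, Equiv.Perm.inv_eq_iff_eq, ha]

theorem mem_Rg (hS : SelfSim p G ρ) {x : Fin p} {g : G} :
    g ∈ hS.Rg x ↔ ∀ w, ρ g (x :: w) = x :: w := Iff.rfl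

theorem isClosed_Rg (hS : SelfSim p G ρ) (x : Fin p) : IsClosed (hS.Rg x : Set G) := by
  have : (hS.Rg x : Set G) = ⋂ w : List (Fin p), {g : G | ρ g (x :: w) = x :: w} := by
    ext g
    rw [SetLike.mem_coe, hS.mem_Rg]
    simp
  rw [this]
  exact isClosed_iInter fun w => hS.isClosed_eq _ _

/-- Conjugation moves the rigid subgroups. -/
theorem conj_Rg (hS : SelfSim p G ρ) (x y : Fin p) (g a : G) (hg : ρ g [x] = [y])
    (ha : a ∈ hS.Rg x) : g * a * g⁻¹ ∈ hS.Rg y := by
  rw [hS.mem_Rg] at ha ⊢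
  intro w
  have h1 : ρ g⁻¹ [y] = [x] := by
    rw [map_inv, Equiv.Perm.inv_eq_iff_eq, hg]
  have h2 : ρ g⁻¹ (y :: w) = x :: ρ (hS.sec [y] g⁻¹) w := by
    have := hS.sec_spec [y] w g⁻¹
    rw [h1] at this
    exact this
  rw [map_mul, map_mul, Equiv.Perm.mul_apply, Equiv.Perm.mul_apply, h2, ha, ← h2, map_inv]
  exact (ρ g).apply_symm_apply (y :: w)

variable [TotallyDisconnectedSpace G]

theorem Rg_eq_bot (hp : p.Prime) (hd : 1 ≤ d) (hF : FreeP p d G ι) (hS : SelfSim p G ρ)
    (x : Fin p) : hS.Rg x = ⊥ := by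
  by_contra hne
  have hall : ∀ y, hS.Rg y ≠ ⊥ := by
    intro y hy
    obtain ⟨⟨a, ha⟩, ha1⟩ := (Subgroup.ne_bot_iff_exists_ne_one).1 hne
    obtain ⟨g, hg⟩ := hS.transitive hp hd hF 1 [x] [y] rfl rfl
    have h1 := hS.conj_Rg x y g a hg ha
    rw [hy, Subgroup.mem_bot, conj_eq_one_iff] at h1
    exact ha1 (Subtype.ext h1)
  refine iInf_ne_bot hp hF (fun y => hS.Rg y) hS.isClosed_Rg ?_ hall (top_ne_bot hp hd hF)
    Finset.univ ?_
  · intro j k a ha b hb
    refine hS.conj_Rg j j b a ?_ ha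
    exact hS.mem_St_letter hp hF k j b (hb [])
  · rw [eq_bot_iff]
    intro g hg
    simp only [Subgroup.mem_iInf, Finset.mem_univ, true_imp_iff] at hg
    rw [Subgroup.mem_bot]
    apply hS.inj
    rw [map_one]
    apply Equiv.ext
    intro v
    rcases v with _ | ⟨y, w⟩
    · rw [hS.nil]; rfl
    · exact hg y w

/-- An element fixing a subtree pointwise is trivial. -/
theorem rigid (hp : p.Prime) (hd : 1 ≤ d) (hF : FreeP p d G ι) (hS : SelfSim p G ρ)
    (v : List (Fin p)) : ∀ g : G, (∀ w, ρ g (v ++ w) = v ++ w) → g = 1 := by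
  induction v with
  | nil =>
    intro g hg
    apply hS.inj
    rw [map_one]
    exact Equiv.ext hg
  | cons x v ih =>
    intro g hg
    have h1 : ∀ w, g ∈ St ρ [x] ∧ hS.sec [x] g ∈ St ρ (v ++ w) := by
      intro w
      rw [← hS.mem_append]
      exact hg w
    have h2 : hS.sec [x] g = 1 := ih _ fun w => (h1 w).2
    have h3 : g ∈ hS.Rg x := by
      rw [hS.mem_Rg]
      intro w
      have := hS.sec_spec [x] w g
      rw [h2, mem_St.1 (h1 []).1, map_one] at this
      exact this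
    rw [hS.Rg_eq_bot hp hd hF, Subgroup.mem_bot] at h3
    exact h3

/-- The section maps are injective on the vertex stabilisers. -/
theorem sec_inj (hp : p.Prime) (hd : 1 ≤ d) (hF : FreeP p d G ι) (hS : SelfSim p G ρ)
    (v : List (Fin p)) (g g' : G) (hg : g ∈ St ρ v) (hg' : g' ∈ St ρ v)
    (h : hS.sec v g = hS.sec v g') : g = g' := by
  have h1 : hS.sec v (g * g'⁻¹) = 1 := by
    have e := hS.sec_mul_of_mem v (g * g'⁻¹) g' hg'
    rw [inv_mul_cancel_right, h] at e
    exact (mul_eq_right.1 e.symm)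
  have h2 : g * g'⁻¹ = 1 := by
    apply hS.rigid hp hd hF v
    intro w
    rw [hS.sec_spec, h1, map_one, mem_St.1 (mul_mem hg (inv_mem hg'))]
    rfl
  exact mul_inv_eq_one.1 h2

end SelfSim

end

end Pdb20
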