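import Mathlib
import Pool.Agent.Lib.Pdb20.Inj

/-!
# Dimension counts for crossed homomorphisms; no section map is onto
-/

set_option autoImplicit false

namespace Pdb20

section

variable {p d : ℕ} {G : Type} [Group G] [TopologicalSpace G]
    [IsTopologicalGroup G] {ι : Fin d → G}

omit [IsTopologicalGroup G] in
theorem isCrA_add {X : Type} {σ : G →* Equiv.Perm X} {B B' : G → X → ZMod p}
    (hB : IsCrA p σ B) (hB' : IsCrA p σ B') : IsCrA p σ (B + B') := by
  obtain ⟨h1, N, hN, h2⟩ := hB
  obtain ⟨h1', N', hN', h2'⟩ := hB'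
  refine ⟨?_, N ⊓ N', ?_, ?_⟩
  · intro g h x
    simp only [Pi.add_apply, h1, h1']
    ring
  · rw [Subgroup.coe_inf]
    exact hN.inter hN'
  · intro n hn x
    refine ⟨?_, (h2 n hn.1 x).2⟩
    simp only [Pi.add_apply, (h2 n hn.1 x).1, (h2' n hn.2 x).1, add_zero]

omit [IsTopologicalGroup G] in
theorem isCrA_smul {X : Type} {σ : G →* Equiv.Perm X} {B : G → X → ZMod p} (c : ZMod p)
    (hB : IsCrA p σ B) : IsCrA p σ (c • B) := by
  obtain ⟨h1, N, hN, h2⟩ := hB
  refine ⟨?_, N, hN, ?_⟩
  · intro g h x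
    simp only [Pi.smul_apply, smul_eq_mul, h1]
    ring
  · intro n hn x
    refine ⟨?_, (h2 n hn x).2⟩
    simp only [Pi.smul_apply, smul_eq_mul, (h2 n hn x).1, mul_zero]

/-- The linear parametrisation of crossed homomorphisms by their values on the generators. -/
theorem exists_crL (hp : p.Prime) (hF : FreeP p d G ι) {X : Type} [Finite X]
    (σ : G →* Equiv.Perm X) (hσ : IsOpen (σ.ker : Set G)) :
    ∃ L : (Fin d → X → ZMod p) →ₗ[ZMod p] (G → X → ZMod p),
      (∀ m, IsCrA p σ (L m)) ∧ ∀ m i, L m (ι i) = m i := by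
  choose B hB hBi using fun m : Fin d → X → ZMod p => exists_crA hp hF σ hσ m
  refine ⟨{ toFun := B, map_add' := ?_, map_smul' := ?_ }, hB, hBi⟩
  · intro m m'
    refine crA_ext hp hF σ _ _ (hB _) (isCrA_add (hB m) (hB m')) ?_
    intro i
    rw [hBi, Pi.add_apply, Pi.add_apply, hBi, hBi]
  · intro c m
    refine crA_ext hp hF σ _ _ (hB _) (isCrA_smul c (hB m)) ?_
    intro i
    rw [hBi]
    simp only [RingHom.id_apply, Pi.smul_apply, hBi]

/-- The coboundary map. -/
def cob {X : Type} (σ : G →* Equiv.Perm X) (ι : Fin d → G) : (X → ZMod p) →ₗ[ZMod p] (Fin d → X → ZMod p) where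
  toFun β := fun i x => β x - β ((σ (ι i))⁻¹ x)
  map_add' β β' := by
    funext i x
    simp only [Pi.add_apply]
    ring
  map_smul' c β := by
    funext i x
    simp only [Pi.smul_apply, smul_eq_mul, RingHom.id_apply]
    ring

omit [IsTopologicalGroup G] in
theorem exists_nonzero (hp : p.Prime) {X : Type} [Finite X]
    (σ : G →* Equiv.Perm X) (x0 : X) (htr : ∀ x, ∃ g, σ g x0 = x)
    (L : (Fin d → X → ZMod p) →ₗ[ZMod p] (G → X → ZMod p))
    (hL : ∀ m, IsCrA p σ (L m)) (hLi : ∀ m i, L m (ι i) = m i)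
    {J : Type} [Fintype J] (Λ : J → (Fin d → X → ZMod p) →ₗ[ZMod p] ZMod p)
    (hcard : Fintype.card J + Nat.card X ≤ d * Nat.card X) :
    ∃ m, (∀ j, Λ j m = 0) ∧ ∃ g, σ g x0 = x0 ∧ L m g x0 ≠ 0 := by
  classical
  have := Fact.mk hp
  letI := Fintype.ofFinite X
  by_contra hcon
  push Not at hcon
  have hle : LinearMap.ker (LinearMap.pi Λ) ≤ LinearMap.range (cob (p := p) σ ι) := by
    intro m hm
    have hm' : ∀ j, Λ j m = 0 := fun j => congrFun (LinearMap.mem_ker.1 hm) j
    have hz := hcon m hm'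
    choose t ht using htr
    have hone : ∀ x, L m 1 x = 0 := by
      intro x
      have := (hL m).1 1 1 x
      rw [mul_one, map_one] at this
      exact (left_eq_add.1 this)
    have key : ∀ (g : G) (x : X), σ g x0 = x → L m g x = L m (t x) x := by
      intro g x hg
      have h1 := (hL m).1 (t x) ((t x)⁻¹ * g) x
      have h2 : (σ (t x))⁻¹ x = x0 := by
        rw [Equiv.Perm.inv_eq_iff_eq]; exact (ht x).symm
      have h3 : L m ((t x)⁻¹ * g) x0 = 0 := by
        apply hz
        rw [map_mul, Equiv.Perm.mul_apply, hg, map_inv, h2]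
      rw [mul_inv_cancel_left, h2, h3, add_zero] at h1
      exact h1
    refine ⟨fun x => L m (t x) x, ?_⟩
    funext i x
    show L m (t x) x - L m (t ((σ (ι i))⁻¹ x)) ((σ (ι i))⁻¹ x) = m i x
    have h1 : σ (ι i * t ((σ (ι i))⁻¹ x)) x0 = x := by
      rw [map_mul, Equiv.Perm.mul_apply, ht, Equiv.Perm.inv_def, Equiv.apply_symm_apply]
    have h2 := key _ _ h1
    have h3 := (hL m).1 (ι i) (t ((σ (ι i))⁻¹ x)) x
    rw [← h2, h3, hLi]
    ring
  have f1 := LinearMap.finrank_range_add_finrank_ker (LinearMap.pi Λ)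
  have f2 : Module.finrank (ZMod p) (LinearMap.range (LinearMap.pi Λ)) ≤ Fintype.card J := by
    have := Submodule.finrank_le (LinearMap.range (LinearMap.pi Λ))
    rwa [Module.finrank_fintype_fun_eq_card] at this
  have f3 := Submodule.finrank_mono hle
  have f4 := LinearMap.finrank_range_add_finrank_ker (cob (p := p) σ ι)
  have f5 : 1 ≤ Module.finrank (ZMod p) (LinearMap.ker (cob (p := p) σ ι)) := by
    have h1 : (fun _ : X => (1 : ZMod p)) ∈ LinearMap.ker (cob (p := p) σ ι) := by
      rw [LinearMap.mem_ker]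
      funext i x
      show (1 : ZMod p) - 1 = 0
      ring
    have h2 : Nontrivial (LinearMap.ker (cob (p := p) σ ι)) := by
      refine ⟨⟨⟨_, h1⟩, 0, ?_⟩⟩
      intro h
      have := congrFun (congrArg Subtype.val h) x0
      exact one_ne_zero this
    exact Module.finrank_pos
  have f6 : Module.finrank (ZMod p) (Fin d → X → ZMod p) = d * Nat.card X := by
    rw [Module.finrank_pi_fintype, Finset.sum_const, Finset.card_univ, Fintype.card_fin,
      Module.finrank_fintype_fun_eq_card, Nat.card_eq_fintype_card, smul_eq_mul]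
  have f7 : Module.finrank (ZMod p) (X → ZMod p) = Nat.card X := by
    rw [Module.finrank_fintype_fun_eq_card, Nat.card_eq_fintype_card]
  rw [f6] at f1
  rw [f7] at f4
  omega

end

section

variable {p d : ℕ} {G : Type} [Group G] [TopologicalSpace G]
    [IsTopologicalGroup G] [CompactSpace G] [TotallyDisconnectedSpace G] [T2Space G]
    {ι : Fin d → G} {ρ : G →* Equiv.Perm (List (Fin p))}

namespace SelfSim

theorem card_vec (n : ℕ) : Nat.card (List.Vector (Fin p) n) = p ^ n := by
  rw [Nat.card_eq_fintype_card, card_vector, Fintype.card_fin]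

/-- No section map at a vertex different from the root is onto. -/
theorem not_onto (hp : p.Prime) (hd : 2 ≤ d) (hF : FreeP p d G ι) (hS : SelfSim p G ρ)
    (v : List (Fin p)) (hv : v ≠ []) : ∃ h : G, ¬ ∃ g ∈ St ρ v, hS.sec v g = h := by
  by_contra hcon
  push Not at hcon
  have := Fact.mk hp
  choose ψ hψ hψs using hcon
  have hψu : ∀ g ∈ St ρ v, ψ (hS.sec v g) = g := fun g hg =>
    hS.sec_inj hp (by omega) hF v _ _ (hψ _) hg (hψs _)
  have hψm : ∀ g h, ψ (g * h) = ψ g * ψ h := by
    intro g h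
    refine hS.sec_inj hp (by omega) hF v _ _ (hψ _) (mul_mem (hψ g) (hψ h)) ?_
    rw [hψs, hS.sec_mul_of_mem v _ _ (hψ h), hψs, hψs]
  set n := v.length with hn
  have hn0 : 1 ≤ n := by
    rw [hn]
    exact List.length_pos_iff.2 hv
  obtain ⟨L, hL, hLi⟩ := exists_crL (p := p) hp hF (hS.lev n) (hS.isOpen_ker_lev n)
  set x0 : List.Vector (Fin p) n := ⟨v, rfl⟩ with hx0
  have hfix : ∀ g, g ∈ St ρ v ↔ hS.lev n g x0 = x0 :=
    fun g => ⟨fun h => Subtype.ext h, fun h => congrArg Subtype.val h⟩
  have htr : ∀ x, ∃ g, hS.lev n g x0 = x := by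
    intro x
    obtain ⟨g, hg⟩ := hS.transitive hp (by omega) hF n v x.1 rfl x.2
    exact ⟨g, Subtype.ext hg⟩
  obtain ⟨m, hm, g, hg, hg'⟩ := exists_nonzero hp (hS.lev n) x0 htr L hL hLi
    (fun i : Fin d =>
      { toFun := fun m => L m (ψ (ι i)) x0
        map_add' := fun m m' => by rw [map_add]; rfl
        map_smul' := fun c m => by rw [map_smul]; rfl }) (by
      rw [Fintype.card_fin, card_vec]
      have h2 : 2 ≤ p ^ n := by
        calc 2 ≤ p := hp.two_le
          _ ≤ p ^ n := Nat.le_self_pow (by omega) p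
      obtain ⟨a, rfl⟩ : ∃ a, d = a + 2 := ⟨d - 2, by omega⟩
      obtain ⟨b, hb⟩ : ∃ b, p ^ n = b + 2 := ⟨p ^ n - 2, by omega⟩
      rw [hb]
      nlinarith [Nat.zero_le (a * b)])
  have hm' : ∀ i, L m (ψ (ι i)) x0 = 0 := hm
  have hmul : ∀ a ∈ St ρ v, ∀ b ∈ St ρ v, L m (a * b) x0 = L m a x0 + L m b x0 := by
    intro a ha b hb
    have := (hL m).1 a b x0
    rwa [Equiv.Perm.inv_eq_iff_eq.2 ((hfix a).1 ha).symm] at this
  set f : G →* Multiplicative (ZMod p) := MonoidHom.mk'
    (fun g => Multiplicative.ofAdd (L m (ψ g) x0)) (by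
      intro a b
      rw [hψm, hmul _ (hψ a) _ (hψ b)]
      rfl) with hf
  have hfker : IsOpen (f.ker : Set G) := by
    have hlc : IsOpen {g : G | g ∈ St ρ v ∧ L m g x0 = 0} := by
      obtain ⟨N, hN, hN'⟩ := (hL m).2
      have h1 : IsOpen ({ carrier := {g : G | g ∈ St ρ v ∧ L m g x0 = 0}
                          mul_mem' := fun {a b} ha hb => ⟨mul_mem ha.1 hb.1, by
                            rw [hmul a ha.1 b hb.1, ha.2, hb.2, add_zero]⟩
                          one_mem' := ⟨one_mem _, by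
                            have := hmul 1 (one_mem _) 1 (one_mem _)
                            rw [mul_one] at this
                            exact (left_eq_add.1 this)⟩
                          inv_mem' := fun {a} ha => ⟨inv_mem ha.1, by
                            have h1 := hmul 1 (one_mem _) 1 (one_mem _)
                            rw [mul_one] at h1
                            have h0 := (left_eq_add.1 h1)
                            have := hmul a ha.1 a⁻¹ (inv_mem ha.1)
                            rw [mul_inv_cancel, h0, ha.2, zero_add] at this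
                            exact this.symm⟩ } : Subgroup G).carrier :=
        Subgroup.isOpen_mono (H₁ := N) (fun n hn =>
          ⟨(hfix n).2 (hN' n hn x0).2, (hN' n hn x0).1⟩) hN
      exact h1
    have hcl : IsClosed (hS.sec v '' ((St ρ v : Set G) ∩ {g : G | g ∈ St ρ v ∧ L m g x0 = 0}ᶜ)) := by
      have h1 : IsClosed ((St ρ v : Set G) ∩ {g : G | g ∈ St ρ v ∧ L m g x0 = 0}ᶜ) :=
        (Subgroup.isClosed_of_isOpen _ (hS.isOpen_St v)).inter hlc.isClosed_compl
      exact (h1.isCompact.image (hS.continuous_sec v)).isClosed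
    have : (f.ker : Set G) =
        (hS.sec v '' ((St ρ v : Set G) ∩ {g : G | g ∈ St ρ v ∧ L m g x0 = 0}ᶜ))ᶜ := by
      ext h
      have hker : h ∈ (f.ker : Set G) ↔ L m (ψ h) x0 = 0 := by
        rw [SetLike.mem_coe, MonoidHom.mem_ker]
        exact ⟨fun e => congrArg Multiplicative.toAdd e, fun e => congrArg Multiplicative.ofAdd e⟩
      rw [hker]
      constructor
      · rintro h1 ⟨g, ⟨hg1, hg2⟩, rfl⟩
        apply hg2
        refine ⟨hg1, ?_⟩
        rwa [hψu g hg1] at h1
      · intro h1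
        by_contra h2
        apply h1
        refine ⟨ψ h, ⟨hψ h, ?_⟩, hψs h⟩
        rintro ⟨-, h3⟩
        exact h2 h3
    rw [this]
    exact hcl.isOpen_compl
  have : NeZero p := ⟨hp.ne_zero⟩
  have : Finite (Multiplicative (ZMod p)) := inferInstanceAs (Finite (ZMod p))
  have hf1 : f = 1 := by
    refine hF.ext _ (isPGroup_zmod hp) f 1 hfker ?_ ?_
    · rw [MonoidHom.ker_one]
      exact isOpen_univ
    · intro i
      show Multiplicative.ofAdd (L m (ψ (ι i)) x0) = 1
      rw [hm' i]
      rfl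
  apply hg'
  have hgv : g ∈ St ρ v := (hfix g).2 hg
  have h1 := DFunLike.congr_fun hf1 (hS.sec v g)
  have h2 : L m (ψ (hS.sec v g)) x0 = 0 := congrArg Multiplicative.toAdd h1
  rwa [hψu g hgv] at h2

end SelfSim

end

end Pdb20
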