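import Mathlib
import Pool.Agent.Lib.Pdb20.Count

/-!
# The chain of stabilisers of a ray
-/

set_option autoImplicit false

namespace Pdb20

section

variable {p d : ℕ} {G : Type} [Group G] [TopologicalSpace G]
    [IsTopologicalGroup G] [CompactSpace G] [TotallyDisconnectedSpace G] [T2Space G]
    {ι : Fin d → G} {ρ : G →* Equiv.Perm (List (Fin p))}

/-- The stabilisers of the vertices of the constant ray. -/
def Pn (ρ : G →* Equiv.Perm (List (Fin p))) (x : Fin p) (n : ℕ) : Subgroup G :=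
  St ρ (List.replicate n x)

namespace SelfSim

variable (hS : SelfSim p G ρ) (x : Fin p)

include hS in
theorem mem_P_zero (g : G) : g ∈ Pn ρ x 0 := hS.nil g

/-- The section map at the letter `x`. -/
noncomputable def ph (g : G) : G := hS.sec [x] g

theorem mem_P_succ (n : ℕ) (g : G) : g ∈ Pn ρ x (n + 1) ↔ g ∈ Pn ρ x 1 ∧ hS.ph x g ∈ Pn ρ x n :=
  hS.mem_append [x] (List.replicate n x) g

include hS in
theorem P_succ_iff (n : ℕ) (g : G) : g ∈ Pn ρ x (n + 1) ↔
    ρ g (List.replicate n x ++ [x]) = List.replicate n x ++ [x] := by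
  rw [← List.replicate_succ']
  exact Iff.rfl

include hS in
theorem P_le (n : ℕ) : Pn ρ x (n + 1) ≤ Pn ρ x n := by
  intro g hg
  rw [hS.P_succ_iff] at hg
  exact ((hS.mem_append (List.replicate n x) [x] g).1 hg).1

include hS in
theorem P_anti {m n : ℕ} (h : m ≤ n) : Pn ρ x n ≤ Pn ρ x m := by
  induction n, h using Nat.le_induction with
  | base => exact le_rfl
  | succ n hn ih => exact (hS.P_le x n).trans ih

theorem ph_mem {n : ℕ} {g : G} (hg : g ∈ Pn ρ x (n + 1)) : hS.ph x g ∈ Pn ρ x n :=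
  ((hS.mem_P_succ x n g).1 hg).2

include hS in
theorem mem_P_one {n : ℕ} {g : G} (hg : g ∈ Pn ρ x (n + 1)) : g ∈ Pn ρ x 1 :=
  hS.P_anti x (by omega) hg

theorem ph_mul (g h : G) (hh : h ∈ Pn ρ x 1) : hS.ph x (g * h) = hS.ph x g * hS.ph x h :=
  hS.sec_mul_of_mem [x] g h hh

theorem ph_inv (g : G) (hg : g ∈ Pn ρ x 1) : hS.ph x g⁻¹ = (hS.ph x g)⁻¹ := by
  have h1 := hS.ph_mul x g⁻¹ g hg
  rw [inv_mul_cancel, ph, hS.sec_one] at h1
  exact (eq_inv_of_mul_eq_one_left h1.symm)

theorem ph_iter_mem (k : ℕ) : ∀ {n : ℕ} {g : G}, g ∈ Pn ρ x (n + k) →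
    (hS.ph x)^[k] g ∈ Pn ρ x n := by
  induction k with
  | zero => intro n g hg; exact hg
  | succ k ih =>
    intro n g hg
    rw [Function.iterate_succ_apply]
    exact ih (hS.ph_mem x hg)

/-- Homomorphisms `P_n → ZMod p`, as total functions. -/
def IsV (ρ : G →* Equiv.Perm (List (Fin p))) (x : Fin p) (n : ℕ) (f : G → ZMod p) : Prop :=
  ∀ g ∈ Pn ρ x n, ∀ h ∈ Pn ρ x n, f (g * h) = f g + f h

variable {x}

omit [TopologicalSpace G] [IsTopologicalGroup G] [CompactSpace G] [TotallyDisconnectedSpace G]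
  [T2Space G] in
theorem V_one {n : ℕ} {f : G → ZMod p} (hf : IsV ρ x n f) : f 1 = 0 := by
  have := hf 1 (one_mem _) 1 (one_mem _)
  rw [mul_one] at this
  exact (left_eq_add.1 this)

omit [TopologicalSpace G] [IsTopologicalGroup G] [CompactSpace G] [TotallyDisconnectedSpace G]
  [T2Space G] in
theorem V_inv {n : ℕ} {f : G → ZMod p} (hf : IsV ρ x n f) {g : G} (hg : g ∈ Pn ρ x n) :
    f g⁻¹ = - f g := by
  have := hf g hg g⁻¹ (inv_mem hg)
  rw [mul_inv_cancel, V_one hf] at this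
  exact (neg_eq_of_add_eq_zero_right this.symm).symm

omit [TopologicalSpace G] [IsTopologicalGroup G] [CompactSpace G] [TotallyDisconnectedSpace G]
  [T2Space G] in
theorem V_pow {n : ℕ} {f : G → ZMod p} (hf : IsV ρ x n f) {g : G} (hg : g ∈ Pn ρ x n) (k : ℕ) :
    f (g ^ k) = k * f g := by
  induction k with
  | zero => simp [V_one hf]
  | succ k ih =>
    rw [pow_succ, hf _ (pow_mem hg k) _ hg, ih]
    push_cast
    ring

include hS in
theorem V_mono {n m : ℕ} {f : G → ZMod p} (hf : IsV ρ x n f) (h : n ≤ m) : IsV ρ x m f :=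
  fun g hg k hk => hf g (hS.P_anti x h hg) k (hS.P_anti x h hk)

theorem V_T {n : ℕ} {f : G → ZMod p} (hf : IsV ρ x n f) :
    IsV ρ x (n + 1) (fun g => f (hS.ph x g)) := by
  intro g hg h hh
  show f (hS.ph x (g * h)) = _
  rw [hS.ph_mul x g h (hS.mem_P_one x hh), hf _ (hS.ph_mem x hg) _ (hS.ph_mem x hh)]

theorem V_iter (k : ℕ) : ∀ {n : ℕ} {f : G → ZMod p}, IsV ρ x n f →
    IsV ρ x (n + k) (fun g => f ((hS.ph x)^[k] g)) := by
  induction k with
  | zero => intro n f hf; exact hf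
  | succ k ih =>
    intro n f hf
    exact hS.V_T (ih hf)

omit [TopologicalSpace G] [IsTopologicalGroup G] [CompactSpace G] [TotallyDisconnectedSpace G]
  [T2Space G] in
theorem V_sub_smul {n : ℕ} {f g : G → ZMod p} (c : ZMod p) (hf : IsV ρ x n f)
    (hg : IsV ρ x n g) : IsV ρ x n (fun y => f y - c * g y) := by
  intro a ha b hb
  show f (a * b) - c * g (a * b) = _
  rw [hf a ha b hb, hg a ha b hb]
  ring

omit [TopologicalSpace G] [IsTopologicalGroup G] [CompactSpace G] [TotallyDisconnectedSpace G]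
  [T2Space G] in
theorem V_add_smul {n : ℕ} {f g : G → ZMod p} (c : ZMod p) (hf : IsV ρ x n f)
    (hg : IsV ρ x n g) : IsV ρ x n (fun y => f y + c * g y) := by
  intro a ha b hb
  show f (a * b) + c * g (a * b) = _
  rw [hf a ha b hb, hg a ha b hb]
  ring

variable (x)

include hS in
/-- The character with kernel `P_1`. -/
theorem exists_lam0 (hp : p.Prime) (hd : 1 ≤ d) (hF : FreeP p d G ι) :
    ∃ l : G → ZMod p, (∀ g h, l (g * h) = l g + l h) ∧ ∀ g, l g = 0 ↔ g ∈ Pn ρ x 1 := by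
  have := Fact.mk hp
  set R := (hS.lev 1).range with hR
  set y0 : List.Vector (Fin p) 1 := ⟨[x], rfl⟩ with hy0
  have hfix : ∀ g : G, g ∈ Pn ρ x 1 ↔ hS.lev 1 g = 1 := by
    intro g
    constructor
    · intro hg
      rw [← MonoidHom.mem_ker, hS.ker_lev_mem]
      intro v hv
      obtain ⟨y, rfl⟩ := List.length_eq_one_iff.1 hv
      exact hS.mem_St_letter hp hF x y g hg
    · intro hg
      exact congrArg Subtype.val (DFunLike.congr_fun hg y0)
  have hbij : Function.Bijective (fun r : R => r.1 y0) := by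
    constructor
    · rintro ⟨_, g, rfl⟩ ⟨_, h, rfl⟩ e
      have e' : hS.lev 1 g y0 = hS.lev 1 h y0 := e
      apply Subtype.ext
      show hS.lev 1 g = hS.lev 1 h
      have h1 : hS.lev 1 (h⁻¹ * g) = 1 := by
        rw [← hfix]
        have : hS.lev 1 (h⁻¹ * g) y0 = y0 := by
          rw [map_mul, Equiv.Perm.mul_apply, e', map_inv, Equiv.Perm.inv_eq_iff_eq]
        exact congrArg Subtype.val this
      rw [map_mul, map_inv, inv_mul_eq_one] at h1
      exact h1.symm
    · intro z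
      obtain ⟨g, hg⟩ := hS.transitive hp hd hF 1 [x] z.1 rfl z.2
      exact ⟨⟨hS.lev 1 g, g, rfl⟩, Subtype.ext hg⟩
  have hcard : Nat.card R = p := by
    rw [Nat.card_congr (Equiv.ofBijective _ hbij), card_vec, pow_one]
  have hcard2 : Nat.card (Multiplicative (ZMod p)) = p := by
    rw [Nat.card_congr Multiplicative.toAdd, Nat.card_zmod]
  set e : R ≃* Multiplicative (ZMod p) := mulEquivOfPrimeCardEq hcard hcard2
  refine ⟨fun g => Multiplicative.toAdd (e ⟨hS.lev 1 g, g, rfl⟩), ?_, ?_⟩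
  · intro g h
    show Multiplicative.toAdd (e ⟨hS.lev 1 (g * h), g * h, rfl⟩) = _
    rw [← toAdd_mul, ← map_mul]
    congr 2
    exact Subtype.ext (map_mul (hS.lev 1) g h)
  · intro g
    rw [hfix]
    constructor
    · intro h
      have h1 : e ⟨hS.lev 1 g, g, rfl⟩ = 1 := Multiplicative.toAdd.injective h
      have h2 : (⟨hS.lev 1 g, g, rfl⟩ : R) = 1 := e.injective (h1.trans (map_one e).symm)
      exact congrArg Subtype.val h2
    · intro h
      show Multiplicative.toAdd (e ⟨hS.lev 1 g, g, rfl⟩) = 0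
      have h2 : (⟨hS.lev 1 g, g, rfl⟩ : R) = 1 := Subtype.ext h
      rw [h2, map_one]
      rfl

end SelfSim

end

end Pdb20
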