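import Mathlib
import Pool.Agent.Lib.Pdb20.RayA

/-!
# Life and age of homomorphisms on the stabilisers
-/

set_option autoImplicit false

namespace Pdb20

section

variable {p d : ℕ} {G : Type} [Group G] [TopologicalSpace G]
    [IsTopologicalGroup G] [CompactSpace G] [TotallyDisconnectedSpace G] [T2Space G]
    {ι : Fin d → G} {ρ : G →* Equiv.Perm (List (Fin p))}

namespace SelfSim

/-- The characters `λ_n` with `ker (λ_n | P_n) = P_(n+1)`. -/
noncomputable def lam (hS : SelfSim p G ρ) (x : Fin p) (l : G → ZMod p) : ℕ → G → ZMod p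
  | 0, g => l g
  | n + 1, g => lam hS x l n (hS.ph x g)

theorem lam_iter (hS : SelfSim p G ρ) (x : Fin p) (l : G → ZMod p) (n k : ℕ) :
    ∀ g, hS.lam x l (n + k) g = hS.lam x l n ((hS.ph x)^[k] g) := by
  induction k with
  | zero => intro g; rfl
  | succ k ih =>
    intro g
    rw [Function.iterate_succ_apply, ← ih]
    rfl

/-- The standing data for a ray. -/
structure Dt (hS : SelfSim p G ρ) (x : Fin p) (l : G → ZMod p) : Prop where
  pr : p.Prime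
  add : ∀ g h, l (g * h) = l g + l h
  ker : ∀ g, l g = 0 ↔ g ∈ Pn ρ x 1
  tr : ∀ n, ∀ v w : List (Fin p), v.length = n → w.length = n → ∃ g, ρ g v = w

variable {hS : SelfSim p G ρ} {x : Fin p} {l : G → ZMod p}

theorem Dt.V_lam (D : Dt hS x l) (n : ℕ) : IsV ρ x n (hS.lam x l n) := by
  induction n with
  | zero => intro g _ h _; exact D.add g h
  | succ n ih => exact hS.V_T ih

theorem Dt.lam_zero (D : Dt hS x l) (n : ℕ) : ∀ g ∈ Pn ρ x n,
    (hS.lam x l n g = 0 ↔ g ∈ Pn ρ x (n + 1)) := by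
  induction n with
  | zero => intro g _; exact D.ker g
  | succ n ih =>
    intro g hg
    show hS.lam x l n (hS.ph x g) = 0 ↔ _
    rw [ih _ (hS.ph_mem x hg), hS.mem_P_succ x (n + 1)]
    exact ⟨fun h => ⟨hS.mem_P_one x hg, h⟩, fun h => h.2⟩

/-- Elements of `P_n` moving the next letter of the ray to `y`. -/
theorem Dt.exists_u (D : Dt hS x l) (n : ℕ) (y : Fin p) : ∃ u ∈ Pn ρ x n,
    ρ u (List.replicate n x ++ [x]) = List.replicate n x ++ [y] := by
  obtain ⟨u, hu⟩ := D.tr (n + 1) (List.replicate n x ++ [x]) (List.replicate n x ++ [y])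
    (by simp) (by simp)
  refine ⟨u, ?_, hu⟩
  have h1 := hu
  rw [hS.sec_spec] at h1
  exact (List.append_inj h1 (hS.length _ u)).1

theorem Dt.exists_w (D : Dt hS x l) (n : ℕ) : ∃ w ∈ Pn ρ x n, w ∉ Pn ρ x (n + 1) := by
  have : ∃ y : Fin p, y ≠ x := by
    have := Fact.mk D.pr
    have : Nontrivial (Fin p) := Fin.nontrivial_iff_two_le.2 D.pr.two_le
    exact exists_ne x
  obtain ⟨y, hy⟩ := this
  obtain ⟨u, hu, hu'⟩ := D.exists_u n y
  refine ⟨u, hu, ?_⟩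
  intro h
  rw [hS.P_succ_iff, hu'] at h
  have := List.append_cancel_left h
  exact hy (List.singleton_inj.1 this)

/-- A homomorphism on `P_n` vanishing on `P_(n+1)` is a multiple of `λ_n`. -/
theorem Dt.ker_r (D : Dt hS x l) (n : ℕ) {f : G → ZMod p} (hf : IsV ρ x n f)
    (h0 : ∀ g ∈ Pn ρ x (n + 1), f g = 0) :
    ∃ c : ZMod p, ∀ g ∈ Pn ρ x n, f g = c * hS.lam x l n g := by
  have := Fact.mk D.pr
  have : NeZero p := ⟨D.pr.ne_zero⟩
  obtain ⟨w, hw, hw'⟩ := D.exists_w n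
  have hlw : hS.lam x l n w ≠ 0 := fun h => hw' ((D.lam_zero n w hw).1 h)
  refine ⟨f w / hS.lam x l n w, ?_⟩
  intro g hg
  set t : ZMod p := hS.lam x l n g / hS.lam x l n w with ht
  have hV := D.V_lam n
  have hk : ((t.val : ℕ) : ZMod p) = t := by rw [ZMod.natCast_val, ZMod.cast_id]
  have hmem : g * (w ^ t.val)⁻¹ ∈ Pn ρ x n := mul_mem hg (inv_mem (pow_mem hw _))
  have h1 : hS.lam x l n (g * (w ^ t.val)⁻¹) = 0 := by
    rw [hV _ hg _ (inv_mem (pow_mem hw _)), V_inv hV (pow_mem hw _), V_pow hV hw, hk, ht]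
    field_simp
    ring
  have h2 := h0 _ ((D.lam_zero n _ hmem).1 h1)
  rw [hf _ hg _ (inv_mem (pow_mem hw _)), V_inv hf (pow_mem hw _), V_pow hf hw, hk] at h2
  have h3 : f g = t * f w := by linear_combination h2
  rw [h3, ht]
  ring

/-- The last moment of a homomorphism that dies later. -/
theorem Dt.last (D : Dt hS x l) (n : ℕ) {f : G → ZMod p} (hf : IsV ρ x n f)
    (hne : ∃ g ∈ Pn ρ x n, f g ≠ 0) (hd : ∃ m, ∀ g ∈ Pn ρ x m, f g = 0) :
    ∃ m c, n ≤ m ∧ c ≠ 0 ∧ (∀ g ∈ Pn ρ x (m + 1), f g = 0) ∧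
      ∀ g ∈ Pn ρ x m, f g = c * hS.lam x l m g := by
  classical
  set M := Nat.find hd with hM
  have h1 := Nat.find_spec hd
  rw [← hM] at h1
  have h2 : n < M := by
    by_contra hlt
    push Not at hlt
    obtain ⟨g, hg, hg'⟩ := hne
    exact hg' (h1 g (hS.P_anti x hlt hg))
  obtain ⟨m, hm⟩ : ∃ m, M = m + 1 := ⟨M - 1, by omega⟩
  rw [hm] at h1
  obtain ⟨c, hc⟩ := D.ker_r m (hS.V_mono hf (by omega)) h1
  refine ⟨m, c, by omega, ?_, h1, hc⟩
  rintro rfl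
  have h3 : ∀ g ∈ Pn ρ x m, f g = 0 := fun g hg => by rw [hc g hg, zero_mul]
  have := Nat.find_min' hd h3
  omega

/-- `T` is injective on homomorphisms that die later. -/
theorem Dt.T_inj (D : Dt hS x l) (n : ℕ) {f : G → ZMod p} (hf : IsV ρ x n f)
    (hd : ∃ m, ∀ g ∈ Pn ρ x m, f g = 0) (h0 : ∀ g ∈ Pn ρ x (n + 1), f (hS.ph x g) = 0) :
    ∀ g ∈ Pn ρ x n, f g = 0 := by
  by_contra hne
  push Not at hne
  obtain ⟨m, c, hnm, hc, -, h1⟩ := D.last n hf hne hd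
  obtain ⟨w, hw, hw'⟩ := D.exists_w (m + 1)
  have h2 : hS.lam x l (m + 1) w ≠ 0 := fun h => hw' ((D.lam_zero _ w hw).1 h)
  have h3 := h1 _ (hS.ph_mem x hw)
  rw [h0 w (hS.P_anti x (by omega) hw)] at h3
  have := Fact.mk D.pr
  exact (mul_ne_zero hc h2) h3.symm

theorem Dt.T_inj_iter (D : Dt hS x l) (k : ℕ) : ∀ (n : ℕ) {f : G → ZMod p}, IsV ρ x n f →
    (∃ m, ∀ g ∈ Pn ρ x m, f g = 0) → (∀ g ∈ Pn ρ x (n + k), f ((hS.ph x)^[k] g) = 0) →
    ∀ g ∈ Pn ρ x n, f g = 0 := by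
  induction k with
  | zero => intro n f _ _ h0; exact h0
  | succ k ih =>
    intro n f hf hd h0
    refine ih n hf hd ?_
    refine D.T_inj (n + k) (hS.V_iter k hf) ?_ ?_
    · obtain ⟨m, hm⟩ := hd
      exact ⟨m + k, fun g hg => hm _ (hS.ph_iter_mem x k hg)⟩
    · intro g hg
      exact h0 g hg

/-- Step A: if all but boundedly many classes die, the age of `λ_s` is unbounded. -/
def Aged (hS : SelfSim p G ρ) (x : Fin p) (l : G → ZMod p) : Prop :=
  ∀ L : ℕ, ∃ j₀, ∀ j, j₀ ≤ j → ∃ h : G → ZMod p, IsV ρ x j h ∧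
    ∀ g ∈ Pn ρ x (j + L + 1), hS.lam x l (j + L + 1) g = h g

theorem Dt.aged (D : Dt hS x l)
    (H : ∀ L : ℕ, ∃ (n : ℕ) (f : G → ZMod p), IsV ρ x n f ∧ (∃ m, ∀ g ∈ Pn ρ x m, f g = 0) ∧
      ∃ g ∈ Pn ρ x (n + L + 1), f g ≠ 0) : Aged hS x l := by
  have := Fact.mk D.pr
  intro L
  obtain ⟨n, f, hf, hd, hne⟩ := H L
  have hf' := hS.V_mono hf (show n ≤ n + L + 1 by omega)
  obtain ⟨m, c, hnm, hc, -, h1⟩ := D.last (n + L + 1) hf' hne hd
  refine ⟨m - L - 1, ?_⟩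
  intro j hj
  obtain ⟨k, hk⟩ : ∃ k, j + L + 1 = m + k := ⟨j + L + 1 - m, by omega⟩
  have hjk : j = (m - L - 1) + k := by omega
  refine ⟨fun g => c⁻¹ * f ((hS.ph x)^[k] g), ?_, ?_⟩
  · have h2 : IsV ρ x (m - L - 1 + k) (fun g => f ((hS.ph x)^[k] g)) :=
      hS.V_iter k (hS.V_mono hf (by omega))
    rw [← hjk] at h2
    intro a ha b hb
    show c⁻¹ * f ((hS.ph x)^[k] (a * b)) = _
    have := h2 a ha b hb
    simp only at this
    rw [this]
    ring
  · intro g hg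
    rw [hk] at hg ⊢
    rw [hS.lam_iter]
    show _ = c⁻¹ * f ((hS.ph x)^[k] g)
    rw [h1 _ (hS.ph_iter_mem x k hg), inv_mul_cancel_left₀ hc]

/-- Step B: a homomorphism that dies is eventually a restriction, after applying `T`. -/
theorem Dt.young (D : Dt hS x l) (hA : Aged hS x l) (ℓ : ℕ) : ∀ (n : ℕ) (f : G → ZMod p),
    IsV ρ x n f → (∀ g ∈ Pn ρ x (n + ℓ), f g = 0) →
    ∃ (I : ℕ) (h : G → ZMod p), IsV ρ x (n + I) h ∧
      ∀ g ∈ Pn ρ x (n + I + 1), f ((hS.ph x)^[I + 1] g) = h g := by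
  induction ℓ with
  | zero =>
    intro n f hf h0
    refine ⟨0, fun _ => 0, fun _ _ _ _ => by simp, ?_⟩
    intro g hg
    exact h0 _ (hS.ph_mem x hg)
  | succ ℓ ih =>
    intro n f hf h0
    obtain ⟨c, hc⟩ := D.ker_r (n + ℓ) (hS.V_mono hf (by omega)) h0
    obtain ⟨j₀, hj₀⟩ := hA ℓ
    obtain ⟨h, hh, hh'⟩ := hj₀ (n + j₀) (by omega)
    set f' : G → ZMod p := fun g => f ((hS.ph x)^[j₀ + 1] g) - c * h g with hf'
    have hV' : IsV ρ x (n + (j₀ + 1)) f' :=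
      V_sub_smul c (hS.V_iter (j₀ + 1) hf) (hS.V_mono hh (by omega))
    obtain ⟨I', h', hh1, hh2⟩ := ih (n + (j₀ + 1)) f' hV' (by
      intro g hg
      have e : n + (j₀ + 1) + ℓ = n + ℓ + (j₀ + 1) := by ring
      have hg' : g ∈ Pn ρ x (n + ℓ + (j₀ + 1)) := e ▸ hg
      have h1 := hc _ (hS.ph_iter_mem x (j₀ + 1) hg')
      rw [← hS.lam_iter] at h1
      have e2 : n + ℓ + (j₀ + 1) = n + j₀ + ℓ + 1 := by ring
      rw [e2] at h1 hg'
      rw [hh' g hg'] at h1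
      show f ((hS.ph x)^[j₀ + 1] g) - c * h g = 0
      rw [h1, sub_self])
    refine ⟨j₀ + 1 + I', fun g => h' g + c * h ((hS.ph x)^[I' + 1] g), ?_, ?_⟩
    · have e : n + (j₀ + 1) + I' = n + (j₀ + 1 + I') := by ring
      rw [e] at hh1
      refine V_add_smul c hh1 ?_
      have h3 := hS.V_iter (I' + 1) hh
      have e3 : n + j₀ + (I' + 1) = n + (j₀ + 1 + I') := by ring
      rw [e3] at h3
      exact h3
    · intro g hg
      have e : n + (j₀ + 1 + I') + 1 = n + (j₀ + 1) + I' + 1 := by ring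
      rw [e] at hg
      have h4 := hh2 g hg
      have e4 : j₀ + 1 + I' + 1 = (j₀ + 1) + (I' + 1) := by ring
      rw [e4, Function.iterate_add_apply]
      show f ((hS.ph x)^[j₀ + 1] ((hS.ph x)^[I' + 1] g)) = h' g + c * h ((hS.ph x)^[I' + 1] g)
      rw [← h4]
      show _ = f ((hS.ph x)^[j₀ + 1] ((hS.ph x)^[I' + 1] g)) - c * h ((hS.ph x)^[I' + 1] g) + _
      ring

end SelfSim

end

end Pdb20
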