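import Mathlib
import Pool.Agent.Lib.Pdb20.RayB

/-!
# The norm, lifting of homomorphisms, and the final argument for a constant ray
-/

set_option autoImplicit false

namespace Pdb20

section

variable {p d : ℕ} {G : Type} [Group G] [TopologicalSpace G]
    [IsTopologicalGroup G] [CompactSpace G] [TotallyDisconnectedSpace G] [T2Space G]
    {ι : Fin d → G} {ρ : G →* Equiv.Perm (List (Fin p))}

namespace SelfSim

variable {hS : SelfSim p G ρ} {x : Fin p} {l : G → ZMod p}

theorem Dt.conj_mem (D : Dt hS x l) (n : ℕ) {u w : G} (hu : u ∈ Pn ρ x n)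
    (hw : w ∈ Pn ρ x (n + 1)) : u⁻¹ * w * u ∈ Pn ρ x (n + 1) := by
  have hw' := hS.P_le x n hw
  have hV := D.V_lam n
  rw [← D.lam_zero n _ (mul_mem (mul_mem (inv_mem hu) hw') hu),
    hV _ (mul_mem (inv_mem hu) hw') _ hu, hV _ (inv_mem hu) _ hw', V_inv hV hu,
    (D.lam_zero n w hw').2 hw]
  ring

theorem Dt.rep_indep (D : Dt hS x l) (n : ℕ) {f : G → ZMod p} (hf : IsV ρ x (n + 1) f)
    {u u' : G} (hu : u ∈ Pn ρ x n) (_hu' : u' ∈ Pn ρ x n)
    (he : ρ u (List.replicate n x ++ [x]) = ρ u' (List.replicate n x ++ [x]))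
    {w : G} (hw : w ∈ Pn ρ x (n + 1)) : f (u⁻¹ * w * u) = f (u'⁻¹ * w * u') := by
  have hk : u⁻¹ * u' ∈ Pn ρ x (n + 1) := by
    rw [hS.P_succ_iff, map_mul, Equiv.Perm.mul_apply, ← he, map_inv]
    exact (ρ u).symm_apply_apply _
  have e : u'⁻¹ * w * u' = (u⁻¹ * u')⁻¹ * (u⁻¹ * w * u) * (u⁻¹ * u') := by group
  have hc := D.conj_mem n hu hw
  rw [e, hf _ (mul_mem (inv_mem hk) hc) _ hk, hf _ (inv_mem hk) _ hc, V_inv hf hk]
  ring

/-- The norm over `P_n / P_(n+1)`. -/
noncomputable def Nm (u : ℕ → Fin p → G) (n : ℕ) (f : G → ZMod p) (w : G) : ZMod p :=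
  ∑ y : Fin p, f ((u n y)⁻¹ * w * u n y)

/-- Representatives. -/
structure Rep (ρ : G →* Equiv.Perm (List (Fin p))) (x : Fin p) (u : ℕ → Fin p → G) : Prop where
  mem : ∀ n y, u n y ∈ Pn ρ x n
  eq : ∀ n y, ρ (u n y) (List.replicate n x ++ [x]) = List.replicate n x ++ [y]

omit [TopologicalSpace G] [IsTopologicalGroup G] [CompactSpace G] [TotallyDisconnectedSpace G]
  [T2Space G] in
theorem N_r {u : ℕ → Fin p → G} (hu : Rep ρ x u) (n : ℕ) {f : G → ZMod p} (hf : IsV ρ x n f)
    {w : G} (hw : w ∈ Pn ρ x n) : Nm u n f w = 0 := by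
  have h1 : ∀ y : Fin p, f ((u n y)⁻¹ * w * u n y) = f w := by
    intro y
    rw [hf _ (mul_mem (inv_mem (hu.mem n y)) hw) _ (hu.mem n y), hf _ (inv_mem (hu.mem n y)) _ hw,
      V_inv hf (hu.mem n y)]
    ring
  rw [Nm, Finset.sum_congr rfl (fun y _ => h1 y), Finset.sum_const, Finset.card_univ,
    Fintype.card_fin, nsmul_eq_mul, ZMod.natCast_self, zero_mul]

theorem Dt.N_T (D : Dt hS x l) {u : ℕ → Fin p → G} (hu : Rep ρ x u) (n : ℕ) {f : G → ZMod p}
    (hf : IsV ρ x (n + 1) f) {w : G} (hw : w ∈ Pn ρ x (n + 2)) :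
    Nm u (n + 1) (fun g => f (hS.ph x g)) w = Nm u n f (hS.ph x w) := by
  refine Finset.sum_congr rfl fun y _ => ?_
  have hu1 := hu.mem (n + 1) y
  have h1 : hS.ph x ((u (n + 1) y)⁻¹ * w * u (n + 1) y) =
      (hS.ph x (u (n + 1) y))⁻¹ * hS.ph x w * hS.ph x (u (n + 1) y) := by
    rw [hS.ph_mul x _ _ (hS.mem_P_one x hu1), hS.ph_mul x _ _ (hS.mem_P_one x hw),
      hS.ph_inv x _ (hS.mem_P_one x hu1)]
  show f (hS.ph x ((u (n + 1) y)⁻¹ * w * u (n + 1) y)) = _
  rw [h1]
  refine D.rep_indep n hf (hS.ph_mem x hu1) (hu.mem n y) ?_ (hS.ph_mem x hw)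
  rw [hu.eq]
  have h2 := hu.eq (n + 1) y
  have h3 : List.replicate (n + 1) x ++ [x] = [x] ++ (List.replicate n x ++ [x]) := rfl
  have h4 : ρ (u (n + 1) y) [x] = [x] := hS.mem_P_one x hu1
  rw [h3, hS.sec_spec, h4] at h2
  exact List.append_cancel_left (as := [x]) h2

theorem Dt.N_T_iter (D : Dt hS x l) {u : ℕ → Fin p → G} (hu : Rep ρ x u) (n : ℕ)
    {f : G → ZMod p} (hf : IsV ρ x (n + 1) f) (k : ℕ) : ∀ {w : G}, w ∈ Pn ρ x (n + 1 + k) →
    Nm u (n + k) (fun g => f ((hS.ph x)^[k] g)) w = Nm u n f ((hS.ph x)^[k] w) := by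
  induction k with
  | zero => intro w _; rfl
  | succ k ih =>
    intro w hw
    have hV := hS.V_iter k hf
    have e : n + 1 + k = n + k + 1 := by ring
    rw [e] at hV
    have hw' : w ∈ Pn ρ x (n + k + 2) := by
      have e2 : n + 1 + (k + 1) = n + k + 2 := by ring
      rwa [e2] at hw
    have h1 := D.N_T hu (n + k) hV hw'
    have h2 := ih (w := hS.ph x w) (by
      have := hS.ph_mem x hw'
      rwa [show n + k + 1 = n + 1 + k from by ring] at this)
    rw [h2] at h1
    exact h1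

omit [CompactSpace G] [TotallyDisconnectedSpace G] [T2Space G] in
theorem crA_open {X : Type} {σ : G →* Equiv.Perm X} {B : G → X → ZMod p} (hB : IsCrA p σ B)
    (z : X) (S : Set (ZMod p)) : IsOpen {g : G | B g z ∈ S} := by
  obtain ⟨N, hN, hN'⟩ := hB.2
  rw [isOpen_iff_mem_nhds]
  intro g hg
  have h1 : IsOpen ((fun y => g⁻¹ * y) ⁻¹' (N : Set G)) := hN.preimage (continuous_const_mul g⁻¹)
  refine Filter.mem_of_superset (h1.mem_nhds ?_) ?_
  · show g⁻¹ * g ∈ N
    rw [inv_mul_cancel]; exact one_mem N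
  · intro y hy
    have hy' : g⁻¹ * y ∈ N := hy
    have h2 := hB.1 g (g⁻¹ * y) z
    rw [mul_inv_cancel_left, (hN' _ hy' _).1, add_zero] at h2
    show B y z ∈ S
    rw [h2]
    exact hg

/-- Conjugation formula for crossed homomorphisms. -/
theorem crA_conj {X : Type} {σ : G →* Equiv.Perm X} {B : G → X → ZMod p} (hB : IsCrA p σ B)
    (u w : G) (z : X) (hw : σ w (σ u z) = σ u z) : B (u⁻¹ * w * u) z = B w (σ u z) := by
  have h1 := hB.1 u⁻¹ (w * u) z
  have h2 := hB.1 w u (σ u z)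
  have h3 := hB.1 u⁻¹ u z
  have h4 := hB.1 1 1 z
  rw [mul_one, map_one] at h4
  have h5 : B 1 z = 0 := left_eq_add.1 h4
  have e1 : (σ u⁻¹)⁻¹ z = σ u z := by rw [map_inv, inv_inv]
  have e2 : (σ w)⁻¹ (σ u z) = σ u z := by rw [Equiv.Perm.inv_eq_iff_eq, hw]
  rw [e1] at h1 h3
  rw [e2] at h2
  rw [inv_mul_cancel, h5] at h3
  rw [mul_assoc, h1, h2]
  linear_combination -h3

/-- Adding a letter at the end. -/
def snoc {n : ℕ} (v : List.Vector (Fin p) n) (y : Fin p) : List.Vector (Fin p) (n + 1) :=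
  ⟨v.1 ++ [y], by rw [List.length_append, v.2]; rfl⟩

/-- Extension of initial values to the next level: the value sits at the child `x`. -/
def til (d : ℕ) (x : Fin p) (n : ℕ) : (Fin d → List.Vector (Fin p) n → ZMod p) →ₗ[ZMod p]
    (Fin d → List.Vector (Fin p) (n + 1) → ZMod p) where
  toFun m := fun i w => if w.1.getLast? = some x then
    m i ⟨w.1.dropLast, by rw [List.length_dropLast, w.2]; rfl⟩ else 0
  map_add' m m' := by
    funext i w
    simp only [Pi.add_apply]
    split_ifs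
    · rfl
    · ring
  map_smul' c m := by
    funext i w
    simp only [Pi.smul_apply, smul_eq_mul, RingHom.id_apply]
    split_ifs
    · rfl
    · ring

theorem til_snoc (d : ℕ) (x : Fin p) (n : ℕ) (m : Fin d → List.Vector (Fin p) n → ZMod p)
    (i : Fin d) (v : List.Vector (Fin p) n) (y : Fin p) :
    til d x n m i (snoc v y) = if y = x then m i v else 0 := by
  show (if (v.1 ++ [y]).getLast? = some x then m i ⟨(v.1 ++ [y]).dropLast, _⟩ else 0) = _
  have h1 : (v.1 ++ [y]).getLast? = some y := by simp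
  have h2 : (v.1 ++ [y]).dropLast = v.1 := by simp
  have h3 : (⟨(v.1 ++ [y]).dropLast, by
    rw [List.length_dropLast, List.length_append, v.2]; rfl⟩ : List.Vector (Fin p) n) = v :=
    Subtype.ext h2
  rw [h3, h1]
  simp only [Option.some.injEq]

/-- The action on the letters below `v`. -/
theorem exists_letter (hS : SelfSim p G ρ) : ∃ a : G → Fin p → Fin p,
    (∀ g, Function.Bijective (a g)) ∧ ∀ g y, ρ g [y] = [a g y] := by
  have h1 : ∀ (g : G) (y : Fin p), ∃ z, ρ g [y] = [z] := fun g y =>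
    List.length_eq_one_iff.1 (by rw [hS.length]; rfl)
  choose a ha using h1
  refine ⟨a, fun g => ?_, ha⟩
  rw [← Finite.injective_iff_bijective]
  intro y y' h
  have : ρ g [y] = ρ g [y'] := by rw [ha, ha, h]
  exact List.singleton_inj.1 ((ρ g).injective this)

/-- The fibre sum of a crossed homomorphism of level `n + 1` is one of level `n`. -/
theorem fibre (hS : SelfSim p G ρ) (n : ℕ) {B : G → List.Vector (Fin p) (n + 1) → ZMod p}
    (hB : IsCrA p (hS.lev (n + 1)) B) :
    IsCrA p (hS.lev n) (fun g v => ∑ y : Fin p, B g (snoc v y)) := by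
  obtain ⟨a, hab, ha⟩ := exists_letter hS
  refine ⟨?_, ?_⟩
  · intro g h v
    show ∑ y, B (g * h) (snoc v y) = _
    have h1 : ∀ y, B (g * h) (snoc v y) = B g (snoc v y) +
        B h (snoc ((hS.lev n g)⁻¹ v) (a (hS.sec v.1 g⁻¹) y)) := by
      intro y
      rw [hB.1]
      congr 2
      rw [← map_inv, ← map_inv]
      apply Subtype.ext
      show ρ g⁻¹ (v.1 ++ [y]) = ρ g⁻¹ v.1 ++ [a (hS.sec v.1 g⁻¹) y]
      rw [hS.sec_spec, ha]
    rw [Finset.sum_congr rfl (fun y _ => h1 y), Finset.sum_add_distrib]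
    congr 1
    exact (hab (hS.sec v.1 g⁻¹)).sum_comp (fun y => B h (snoc ((hS.lev n g)⁻¹ v) y))
  · obtain ⟨N, hN, hN'⟩ := hB.2
    refine ⟨N ⊓ (hS.lev n).ker, ?_, ?_⟩
    · rw [Subgroup.coe_inf]
      exact hN.inter (hS.isOpen_ker_lev n)
    · intro g hg v
      refine ⟨?_, ?_⟩
      · show ∑ y, B g (snoc v y) = 0
        exact Finset.sum_eq_zero fun y _ => (hN' g hg.1 _).1
      · have : hS.lev n g = 1 := hg.2
        rw [this]; rfl

/-- The vertex of level `n` on the constant ray. -/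
def xv (x : Fin p) (n : ℕ) : List.Vector (Fin p) n := ⟨List.replicate n x, List.length_replicate⟩

theorem mem_P_iff (hS : SelfSim p G ρ) (x : Fin p) (n : ℕ) (g : G) :
    g ∈ Pn ρ x n ↔ hS.lev n g (xv x n) = xv x n :=
  ⟨fun h => Subtype.ext h, fun h => congrArg Subtype.val h⟩

theorem crA_V (hS : SelfSim p G ρ) (x : Fin p) (n : ℕ) {B : G → List.Vector (Fin p) n → ZMod p}
    (hB : IsCrA p (hS.lev n) B) : IsV ρ x n (fun g => B g (xv x n)) := by
  intro g hg h _
  show B (g * h) (xv x n) = _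
  rw [hB.1, Equiv.Perm.inv_eq_iff_eq.2 ((mem_P_iff hS x n g).1 hg).symm]

/-- Every homomorphism coming from level `n` is a norm. -/
theorem Dt.lift (D : Dt hS x l) (hF : FreeP p d G ι) {u : ℕ → Fin p → G} (hu : Rep ρ x u) (n : ℕ)
    (L : (Fin d → List.Vector (Fin p) n → ZMod p) →ₗ[ZMod p]
      (G → List.Vector (Fin p) n → ZMod p))
    (hL : ∀ m, IsCrA p (hS.lev n) (L m)) (hLi : ∀ m i, L m (ι i) = m i) :
    ∃ Lt : (Fin d → List.Vector (Fin p) n → ZMod p) →ₗ[ZMod p] (G → ZMod p),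
      (∀ m, IsV ρ x (n + 1) (Lt m)) ∧ (∀ (m : Fin d → List.Vector (Fin p) n → ZMod p) (S : Set (ZMod p)),
        IsOpen {g : G | Lt m g ∈ S}) ∧
      ∀ m, ∀ w ∈ Pn ρ x (n + 1), Nm u n (Lt m) w = L m w (xv x n) := by
  obtain ⟨L', hL', hLi'⟩ := exists_crL (p := p) D.pr hF (hS.lev (n + 1))
    (hS.isOpen_ker_lev (n + 1))
  refine ⟨{ toFun := fun m g => L' (til d x n m) g (xv x (n + 1))
            map_add' := fun m m' => by rw [map_add, map_add]; rfl
            map_smul' := fun c m => by rw [map_smul, map_smul]; rfl }, ?_, ?_, ?_⟩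
  · intro m
    exact crA_V hS x (n + 1) (hL' (til d x n m))
  · intro m S
    exact crA_open (hL' (til d x n m)) (xv x (n + 1)) S
  · intro m w hw
    show ∑ y : Fin p, L' (til d x n m) ((u n y)⁻¹ * w * u n y) (xv x (n + 1)) = _
    have hxs : xv x (n + 1) = snoc (xv x n) x := Subtype.ext (List.replicate_succ' ..)
    have hux : ∀ y, hS.lev (n + 1) (u n y) (xv x (n + 1)) = snoc (xv x n) y := by
      intro y
      rw [hxs]
      exact Subtype.ext (hu.eq n y)
    have h1 : ∀ y : Fin p, L' (til d x n m) ((u n y)⁻¹ * w * u n y) (xv x (n + 1)) =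
        L' (til d x n m) w (snoc (xv x n) y) := by
      intro y
      rw [crA_conj (hL' (til d x n m)) (u n y) w (xv x (n + 1)), hux]
      have h2 := (mem_P_iff hS x (n + 1) _).1 (D.conj_mem n (hu.mem n y) hw)
      rw [map_mul, map_mul, Equiv.Perm.mul_apply, Equiv.Perm.mul_apply, map_inv,
        Equiv.Perm.inv_eq_iff_eq] at h2
      exact h2
    rw [Finset.sum_congr rfl (fun y _ => h1 y)]
    have h3 : (fun g v => ∑ y : Fin p, L' (til d x n m) g (snoc v y)) = L m := by
      refine crA_ext D.pr hF (hS.lev n) _ _ (fibre hS n (hL' _)) (hL m) ?_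
      intro i
      funext v
      show ∑ y : Fin p, L' (til d x n m) (ι i) (snoc v y) = L m (ι i) v
      rw [hLi', hLi]
      simp only [til_snoc]
      rw [Finset.sum_ite_eq' Finset.univ x (fun _ => m i v)]
      simp
    exact congrFun (congrFun h3 w) (xv x n)

/-- Compactness: a homomorphism vanishing on topological generators of the ray stabiliser dies. -/
theorem Dt.dies (_D : Dt hS x l) (n : ℕ) {f : G → ZMod p} (hf : IsV ρ x n f)
    (ho : ∀ S : Set (ZMod p), IsOpen {g : G | f g ∈ S}) (s : Finset G)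
    (hs : ∀ g ∈ s, g ∈ Pn ρ x n)
    (hgen : ∀ C : Subgroup G, IsClosed (C : Set G) → (∀ g ∈ s, g ∈ C) →
      ∀ g, (∀ k, g ∈ Pn ρ x k) → g ∈ C)
    (h0 : ∀ g ∈ s, f g = 0) : ∃ m, ∀ g ∈ Pn ρ x m, f g = 0 := by
  have hPc : ∀ k, IsClosed (Pn ρ x k : Set G) := fun k =>
    Subgroup.isClosed_of_isOpen _ (hS.isOpen_St _)
  have hc0 : IsClosed {g : G | f g = 0} := by
    rw [← isOpen_compl_iff]
    exact ho {0}ᶜ
  have hc1 : IsClosed {g : G | f g ≠ 0} := by
    rw [← isOpen_compl_iff]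
    have : {g : G | f g ≠ 0}ᶜ = {g : G | f g ∈ ({0} : Set (ZMod p))} := by
      ext g; simp
    rw [this]
    exact ho {0}
  set C : Subgroup G :=
    { carrier := {g | g ∈ Pn ρ x n ∧ f g = 0}
      mul_mem' := fun {a b} ha hb => ⟨mul_mem ha.1 hb.1, by
        rw [hf a ha.1 b hb.1, ha.2, hb.2, add_zero]⟩
      one_mem' := ⟨one_mem _, V_one hf⟩
      inv_mem' := fun {a} ha => ⟨inv_mem ha.1, by rw [V_inv hf ha.1, ha.2, neg_zero]⟩ } with hC
  have hCc : IsClosed (C : Set G) := (hPc n).inter hc0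
  have hCS : ∀ g, (∀ k, g ∈ Pn ρ x k) → f g = 0 := fun g hg =>
    (hgen C hCc (fun g hg => ⟨hs g hg, h0 g hg⟩) g hg).2
  by_contra hcon
  push Not at hcon
  have hne := IsCompact.nonempty_iInter_of_sequence_nonempty_isCompact_isClosed
    (fun m => (Pn ρ x m : Set G) ∩ {g : G | f g ≠ 0})
    (fun m g hg => ⟨hS.P_le x m hg.1, hg.2⟩)
    (fun m => by
      obtain ⟨g, hg, hg'⟩ := hcon m
      exact ⟨g, hg, hg'⟩)
    ((hPc 0).inter hc1).isCompact (fun m => (hPc m).inter hc1)
  obtain ⟨g, hg⟩ := hne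
  rw [Set.mem_iInter] at hg
  exact (hg 0).2 (hCS g fun k => (hg k).1)

theorem Dt.vanish_down (D : Dt hS x l) (n : ℕ) {f : G → ZMod p} (hf : IsV ρ x n f)
    (w : ℕ → G) (hw : ∀ k, w k ∈ Pn ρ x k) (hw' : ∀ k, w k ∉ Pn ρ x (k + 1)) (K : ℕ)
    (hw0 : ∀ k, k < K → f (w (n + k)) = 0) (h0 : ∀ g ∈ Pn ρ x (n + K), f g = 0) :
    ∀ g ∈ Pn ρ x n, f g = 0 := by
  have := Fact.mk D.pr
  induction K with
  | zero => exact h0
  | succ K ih =>
    refine ih (fun k hk => hw0 k (by omega)) ?_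
    obtain ⟨c, hc⟩ := D.ker_r (n + K) (hS.V_mono hf (by omega)) h0
    have h1 := hc _ (hw (n + K))
    rw [hw0 K (by omega)] at h1
    have h2 : hS.lam x l (n + K) (w (n + K)) ≠ 0 := fun h =>
      hw' _ ((D.lam_zero _ _ (hw _)).1 h)
    have h3 : c = 0 := by
      by_contra hne
      exact (mul_ne_zero hne h2) h1.symm
    intro g hg
    rw [hc g hg, h3, zero_mul]

/-- Dimension count at level `n`. -/
theorem count (hp : p.Prime) (hd : 2 ≤ d) (hF : FreeP p d G ι) (hS : SelfSim p G ρ) (x : Fin p)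
    (n : ℕ)
    (L : (Fin d → List.Vector (Fin p) n → ZMod p) →ₗ[ZMod p]
      (G → List.Vector (Fin p) n → ZMod p))
    (hL : ∀ m, IsCrA p (hS.lev n) (L m)) (hLi : ∀ m i, L m (ι i) = m i)
    {J : Type} [Fintype J]
    (Λ : J → (Fin d → List.Vector (Fin p) n → ZMod p) →ₗ[ZMod p] ZMod p)
    (hcard : Fintype.card J ≤ p ^ n) :
    ∃ m, (∀ j, Λ j m = 0) ∧ ∃ g ∈ Pn ρ x n, L m g (xv x n) ≠ 0 := by
  obtain ⟨m, hm, g, hg, hg'⟩ := exists_nonzero hp (hS.lev n) (xv x n) (by
      intro z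
      obtain ⟨g, hg⟩ := hS.transitive hp (by omega) hF n (xv x n).1 z.1 (xv x n).2 z.2
      exact ⟨g, Subtype.ext hg⟩) L hL hLi Λ (by
      rw [card_vec]
      calc Fintype.card J + p ^ n ≤ p ^ n + p ^ n := by omega
        _ = 2 * p ^ n := by ring
        _ ≤ d * p ^ n := Nat.mul_le_mul_right _ hd)
  exact ⟨m, hm, g, (mem_P_iff hS x n g).2 hg, hg'⟩

/-- There are no finite sets `t n ⊆ P_n` of size `o(p^n)` such that every closed subgroup
containing `t n` contains the stabiliser of the constant ray. -/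
theorem not_small_const (hp : p.Prime) (hd : 2 ≤ d) (hF : FreeP p d G ι) (hS : SelfSim p G ρ)
    (x : Fin p) (t : ℕ → Finset G) (ht : ∀ n, ∀ g ∈ t n, g ∈ Pn ρ x n)
    (hgen : ∀ n, ∀ C : Subgroup G, IsClosed (C : Set G) → (∀ g ∈ t n, g ∈ C) →
      ∀ g, (∀ k, g ∈ Pn ρ x k) → g ∈ C)
    (hsmall : ∀ c : ℕ, ∃ N, ∀ n, N ≤ n → c * (t n).card ≤ p ^ n) : False := by
  have := Fact.mk hp
  obtain ⟨l, hl1, hl2⟩ := exists_lam0 hS x hp (by omega) hF
  have D : Dt hS x l := ⟨hp, hl1, hl2, fun n => hS.transitive hp (by omega) hF n⟩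
  choose w hw hw' using D.exists_w
  choose u hu hu' using D.exists_u
  have hR : Rep ρ x u := ⟨hu, hu'⟩
  -- step A
  have hA : Aged hS x l := by
    apply D.aged
    intro K
    obtain ⟨N, hN⟩ := hsmall 2
    set n := N + 2 * (K + 1) with hn
    obtain ⟨L, hL, hLi⟩ := exists_crL (p := p) hp hF (hS.lev n) (hS.isOpen_ker_lev n)
    obtain ⟨m, hm, g, hg, hg'⟩ := count hp hd hF hS x n L hL hLi
      (J := t n ⊕ Fin (K + 1))
      (fun j => Sum.elim
        (fun i : t n => ({ toFun := fun m => L m i.1 (xv x n)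
                           map_add' := fun m m' => by rw [map_add]; rfl
                           map_smul' := fun c m => by rw [map_smul]; rfl } :
                        (Fin d → List.Vector (Fin p) n → ZMod p) →ₗ[ZMod p] ZMod p))
        (fun k : Fin (K + 1) => { toFun := fun m => L m (w (n + k)) (xv x n)
                                  map_add' := fun m m' => by rw [map_add]; rfl
                                  map_smul' := fun c m => by rw [map_smul]; rfl }) j) (by
        rw [Fintype.card_sum, Fintype.card_coe, Fintype.card_fin]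
        have h1 : n < p ^ n := Nat.lt_pow_self hp.one_lt
        have h2 := hN n (by omega)
        omega)
    have hV := crA_V hS x n (hL m)
    have hd' := D.dies n hV (fun S => crA_open (hL m) _ S) (t n) (ht n) (hgen n)
      (fun g hg => hm (Sum.inl ⟨g, hg⟩))
    refine ⟨n, fun g => L m g (xv x n), hV, hd', ?_⟩
    by_contra hcon
    push Not at hcon
    exact hg' (D.vanish_down n hV w hw hw' (K + 1) (fun k hk => hm (Sum.inr ⟨k, hk⟩)) hcon g hg)
  -- the final count
  obtain ⟨N, hN⟩ := hsmall (4 * p)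
  set n := N + 4 with hn
  obtain ⟨L, hL, hLi⟩ := exists_crL (p := p) hp hF (hS.lev n) (hS.isOpen_ker_lev n)
  obtain ⟨Lt, hLt, hLo, hLN⟩ := D.lift hF hR n L hL hLi
  obtain ⟨m, hm, g, hg, hg'⟩ := count hp hd hF hS x n L hL hLi
    (J := (t n ⊕ t (n + 1)) ⊕ Unit)
    (fun j => Sum.elim (Sum.elim
      (fun i : t n => ({ toFun := fun m => L m i.1 (xv x n)
                         map_add' := fun m m' => by rw [map_add]; rfl
                         map_smul' := fun c m => by rw [map_smul]; rfl } :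
                      (Fin d → List.Vector (Fin p) n → ZMod p) →ₗ[ZMod p] ZMod p))
      (fun i : t (n + 1) => { toFun := fun m => Lt m i.1
                              map_add' := fun m m' => by rw [map_add]; rfl
                              map_smul' := fun c m => by rw [map_smul]; rfl }))
      (fun _ : Unit => { toFun := fun m => L m (w n) (xv x n)
                         map_add' := fun m m' => by rw [map_add]; rfl
                         map_smul' := fun c m => by rw [map_smul]; rfl }) j) (by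
      rw [Fintype.card_sum, Fintype.card_sum, Fintype.card_coe, Fintype.card_coe,
        Fintype.card_unit]
      have h1 : n < p ^ n := Nat.lt_pow_self hp.one_lt
      have h2 := hN n (by omega)
      have h3 := hN (n + 1) (by omega)
      have h4 : 4 * (t (n + 1)).card ≤ p ^ n := by
        rw [pow_succ] at h3
        have : p * (4 * (t (n + 1)).card) ≤ p * p ^ n := by
          calc p * (4 * (t (n + 1)).card) = 4 * p * (t (n + 1)).card := by ring
            _ ≤ p ^ n * p := h3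
            _ = p * p ^ n := by ring
        exact Nat.le_of_mul_le_mul_left this hp.pos
      have h5 : 4 * (t n).card ≤ p ^ n := by
        calc 4 * (t n).card ≤ 4 * p * (t n).card :=
              Nat.mul_le_mul_right _ (Nat.le_mul_of_pos_right _ hp.pos)
          _ ≤ p ^ n := h2
      omega)
  have hm1 : ∀ g ∈ t n, L m g (xv x n) = 0 := fun g hg => hm (Sum.inl (Sum.inl ⟨g, hg⟩))
  have hm2 : ∀ g ∈ t (n + 1), Lt m g = 0 := fun g hg => hm (Sum.inl (Sum.inr ⟨g, hg⟩))
  have hm3 : L m (w n) (xv x n) = 0 := hm (Sum.inr ())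
  have hV := crA_V hS x n (hL m)
  have hd1 := D.dies n hV (fun S => crA_open (hL m) _ S) (t n) (ht n) (hgen n) hm1
  obtain ⟨M, hM⟩ := D.dies (n + 1) (hLt m) (hLo m) (t (n + 1)) (ht (n + 1)) (hgen (n + 1)) hm2
  obtain ⟨I, h, hh, hh'⟩ := D.young hA M (n + 1) (Lt m) (hLt m)
    (fun g hg => hM g (hS.P_anti x (by omega) hg))
  have hz : ∀ g ∈ Pn ρ x (n + 1 + (I + 1)), L m ((hS.ph x)^[I + 1] g) (xv x n) = 0 := by
    intro g hg
    rw [← hLN m _ (hS.ph_iter_mem x (I + 1) hg), ← D.N_T_iter hR n (hLt m) (I + 1) hg]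
    have e : n + (I + 1) = n + 1 + I := by ring
    have hg2 : g ∈ Pn ρ x (n + (I + 1) + 1) := by
      have e2 : n + (I + 1) + 1 = n + 1 + (I + 1) := by ring
      rwa [e2]
    have h1 : Nm u (n + (I + 1)) (fun g => Lt m ((hS.ph x)^[I + 1] g)) g =
        Nm u (n + (I + 1)) h g := by
      refine Finset.sum_congr rfl fun y _ => ?_
      have h2 := D.conj_mem (n + (I + 1)) (hR.mem _ y) hg2
      have e2 : n + (I + 1) + 1 = n + 1 + I + 1 := by ring
      rw [e2] at h2
      exact hh' _ h2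
    rw [h1]
    rw [← e] at hh
    exact N_r hR (n + (I + 1)) hh (hS.P_le x _ hg2)
  have hz2 := D.T_inj_iter (I + 1) (n + 1) (hS.V_mono hV (by omega)) hd1 hz
  have hz3 := D.vanish_down n hV w hw hw' 1 (fun k hk => by
    have : k = 0 := by omega
    subst this
    exact hm3) hz2
  exact hg' (hz3 g hg)

end SelfSim

end

end Pdb20
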