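import Mathlib
import Pool.Agent.Lib.Pdb20.RayC

/-!
# Topologically finitely generated subgroups containing a ray stabiliser are open
-/

set_option autoImplicit false

namespace Pdb20

section

variable {p d : ℕ} {G : Type} [Group G] [TopologicalSpace G]
    [IsTopologicalGroup G] [CompactSpace G] [TotallyDisconnectedSpace G] [T2Space G]
    {ι : Fin d → G}

namespace SelfSim

variable {ρ : G →* Equiv.Perm (List (Fin p))}

theorem index_St (hp : p.Prime) (hd : 1 ≤ d) (hF : FreeP p d G ι) (hS : SelfSim p G ρ)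
    (v : List (Fin p)) : (St ρ v).index = p ^ v.length := by
  set f : G ⧸ St ρ v → List.Vector (Fin p) v.length :=
    Quotient.lift (fun g => ⟨ρ g v, hS.length v g⟩) (by
      intro a b hab
      have h1 : a⁻¹ * b ∈ St ρ v := QuotientGroup.leftRel_apply.1 hab
      have h2 : ρ (a⁻¹ * b) v = v := h1
      rw [map_mul, Equiv.Perm.mul_apply, map_inv, Equiv.Perm.inv_eq_iff_eq] at h2
      exact Subtype.ext h2.symm) with hf
  have hbij : Function.Bijective f := by
    constructor
    · intro a b
      obtain ⟨a, rfl⟩ := QuotientGroup.mk_surjective a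
      obtain ⟨b, rfl⟩ := QuotientGroup.mk_surjective b
      intro h
      have h1 : ρ a v = ρ b v := congrArg Subtype.val h
      rw [QuotientGroup.eq]
      show ρ (a⁻¹ * b) v = v
      rw [map_mul, Equiv.Perm.mul_apply, ← h1, map_inv]
      exact (ρ a).symm_apply_apply v
    · intro w
      obtain ⟨g, hg⟩ := hS.transitive hp hd hF v.length v w.1 rfl w.2
      exact ⟨QuotientGroup.mk g, Subtype.ext hg⟩
  rw [Subgroup.index, Nat.card_congr (Equiv.ofBijective f hbij), card_vec]

omit [CompactSpace G] [TotallyDisconnectedSpace G] [T2Space G] [IsTopologicalGroup G] in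
theorem eq_prefix (hS : SelfSim p G ρ) (x : Fin p) {m n : ℕ} (h : m ≤ n) (g g' : G)
    (he : ρ g (List.replicate n x) = ρ g' (List.replicate n x)) :
    ρ g (List.replicate m x) = ρ g' (List.replicate m x) := by
  obtain ⟨k, rfl⟩ := Nat.exists_eq_add_of_le h
  rw [List.replicate_add, hS.sec_spec, hS.sec_spec] at he
  exact (List.append_inj he (by rw [hS.length, hS.length])).1

theorem exists_sep (hS : SelfSim p G ρ) (x : Fin p) (R : Subgroup G) (hRc : IsClosed (R : Set G))
    (hSR : ∀ g, (∀ k, g ∈ Pn ρ x k) → g ∈ R) (a b : G) (hab : a⁻¹ * b ∉ R) :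
    ∃ N, ∀ n, N ≤ n → ∀ r ∈ R, ∀ r' ∈ R,
      ρ (a * r) (List.replicate n x) ≠ ρ (b * r') (List.replicate n x) := by
  by_contra hcon
  push Not at hcon
  have hcl : ∀ n, IsClosed {q : G × G | q.1 ∈ R ∧ q.2 ∈ R ∧
      ρ (a * q.1) (List.replicate n x) = ρ (b * q.2) (List.replicate n x)} := by
    intro n
    have h1 : IsClosed {q : G × G |
        ρ (a * q.1) (List.replicate n x) = ρ (b * q.2) (List.replicate n x)} := by
      have : {q : G × G |
          ρ (a * q.1) (List.replicate n x) = ρ (b * q.2) (List.replicate n x)}ᶜ =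
          ⋃ t ∈ {t : List (Fin p) × List (Fin p) | t.1 ≠ t.2},
          ((fun y => a * y) ⁻¹' {g : G | ρ g (List.replicate n x) = t.1}) ×ˢ
          ((fun y => b * y) ⁻¹' {g : G | ρ g (List.replicate n x) = t.2}) := by
        ext ⟨g, h⟩
        simp only [Set.mem_compl_iff, Set.mem_setOf_eq, Set.mem_iUnion, Set.mem_prod,
          Set.mem_preimage, exists_prop, Prod.exists]
        constructor
        · intro hne
          exact ⟨_, _, hne, rfl, rfl⟩
        · rintro ⟨u, u', hne, rfl, rfl⟩
          exact hne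
      rw [← isOpen_compl_iff, this]
      refine isOpen_biUnion fun t _ => ?_
      exact ((hS.isOpen_eq _ _).preimage (continuous_const_mul a)).prod
        ((hS.isOpen_eq _ _).preimage (continuous_const_mul b))
    exact (hRc.preimage continuous_fst).inter ((hRc.preimage continuous_snd).inter h1)
  have hne := IsCompact.nonempty_iInter_of_sequence_nonempty_isCompact_isClosed
    (fun n => {q : G × G | q.1 ∈ R ∧ q.2 ∈ R ∧
      ρ (a * q.1) (List.replicate n x) = ρ (b * q.2) (List.replicate n x)})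
    (fun n q hq => ⟨hq.1, hq.2.1, hS.eq_prefix x (Nat.le_succ n) _ _ hq.2.2⟩)
    (fun n => by
      obtain ⟨m, hm, r, hr, r', hr', he⟩ := hcon n
      exact ⟨(r, r'), hr, hr', hS.eq_prefix x hm _ _ he⟩)
    (hcl 0).isCompact hcl
  obtain ⟨⟨r, r'⟩, hq⟩ := hne
  rw [Set.mem_iInter] at hq
  have hr : r ∈ R := (hq 0).1
  have hr' : r' ∈ R := (hq 0).2.1
  have h1 : (b * r')⁻¹ * (a * r) ∈ R := by
    apply hSR
    intro k
    show ρ ((b * r')⁻¹ * (a * r)) (List.replicate k x) = _
    have h2 : ρ (a * r) (List.replicate k x) = ρ (b * r') (List.replicate k x) := (hq k).2.2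
    rw [map_mul, Equiv.Perm.mul_apply, h2, map_inv]
    exact (ρ (b * r')).symm_apply_apply _
  apply hab
  have h2 := mul_mem (mul_mem hr' h1) (inv_mem hr)
  have e : r' * ((b * r')⁻¹ * (a * r)) * r⁻¹ = (a⁻¹ * b)⁻¹ := by group
  rw [e] at h2
  exact inv_mem_iff.1 h2

/-- A closed subgroup of infinite index containing the ray stabiliser has small orbits on the
vertices of the ray. -/
theorem small_orbits (hS : SelfSim p G ρ) (x : Fin p) (R : Subgroup G)
    (hRc : IsClosed (R : Set G)) (hRo : ¬ IsOpen (R : Set G))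
    (hSR : ∀ g, (∀ k, g ∈ Pn ρ x k) → g ∈ R) (R₀ : Subgroup G) (hR₀ : R₀ ≤ R) (c : ℕ) :
    ∃ N, ∀ n, N ≤ n → c * (Pn ρ x n).relIndex R₀ ≤ p ^ n := by
  classical
  have hinf : Infinite (G ⧸ R) := by
    by_contra hfin
    rw [not_infinite_iff_finite] at hfin
    have : R.FiniteIndex := Subgroup.finiteIndex_of_finite_quotient
    exact hRo (Subgroup.isOpen_of_isClosed_of_finiteIndex _ hRc)
  set e := Infinite.natEmbedding (G ⧸ R)
  set g : ℕ → G := fun i => Quotient.out (e i) with hg
  have hge : ∀ i, ((g i : G) : G ⧸ R) = e i := fun i => QuotientGroup.out_eq' _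
  have hsep : ∀ i j, i ≠ j → (g i)⁻¹ * g j ∉ R := by
    intro i j hij h
    rw [← QuotientGroup.eq, hge, hge] at h
    exact hij (e.injective h)
  have hN : ∀ q : Fin c × Fin c, ∃ N, q.1 ≠ q.2 → ∀ n, N ≤ n → ∀ r ∈ R, ∀ r' ∈ R,
      ρ (g q.1 * r) (List.replicate n x) ≠ ρ (g q.2 * r') (List.replicate n x) := by
    intro q
    by_cases hq : q.1 = q.2
    · exact ⟨0, fun h => absurd hq h⟩
    · obtain ⟨N, hN⟩ := hS.exists_sep x R hRc hSR (g q.1) (g q.2)
        (hsep _ _ (fun h => hq (Fin.ext h)))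
      exact ⟨N, fun _ => hN⟩
  choose M hM using hN
  refine ⟨∑ q, M q, ?_⟩
  intro n hn
  have hM' : ∀ q, M q ≤ n := fun q =>
    (Finset.single_le_sum (f := M) (fun _ _ => Nat.zero_le _) (Finset.mem_univ q)).trans hn
  set H := (Pn ρ x n).subgroupOf R₀ with hH
  set f : Fin c × (R₀ ⧸ H) → List.Vector (Fin p) n := fun q =>
    ⟨ρ (g q.1 * (Quotient.out q.2 : R₀)) (List.replicate n x), by
      rw [hS.length, List.length_replicate]⟩ with hf
  have hinj : Function.Injective f := by
    rintro ⟨i, a⟩ ⟨j, b⟩ hab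
    have h1 : ρ (g i * (Quotient.out a : R₀)) (List.replicate n x) =
        ρ (g j * (Quotient.out b : R₀)) (List.replicate n x) := congrArg Subtype.val hab
    have hij : i = j := by
      by_contra hij
      exact hM (i, j) hij n (hM' _) _ (hR₀ (Quotient.out a : R₀).2) _
        (hR₀ (Quotient.out b : R₀).2) h1
    subst hij
    rw [map_mul, map_mul, Equiv.Perm.mul_apply, Equiv.Perm.mul_apply] at h1
    have h2 := (ρ (g i)).injective h1
    have h3 : ((Quotient.out a : R₀)⁻¹ * (Quotient.out b : R₀) : R₀) ∈ H := by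
      refine Subgroup.mem_subgroupOf.2 ?_
      show ρ (((Quotient.out a : R₀)⁻¹ * (Quotient.out b : R₀) : R₀) : G)
        (List.replicate n x) = List.replicate n x
      rw [Subgroup.coe_mul, Subgroup.coe_inv, map_mul, Equiv.Perm.mul_apply, ← h2, map_inv]
      exact (ρ _).symm_apply_apply _
    have h4 : a = b := by
      have ha : ((Quotient.out a : R₀) : R₀ ⧸ H) = a := QuotientGroup.out_eq' a
      have hb : ((Quotient.out b : R₀) : R₀ ⧸ H) = b := QuotientGroup.out_eq' b
      rw [← ha, ← hb, QuotientGroup.eq]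
      exact h3
    rw [h4]
  have hcard := Nat.card_le_card_of_injective f hinj
  rw [Nat.card_prod, Nat.card_eq_fintype_card, Fintype.card_fin, card_vec] at hcard
  exact hcard

/-- A topologically finitely generated closed subgroup containing the stabiliser of the constant
ray is open. -/
theorem fg_open_const (hp : p.Prime) (hd : 2 ≤ d) (hF : FreeP p d G ι) (hS : SelfSim p G ρ)
    (x : Fin p) (s : Finset G)
    (hSR : ∀ g, (∀ k, g ∈ Pn ρ x k) → g ∈ (Subgroup.closure (s : Set G)).topologicalClosure) :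
    IsOpen ((Subgroup.closure (s : Set G)).topologicalClosure : Set G) := by
  classical
  by_contra hRo
  set R₀ := Subgroup.closure (s : Set G) with hR₀
  set R := R₀.topologicalClosure with hR
  have hRc : IsClosed (R : Set G) := R₀.isClosed_topologicalClosure
  have hle : R₀ ≤ R := R₀.le_topologicalClosure
  have hsm := hS.small_orbits x R hRc hRo hSR R₀ hle
  -- generators of `R₀` as a group
  set S' : Finset R₀ := s.attach.image (fun g => ⟨g.1, Subgroup.subset_closure g.2⟩) with hS'
  have hS'c : S'.card ≤ s.card := by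
    rw [hS']
    exact Finset.card_image_le.trans (by rw [Finset.card_attach])
  have hS'g : Subgroup.closure (S' : Set R₀) = ⊤ := by
    have h1 : (S' : Set R₀) = ((↑) : R₀ → G) ⁻¹' (s : Set G) := by
      ext g
      simp only [hS', Finset.coe_image, Set.mem_image, Finset.mem_coe, Finset.mem_attach,
        true_and, Subtype.exists, Set.mem_preimage]
      constructor
      · rintro ⟨a, ha, rfl⟩
        exact ha
      · intro h
        exact ⟨g.1, h, rfl⟩
    rw [h1]
    exact Subgroup.closure_closure_coe_preimage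
  have hT : ∀ n, ∃ T : Finset ((Pn ρ x n).subgroupOf R₀),
      T.card ≤ (Pn ρ x n).relIndex R₀ * s.card ∧
      Subgroup.closure (T : Set ((Pn ρ x n).subgroupOf R₀)) = ⊤ := by
    intro n
    have : Finite (G ⧸ Pn ρ x n) := (Pn ρ x n).quotient_finite_of_isOpen (hS.isOpen_St _)
    have : (Pn ρ x n).FiniteIndex := Subgroup.finiteIndex_of_finite_quotient
    have : ((Pn ρ x n).subgroupOf R₀).FiniteIndex := inferInstance
    obtain ⟨T, hT, hT'⟩ := Subgroup.exists_finset_card_le_mul ((Pn ρ x n).subgroupOf R₀) hS'g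
    exact ⟨T, hT.trans (Nat.mul_le_mul_left _ hS'c), hT'⟩
  choose T hTc hTg using hT
  refine not_small_const hp hd hF hS x (fun n => (T n).image
    (fun h : (Pn ρ x n).subgroupOf R₀ => ((h : R₀) : G))) ?_ ?_ ?_
  · intro n g hg
    obtain ⟨h, -, rfl⟩ := Finset.mem_image.1 hg
    exact Subgroup.mem_subgroupOf.1 h.2
  · intro n C hC hTC
    have h1 : ∀ g, g ∈ R₀ → g ∈ Pn ρ x n → g ∈ C := by
      intro g hg hgP
      set C' : Subgroup ((Pn ρ x n).subgroupOf R₀) :=
        C.comap (R₀.subtype.comp ((Pn ρ x n).subgroupOf R₀).subtype) with hC'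
      have h2 : C' = ⊤ := by
        rw [eq_top_iff, ← hTg n, Subgroup.closure_le]
        intro h hh
        exact hTC _ (Finset.mem_image.2 ⟨h, hh, rfl⟩)
      have h3 : (⟨⟨g, hg⟩, Subgroup.mem_subgroupOf.2 hgP⟩ : (Pn ρ x n).subgroupOf R₀) ∈ C' := by
        rw [h2]; trivial
      exact h3
    intro g hg
    have h2 : g ∈ (Pn ρ x n : Set G) ∩ closure (R₀ : Set G) := ⟨hg n, hSR g hg⟩
    have h3 := (hS.isOpen_St (List.replicate n x)).inter_closure h2
    have h4 : closure ((Pn ρ x n : Set G) ∩ (R₀ : Set G)) ⊆ (C : Set G) :=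
      hC.closure_subset_iff.2 (fun y hy => h1 y hy.2 hy.1)
    exact h4 h3
  · intro c
    obtain ⟨N, hN⟩ := hsm (c * s.card)
    refine ⟨N, fun n hn => ?_⟩
    calc c * ((T n).image (fun h : (Pn ρ x n).subgroupOf R₀ => ((h : R₀) : G))).card
        ≤ c * ((Pn ρ x n).relIndex R₀ * s.card) :=
          Nat.mul_le_mul_left _ (Finset.card_image_le.trans (hTc n))
      _ = c * s.card * (Pn ρ x n).relIndex R₀ := by ring
      _ ≤ p ^ n := hN n hn

theorem exists_move (hp : p.Prime) (hd : 1 ≤ d) (hF : FreeP p d G ι) (hS : SelfSim p G ρ)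
    (x : Fin p) (ξ : ℕ → Fin p) :
    ∃ g, ∀ n, ρ g (List.replicate n x) = (List.range n).map ξ := by
  have hc : ∀ n, IsClosed {g : G | ρ g (List.replicate n x) = (List.range n).map ξ} :=
    fun n => hS.isClosed_eq _ _
  have hne := IsCompact.nonempty_iInter_of_sequence_nonempty_isCompact_isClosed
    (fun n => {g : G | ρ g (List.replicate n x) = (List.range n).map ξ})
    (fun n g hg => by
      have h1 : ρ g (List.replicate (n + 1) x) = (List.range (n + 1)).map ξ := hg
      rw [List.replicate_succ', hS.sec_spec, List.range_succ, List.map_append] at h1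
      exact (List.append_inj h1 (by rw [hS.length]; simp)).1)
    (fun n => hS.transitive hp hd hF n _ _ (by simp) (by simp))
    (hc 0).isCompact hc
  obtain ⟨g, hg⟩ := hne
  rw [Set.mem_iInter] at hg
  exact ⟨g, hg⟩

omit [CompactSpace G] [TotallyDisconnectedSpace G] [T2Space G] in
/-- Conjugating a closed subgroup. -/
theorem isClosed_conj (C : Subgroup G) (hC : IsClosed (C : Set G)) (g : G) :
    IsClosed ((C.comap (MulAut.conj g).toMonoidHom : Subgroup G) : Set G) := by
  have : ((C.comap (MulAut.conj g).toMonoidHom : Subgroup G) : Set G) =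
      (fun h => g * h * g⁻¹) ⁻¹' (C : Set G) := rfl
  rw [this]
  exact hC.preimage ((continuous_const_mul g).mul_const g⁻¹)

/-- A topologically finitely generated closed subgroup containing a ray stabiliser is open. -/
theorem fg_open (hp : p.Prime) (hd : 2 ≤ d) (hF : FreeP p d G ι) (hS : SelfSim p G ρ)
    (ξ : ℕ → Fin p) (s : Finset G)
    (hSR : ∀ g, (∀ n : ℕ, ρ g ((List.range n).map ξ) = (List.range n).map ξ) →
      g ∈ (Subgroup.closure (s : Set G)).topologicalClosure) :
    IsOpen ((Subgroup.closure (s : Set G)).topologicalClosure : Set G) := by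
  classical
  set x : Fin p := ⟨0, hp.pos⟩
  obtain ⟨g₀, hg₀⟩ := hS.exists_move hp (by omega) hF x ξ
  have hinv : ∀ n, ρ g₀⁻¹ ((List.range n).map ξ) = List.replicate n x := fun n => by
    rw [map_inv, Equiv.Perm.inv_eq_iff_eq, hg₀]
  set R := (Subgroup.closure (s : Set G)).topologicalClosure with hR
  set s' : Finset G := s.image (fun g => g₀⁻¹ * g * g₀) with hs'
  set R' := (Subgroup.closure (s' : Set G)).topologicalClosure with hR'
  have hRR' : R ≤ R'.comap (MulAut.conj g₀⁻¹).toMonoidHom := by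
    refine Subgroup.topologicalClosure_minimal _ ?_
      (isClosed_conj R' (Subgroup.isClosed_topologicalClosure _) g₀⁻¹)
    rw [Subgroup.closure_le]
    intro h hh
    show g₀⁻¹ * h * (g₀⁻¹)⁻¹ ∈ R'
    rw [inv_inv]
    exact Subgroup.le_topologicalClosure _
      (Subgroup.subset_closure (Finset.mem_coe.2 (Finset.mem_image.2 ⟨h, hh, rfl⟩)))
  have hR'R : R' ≤ R.comap (MulAut.conj g₀).toMonoidHom := by
    refine Subgroup.topologicalClosure_minimal _ ?_
      (isClosed_conj R (Subgroup.isClosed_topologicalClosure _) g₀)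
    rw [Subgroup.closure_le]
    intro h hh
    obtain ⟨k, hk, rfl⟩ := Finset.mem_image.1 (Finset.mem_coe.1 hh)
    show g₀ * (g₀⁻¹ * k * g₀) * g₀⁻¹ ∈ R
    have e : g₀ * (g₀⁻¹ * k * g₀) * g₀⁻¹ = k := by group
    rw [e]
    exact Subgroup.le_topologicalClosure _ (Subgroup.subset_closure hk)
  have ho : IsOpen (R' : Set G) := by
    refine fg_open_const hp hd hF hS x s' ?_
    intro g hg
    have h1 : g₀ * g * g₀⁻¹ ∈ R := by
      apply hSR
      intro n
      rw [map_mul, map_mul, Equiv.Perm.mul_apply, Equiv.Perm.mul_apply, hinv,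
        (hg n : ρ g (List.replicate n x) = List.replicate n x), hg₀]
    have h2 := hRR' h1
    have e : g₀⁻¹ * (g₀ * g * g₀⁻¹) * (g₀⁻¹)⁻¹ = g := by group
    have h3 : g₀⁻¹ * (g₀ * g * g₀⁻¹) * (g₀⁻¹)⁻¹ ∈ R' := h2
    rwa [e] at h3
  have ho2 : IsOpen ((R.comap (MulAut.conj g₀).toMonoidHom : Subgroup G) : Set G) :=
    Subgroup.isOpen_mono hR'R ho
  have ho3 : (R : Set G) = (fun h => g₀⁻¹ * h * g₀) ⁻¹'
      ((R.comap (MulAut.conj g₀).toMonoidHom : Subgroup G) : Set G) := by
    ext h
    show h ∈ R ↔ g₀ * (g₀⁻¹ * h * g₀) * g₀⁻¹ ∈ R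
    have e : g₀ * (g₀⁻¹ * h * g₀) * g₀⁻¹ = h := by group
    rw [e]
  rw [ho3]
  exact ho2.preimage ((continuous_const_mul g₀⁻¹).mul_const g₀)

/-- Ray stabilisers are not topologically finitely generated. -/
theorem not_fg (hp : p.Prime) (hd : 2 ≤ d) (hF : FreeP p d G ι) (hS : SelfSim p G ρ)
    (ξ : ℕ → Fin p) : ¬ ∃ s : Finset G, ∀ g : G,
      g ∈ (Subgroup.closure (s : Set G)).topologicalClosure ↔
        ∀ n : ℕ, ρ g ((List.range n).map ξ) = (List.range n).map ξ := by
  rintro ⟨s, hs⟩
  have ho := hS.fg_open hp hd hF ξ s (fun g hg => (hs g).2 hg)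
  set R := (Subgroup.closure (s : Set G)).topologicalClosure with hR
  have : Finite (G ⧸ R) := R.quotient_finite_of_isOpen ho
  have hfi : R.FiniteIndex := Subgroup.finiteIndex_of_finite_quotient
  have h1 : p ^ R.index ∣ R.index := by
    have hle : R ≤ St ρ ((List.range R.index).map ξ) := fun g hg => (hs g).1 hg R.index
    have h2 := Subgroup.index_dvd_of_le hle
    rw [hS.index_St hp (by omega) hF] at h2
    simpa using h2
  have h2 := Nat.le_of_dvd (Nat.pos_of_ne_zero hfi.index_ne_zero) h1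
  exact absurd (Nat.lt_pow_self hp.one_lt) (not_lt.2 h2)

end SelfSim

/-- Finitely many continuous actions with trivial common kernel: one of them is faithful. -/
theorem several (hp : p.Prime) (hd : 1 ≤ d) (hF : FreeP p d G ι) {r : ℕ}
    (ρ : Fin r → G →* Equiv.Perm (List (Fin p)))
    (hopn : ∀ i v, IsOpen {g : G | ρ i g v = v})
    (h : ∀ g : G, (∀ i, ρ i g = 1) → g = 1) : ∃ i, Function.Injective (ρ i) := by
  by_contra hcon
  push Not at hcon
  have hker : ∀ i, (ρ i).ker ≠ ⊥ := fun i hi => hcon i ((MonoidHom.ker_eq_bot_iff _).1 hi)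
  have hcl : ∀ i, IsClosed ((ρ i).ker : Set G) := by
    intro i
    have : ((ρ i).ker : Set G) = ⋂ v : List (Fin p), (St (ρ i) v : Set G) := by
      ext g
      rw [SetLike.mem_coe, MonoidHom.mem_ker, Set.mem_iInter]
      constructor
      · intro hg v
        show ρ i g v = v
        rw [hg]; rfl
      · intro hg
        exact Equiv.ext fun v => hg v
    rw [this]
    exact isClosed_iInter fun v => Subgroup.isClosed_of_isOpen _ (hopn i v)
  refine iInf_ne_bot hp hF (fun i => (ρ i).ker) hcl ?_ hker (top_ne_bot hp hd hF)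
    Finset.univ ?_
  · intro i k a ha b _
    exact (inferInstance : (ρ i).ker.Normal).conj_mem a ha b
  · rw [eq_bot_iff]
    intro g hg
    simp only [Subgroup.mem_iInf, Finset.mem_univ, true_imp_iff] at hg
    rw [Subgroup.mem_bot]
    exact h g hg

end

end Pdb20
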