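import Mathlib
import Pool.Agent.Lib.Pdb20.RayD

/-!
# The dimension of `Hom(U, F_p)` for open subgroups, and the index of the section groups
-/

set_option autoImplicit false

namespace Pdb20

/-- The continuous homomorphisms `U → F_p`. -/
def Hc (p : ℕ) {G : Type} [Group G] [TopologicalSpace G] (U : Subgroup G) :
    Submodule (ZMod p) (U → ZMod p) where
  carrier := {f | (∀ a b, f (a * b) = f a + f b) ∧ ∃ N : Subgroup G, IsOpen (N : Set G) ∧
    ∀ n : U, (n : G) ∈ N → f n = 0}
  add_mem' {f g} hf hg := by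
    obtain ⟨h1, N, hN, h2⟩ := hf
    obtain ⟨h1', N', hN', h2'⟩ := hg
    refine ⟨?_, N ⊓ N', ?_, ?_⟩
    · intro a b
      simp only [Pi.add_apply, h1, h1']
      ring
    · rw [Subgroup.coe_inf]
      exact hN.inter hN'
    · intro n hn
      simp only [Pi.add_apply, h2 n hn.1, h2' n hn.2, add_zero]
  zero_mem' := ⟨fun a b => by simp, ⊤, by rw [Subgroup.coe_top]; exact isOpen_univ,
    fun _ _ => rfl⟩
  smul_mem' c f hf := by
    obtain ⟨h1, N, hN, h2⟩ := hf
    refine ⟨?_, N, hN, ?_⟩
    · intro a b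
      simp only [Pi.smul_apply, smul_eq_mul, h1]
      ring
    · intro n hn
      simp only [Pi.smul_apply, smul_eq_mul, h2 n hn, mul_zero]

theorem mem_Hc {p : ℕ} {G : Type} [Group G] [TopologicalSpace G] {U : Subgroup G}
    {f : U → ZMod p} : f ∈ Hc p U ↔ (∀ a b, f (a * b) = f a + f b) ∧
      ∃ N : Subgroup G, IsOpen (N : Set G) ∧ ∀ n : U, (n : G) ∈ N → f n = 0 := Iff.rfl

section

variable {p d : ℕ} {G : Type} [Group G] [TopologicalSpace G]
    [IsTopologicalGroup G] {ι : Fin d → G}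

omit [IsTopologicalGroup G] in
/-- A crossed homomorphism vanishing on the stabiliser of `x0` has initial values in the image
of the coboundary map. -/
theorem mem_range_cob {X : Type} (σ : G →* Equiv.Perm X) (x0 : X)
    (htr : ∀ x, ∃ g, σ g x0 = x) {B : G → X → ZMod p} (hB : IsCrA p σ B)
    (hz : ∀ g, σ g x0 = x0 → B g x0 = 0) :
    ∃ β : X → ZMod p, ∀ g x, B g x = β x - β ((σ g)⁻¹ x) := by
  choose t ht using htr
  have key : ∀ (g : G) (x : X), σ g x0 = x → B g x = B (t x) x := by
    intro g x hg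
    have h1 := hB.1 (t x) ((t x)⁻¹ * g) x
    have h2 : (σ (t x))⁻¹ x = x0 := by
      rw [Equiv.Perm.inv_eq_iff_eq]; exact (ht x).symm
    have h3 : B ((t x)⁻¹ * g) x0 = 0 := by
      apply hz
      rw [map_mul, Equiv.Perm.mul_apply, hg, map_inv, h2]
    rw [mul_inv_cancel_left, h2, h3, add_zero] at h1
    exact h1
  refine ⟨fun x => B (t x) x, ?_⟩
  intro g x
  show B g x = B (t x) x - B (t ((σ g)⁻¹ x)) ((σ g)⁻¹ x)
  have h1 : σ (g * t ((σ g)⁻¹ x)) x0 = x := by
    rw [map_mul, Equiv.Perm.mul_apply, ht, Equiv.Perm.inv_def, Equiv.apply_symm_apply]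
  have h2 := key _ _ h1
  have h3 := hB.1 g (t ((σ g)⁻¹ x)) x
  rw [← h2, h3]
  ring

omit [IsTopologicalGroup G] in
/-- Coboundaries are crossed homomorphisms. -/
theorem isCrA_cob {X : Type} (σ : G →* Equiv.Perm X) (hσ : IsOpen (σ.ker : Set G))
    (β : X → ZMod p) : IsCrA p σ (fun g x => β x - β ((σ g)⁻¹ x)) := by
  refine ⟨?_, σ.ker, hσ, ?_⟩
  · intro g h x
    show β x - β ((σ (g * h))⁻¹ x) = (β x - β ((σ g)⁻¹ x)) +
      (β ((σ g)⁻¹ x) - β ((σ h)⁻¹ ((σ g)⁻¹ x)))
    rw [map_mul, mul_inv_rev, Equiv.Perm.mul_apply]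
    ring
  · intro n hn x
    have h1 : σ n = 1 := hn
    constructor
    · show β x - β ((σ n)⁻¹ x) = 0
      rw [h1, inv_one]
      exact sub_self _
    · rw [h1]; rfl

theorem finrank_Hc [CompactSpace G] (hp : p.Prime) (hF : FreeP p d G ι) (U : Subgroup G)
    (hU : IsOpen (U : Set G)) :
    Module.Finite (ZMod p) (Hc p U) ∧
    Module.finrank (ZMod p) (Hc p U) + U.index = d * U.index + 1 := by
  classical
  have := Fact.mk hp
  have hfin : Finite (G ⧸ U) := U.quotient_finite_of_isOpen hU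
  letI := Fintype.ofFinite (G ⧸ U)
  set σ := MulAction.toPermHom G (G ⧸ U) with hσdef
  have hσ : IsOpen (σ.ker : Set G) := by
    refine ker_open_of σ U.normalCore (open_core U hU) ?_
    intro n hn
    exact Equiv.ext fun x =>
      smul_eq_of_mem_core U U.normalCore inferInstance U.normalCore_le n hn x
  obtain ⟨L, hL, hLi⟩ := exists_crL (p := p) hp hF σ hσ
  set x0 : G ⧸ U := ((1 : G) : G ⧸ U) with hx0
  have hfix : ∀ u, u ∈ U ↔ σ u x0 = x0 := by
    intro u
    have h1 : σ u x0 = ((u * 1 : G) : G ⧸ U) := rfl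
    rw [h1, hx0, mul_one, eq_comm, QuotientGroup.eq, inv_one, one_mul]
  have htr : ∀ x, ∃ g, σ g x0 = x := by
    intro x
    obtain ⟨g, rfl⟩ := QuotientGroup.mk_surjective x
    refine ⟨g, ?_⟩
    have h1 : σ g x0 = ((g * 1 : G) : G ⧸ U) := rfl
    rw [h1, mul_one]
  have hinvfix : ∀ u ∈ U, (σ u)⁻¹ x0 = x0 := fun u hu =>
    Equiv.Perm.inv_eq_iff_eq.2 ((hfix u).1 hu).symm
  -- evaluation at `x0`
  set ev : (Fin d → (G ⧸ U) → ZMod p) →ₗ[ZMod p] (U → ZMod p) :=
    { toFun := fun m u => L m u.1 x0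
      map_add' := fun m m' => by rw [map_add]; rfl
      map_smul' := fun c m => by rw [map_smul]; rfl } with hev
  have hrange : LinearMap.range ev = Hc p U := by
    apply le_antisymm
    · rintro _ ⟨m, rfl⟩
      obtain ⟨h1, N, hN, h2⟩ := hL m
      refine ⟨?_, N, hN, fun n hn => (h2 n.1 hn x0).1⟩
      intro a b
      show L m (a.1 * b.1) x0 = L m a.1 x0 + L m b.1 x0
      rw [h1, hinvfix a.1 a.2]
    · rintro f ⟨h1, N, hN, h2⟩
      set χ : G → ZMod p := fun g => if h : g ∈ U then f ⟨g, h⟩ else 0 with hχ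
      have hχU : ∀ u (hu : u ∈ U), χ u = f ⟨u, hu⟩ := fun u hu => dif_pos hu
      have hχm : ∀ u ∈ U, ∀ v ∈ U, χ (u * v) = χ u + χ v := by
        intro u hu v hv
        rw [hχU _ (mul_mem hu hv), hχU u hu, hχU v hv, ← h1]
        rfl
      have hχ1 : χ 1 = 0 := by
        have := hχm 1 (one_mem U) 1 (one_mem U)
        rw [mul_one] at this
        exact left_eq_add.1 this
      have hc := induced_crA U (N ⊓ U) (by rw [Subgroup.coe_inf]; exact hN.inter hU)
        inf_le_right χ hχm (fun n hn => by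
          rw [hχU n hn.2]
          exact h2 ⟨n, hn.2⟩ hn.1)
      refine ⟨fun i => fun x => χ (coc U (ι i) x), ?_⟩
      have hLe : L (fun i => fun x => χ (coc U (ι i) x)) = fun g x => χ (coc U g x) :=
        crA_ext hp hF σ _ _ (hL _) hc (fun i => hLi _ i)
      funext u
      show L (fun i => fun x => χ (coc U (ι i) x)) u.1 x0 = f u
      rw [hLe]
      show χ (coc U u.1 x0) = f u
      have ht : sct U x0 ∈ U := by
        have := sct_eq U x0
        rw [hx0, QuotientGroup.eq, mul_one] at this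
        exact inv_mem_iff.1 this
      have h3 : u.1⁻¹ • x0 = x0 := hinvfix u.1 u.2
      rw [coc, h3, hχm _ (inv_mem ht) _ (mul_mem u.2 ht), hχm _ u.2 _ ht]
      have h4 := hχm _ (inv_mem ht) _ ht
      rw [inv_mul_cancel, hχ1] at h4
      rw [hχU u.1 u.2]
      linear_combination -h4
  have hker : LinearMap.ker ev = LinearMap.range (cob (p := p) σ ι) := by
    apply le_antisymm
    · intro m hm
      have hm' : ∀ g, σ g x0 = x0 → L m g x0 = 0 := fun g hg =>
        congrFun (LinearMap.mem_ker.1 hm) ⟨g, (hfix g).2 hg⟩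
      obtain ⟨β, hβ⟩ := mem_range_cob σ x0 htr (hL m) hm'
      refine ⟨β, ?_⟩
      funext i x
      show β x - β ((σ (ι i))⁻¹ x) = m i x
      rw [← hβ, hLi]
    · rintro _ ⟨β, rfl⟩
      rw [LinearMap.mem_ker]
      funext u
      show L (cob (p := p) σ ι β) u.1 x0 = 0
      have h1 : L (cob (p := p) σ ι β) = fun g x => β x - β ((σ g)⁻¹ x) :=
        crA_ext hp hF σ _ _ (hL _) (isCrA_cob σ hσ β) (fun i => hLi _ i)
      rw [h1]
      show β x0 - β ((σ u.1)⁻¹ x0) = 0
      rw [hinvfix u.1 u.2, sub_self]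
  have hkc : LinearMap.ker (cob (p := p) σ ι) = Submodule.span (ZMod p) {fun _ => 1} := by
    apply le_antisymm
    · intro β hβ
      have h1 : (fun g x => β x - β ((σ g)⁻¹ x)) = (fun (_ : G) (_ : G ⧸ U) => (0 : ZMod p)) := by
        refine crA_ext hp hF σ _ _ (isCrA_cob σ hσ β) ⟨fun _ _ _ => by simp, ?_⟩ ?_
        · exact ⟨σ.ker, hσ, fun n hn x => ⟨rfl, by
            have h1 : σ n = 1 := hn
            rw [h1]; rfl⟩⟩
        · intro i
          exact congrFun (LinearMap.mem_ker.1 hβ) i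
      rw [Submodule.mem_span_singleton]
      refine ⟨β x0, ?_⟩
      funext x
      obtain ⟨g, hg⟩ := htr x
      have h2 := congrFun (congrFun h1 g) x
      have h3 : (σ g)⁻¹ x = x0 := Equiv.Perm.inv_eq_iff_eq.2 hg.symm
      rw [h3] at h2
      show β x0 * 1 = β x
      linear_combination -h2
    · rw [Submodule.span_singleton_le_iff_mem, LinearMap.mem_ker]
      funext i x
      show (1 : ZMod p) - 1 = 0
      ring
  have f1 := LinearMap.finrank_range_add_finrank_ker ev
  have f2 := LinearMap.finrank_range_add_finrank_ker (cob (p := p) σ ι)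
  have f3 : Module.finrank (ZMod p) (Submodule.span (ZMod p)
      {(fun _ => 1 : (G ⧸ U) → ZMod p)}) = 1 := by
    apply finrank_span_singleton
    intro h
    exact one_ne_zero (congrFun h x0)
  have f6 : Module.finrank (ZMod p) (Fin d → (G ⧸ U) → ZMod p) = d * U.index := by
    rw [Module.finrank_pi_fintype, Finset.sum_const, Finset.card_univ, Fintype.card_fin,
      Module.finrank_fintype_fun_eq_card, Subgroup.index, Nat.card_eq_fintype_card, smul_eq_mul]
  have f7 : Module.finrank (ZMod p) ((G ⧸ U) → ZMod p) = U.index := by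
    rw [Module.finrank_fintype_fun_eq_card, Subgroup.index, Nat.card_eq_fintype_card]
  rw [hrange, hker, f6] at f1
  rw [hkc, f3, f7] at f2
  refine ⟨?_, by omega⟩
  rw [← hrange]
  infer_instance

end

section

variable {p d : ℕ} {G : Type} [Group G] [TopologicalSpace G]
    [IsTopologicalGroup G] [CompactSpace G] [TotallyDisconnectedSpace G] [T2Space G]
    {ι : Fin d → G} {ρ : G →* Equiv.Perm (List (Fin p))}

namespace SelfSim

/-- The group of sections at `v` has index `p ^ |v|` or infinite index. -/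
theorem index_sec (hp : p.Prime) (hd : 2 ≤ d) (hF : FreeP p d G ι) (hS : SelfSim p G ρ)
    (v : List (Fin p)) (R : Subgroup G) (hR : ∀ h, h ∈ R ↔ ∃ g ∈ St ρ v, hS.sec v g = h) :
    R.index = 0 ∨ R.index = p ^ v.length := by
  rcases Nat.eq_zero_or_pos R.index with h0 | hpos
  · exact Or.inl h0
  right
  have := Fact.mk hp
  set U := St ρ v with hU
  have hUo : IsOpen (U : Set G) := hS.isOpen_St v
  have hUc : IsClosed (U : Set G) := Subgroup.isClosed_of_isOpen _ hUo
  have hRimg : (R : Set G) = hS.sec v '' (U : Set G) := by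
    ext h
    exact hR h
  have hRc : IsClosed (R : Set G) := by
    rw [hRimg]
    exact (hUc.isCompact.image (hS.continuous_sec v)).isClosed
  have hRfi : R.FiniteIndex := ⟨hpos.ne'⟩
  have hRo : IsOpen (R : Set G) := Subgroup.isOpen_of_isClosed_of_finiteIndex _ hRc
  choose ψ hψ hψs using fun h : R => (hR h.1).1 h.2
  have hsR : ∀ u : U, hS.sec v u.1 ∈ R := fun u => (hR _).2 ⟨u.1, u.2, rfl⟩
  have hψm : ∀ a b : R, ψ (a * b) = ψ a * ψ b := by
    intro a b
    refine hS.sec_inj hp (by omega) hF v _ _ (hψ _) (mul_mem (hψ a) (hψ b)) ?_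
    rw [hψs, hS.sec_mul_of_mem v _ _ (hψ b), hψs, hψs]
    rfl
  have hψu : ∀ u : U, ψ ⟨hS.sec v u.1, hsR u⟩ = u.1 := fun u =>
    hS.sec_inj hp (by omega) hF v _ _ (hψ _) u.2 (hψs _)
  obtain ⟨fU, eU⟩ := finrank_Hc hp hF U hUo
  obtain ⟨fR, eR⟩ := finrank_Hc hp hF R hRo
  -- the two pullbacks
  let A : Hc p R →ₗ[ZMod p] Hc p U :=
    { toFun := fun f => ⟨fun u => f.1 ⟨hS.sec v u.1, hsR u⟩, by
        obtain ⟨h1, N, hN, h2⟩ := mem_Hc.1 f.2
        refine ⟨?_, ?_⟩
        · intro a b
          show f.1 ⟨hS.sec v (a.1 * b.1), _⟩ = _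
          rw [← h1]
          exact congrArg f.1 (Subtype.ext (hS.sec_mul_of_mem v _ _ b.2))
        · refine ⟨{ carrier := {g | g ∈ U ∧ hS.sec v g ∈ N}
                    mul_mem' := fun {a b} ha hb => ⟨mul_mem ha.1 hb.1, by
                      rw [hS.sec_mul_of_mem v _ _ hb.1]
                      exact mul_mem ha.2 hb.2⟩
                    one_mem' := ⟨one_mem _, by rw [hS.sec_one]; exact one_mem _⟩
                    inv_mem' := fun {a} ha => ⟨inv_mem ha.1, by
                      have e := hS.sec_mul_of_mem v a⁻¹ a ha.1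
                      rw [inv_mul_cancel, hS.sec_one] at e
                      rw [eq_inv_of_mul_eq_one_left e.symm]
                      exact inv_mem ha.2⟩ }, ?_, ?_⟩
          · exact hUo.inter (hN.preimage (hS.continuous_sec v))
          · intro n hn
            exact h2 _ hn.2⟩
      map_add' := fun f g => rfl
      map_smul' := fun c f => rfl }
  have hA : Function.Injective A := by
    intro f g hfg
    apply Subtype.ext
    funext h
    have h1 := congrFun (congrArg Subtype.val hfg) ⟨ψ h, hψ h⟩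
    have h2 : (⟨hS.sec v (ψ h), hsR ⟨ψ h, hψ h⟩⟩ : R) = h := Subtype.ext (hψs h)
    have h3 : f.1 ⟨hS.sec v (ψ h), hsR ⟨ψ h, hψ h⟩⟩ = g.1 ⟨hS.sec v (ψ h), hsR ⟨ψ h, hψ h⟩⟩ := h1
    rwa [h2] at h3
  let B : Hc p U →ₗ[ZMod p] Hc p R :=
    { toFun := fun f => ⟨fun h => f.1 ⟨ψ h, hψ h⟩, by
        obtain ⟨h1, N, hN, h2⟩ := mem_Hc.1 f.2
        refine ⟨?_, ?_⟩
        · intro a b
          show f.1 ⟨ψ (a * b), _⟩ = _
          rw [← h1]
          exact congrArg f.1 (Subtype.ext (hψm a b))
        · refine ⟨{ carrier := {h | ∃ u ∈ U, u ∈ N ∧ hS.sec v u = h}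
                    mul_mem' := ?_
                    one_mem' := ⟨1, one_mem _, one_mem _, hS.sec_one v⟩
                    inv_mem' := ?_ }, ?_, ?_⟩
          · rintro _ _ ⟨a, ha, ha', rfl⟩ ⟨b, hb, hb', rfl⟩
            exact ⟨a * b, mul_mem ha hb, mul_mem ha' hb', hS.sec_mul_of_mem v _ _ hb⟩
          · rintro _ ⟨a, ha, ha', rfl⟩
            refine ⟨a⁻¹, inv_mem ha, inv_mem ha', ?_⟩
            have e := hS.sec_mul_of_mem v a⁻¹ a ha
            rw [inv_mul_cancel, hS.sec_one] at e
            exact eq_inv_of_mul_eq_one_left e.symm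
          · have hcl : IsClosed (hS.sec v '' ((U : Set G) ∩ (N : Set G)ᶜ)) :=
              ((hUc.inter hN.isClosed_compl).isCompact.image (hS.continuous_sec v)).isClosed
            have : {h | ∃ u ∈ U, u ∈ N ∧ hS.sec v u = h} =
                (R : Set G) ∩ (hS.sec v '' ((U : Set G) ∩ (N : Set G)ᶜ))ᶜ := by
              ext h
              constructor
              · rintro ⟨u, hu, hu', rfl⟩
                refine ⟨hsR ⟨u, hu⟩, ?_⟩
                rintro ⟨w, ⟨hw, hw'⟩, he⟩
                rw [hS.sec_inj hp (by omega) hF v w u hw hu he] at hw'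
                exact hw' hu'
              · rintro ⟨hh, hh'⟩
                by_contra hcon
                apply hh'
                refine ⟨ψ ⟨h, hh⟩, ⟨hψ _, fun hN' => hcon ⟨_, hψ _, hN', hψs _⟩⟩, hψs _⟩
            show IsOpen {h | ∃ u ∈ U, u ∈ N ∧ hS.sec v u = h}
            rw [this]
            exact hRo.inter hcl.isOpen_compl
          · rintro n ⟨u, hu, hu', he⟩
            apply h2
            have : ψ n = u := by
              refine hS.sec_inj hp (by omega) hF v _ _ (hψ _) hu ?_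
              rw [hψs, he]
            show ψ n ∈ N
            rw [this]
            exact hu'⟩
      map_add' := fun f g => rfl
      map_smul' := fun c f => rfl }
  have hB : Function.Injective B := by
    intro f g hfg
    apply Subtype.ext
    funext u
    have h1 := congrFun (congrArg Subtype.val hfg) ⟨hS.sec v u.1, hsR u⟩
    have h2 : (⟨ψ ⟨hS.sec v u.1, hsR u⟩, hψ _⟩ : U) = u := Subtype.ext (hψu u)
    have h3 : f.1 ⟨ψ ⟨hS.sec v u.1, hsR u⟩, hψ _⟩ = g.1 ⟨ψ ⟨hS.sec v u.1, hsR u⟩, hψ _⟩ := h1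
    rwa [h2] at h3
  have l1 := LinearMap.finrank_le_finrank_of_injective hA
  have l2 := LinearMap.finrank_le_finrank_of_injective hB
  have heq : Module.finrank (ZMod p) (Hc p R) = Module.finrank (ZMod p) (Hc p U) :=
    le_antisymm l1 l2
  rw [heq] at eR
  have hUi := hS.index_St hp (by omega) hF v
  rw [← hU] at hUi
  rw [← hUi]
  obtain ⟨a, rfl⟩ : ∃ a, d = a + 2 := ⟨d - 2, by omega⟩
  have h1 : (a + 1) * R.index = (a + 1) * U.index := by
    have e1 : (a + 2) * R.index = (a + 1) * R.index + R.index := by ring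
    have e2 : (a + 2) * U.index = (a + 1) * U.index + U.index := by ring
    rw [e1] at eR
    rw [e2] at eU
    omega
  exact Nat.eq_of_mul_eq_mul_left (Nat.succ_pos a) h1

end SelfSim

end

end Pdb20
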