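import Mathlib
import Pool.Agent.Lib.Pdb20.Schr

/-!
# Faithful self-similar actions of free pro-`p` groups are not contracting
-/

set_option autoImplicit false

namespace Pdb20

section

variable {p d : ℕ} {G : Type} [Group G] [TopologicalSpace G]
    [IsTopologicalGroup G] {ι : Fin d → G}

/-- The positive word in two generators. -/
def wd (a b : G) (w : List Bool) : G := (w.map (fun c => if c then a else b)).prod

omit [TopologicalSpace G] [IsTopologicalGroup G] in
theorem wd_cons (a b : G) (c : Bool) (w : List Bool) :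
    wd a b (c :: w) = (if c then a else b) * wd a b w := by
  simp [wd]

/-- Different positive words of the same length in two free generators are different. -/
theorem wd_inj (hp : p.Prime) (hF : FreeP p d G ι) (i j : Fin d) (hij : i ≠ j) (n : ℕ)
    (w w' : List Bool) (hw : w.length = n) (hw' : w'.length = n)
    (h : wd (ι i) (ι j) w = wd (ι i) (ι j) w') : w = w' := by
  classical
  have := Fact.mk hp
  set q := p ^ n with hq
  have hnq : n < q := Nat.lt_pow_self hp.one_lt
  have hq0 : q ≠ 0 := by omega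
  have : NeZero q := ⟨hq0⟩
  have : Finite (Multiplicative (ZMod q)) := inferInstanceAs (Finite (ZMod q))
  have hH : IsPGroup p (Multiplicative (ZMod q)) := by
    rw [IsPGroup.iff_card]
    exact ⟨n, by rw [Nat.card_congr Multiplicative.toAdd, Nat.card_zmod]⟩
  obtain ⟨θ, hθ, hθi⟩ := hF.ex _ hH (fun _ => Multiplicative.ofAdd 1)
  set σ : G →* Equiv.Perm (ZMod q) :=
    { toFun := fun g => Equiv.addLeft (Multiplicative.toAdd (θ g))
      map_one' := by
        rw [map_one]
        apply Equiv.ext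
        intro x
        simp
      map_mul' := fun g g' => by
        rw [map_mul]
        apply Equiv.ext
        intro x
        simp [add_assoc] } with hσ
  have hσo : IsOpen (σ.ker : Set G) := by
    refine ker_open_of σ θ.ker hθ ?_
    intro g hg
    have h1 : θ g = 1 := hg
    apply Equiv.ext
    intro x
    show Multiplicative.toAdd (θ g) + x = x
    rw [h1, toAdd_one, zero_add]
  have hσi : ∀ k x, (σ (ι k))⁻¹ x = x - 1 := by
    intro k x
    rw [Equiv.Perm.inv_eq_iff_eq]
    show x = Multiplicative.toAdd (θ (ι k)) + (x - 1)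
    rw [hθi, toAdd_ofAdd]
    ring
  obtain ⟨B, hB, hBi⟩ := exists_crA (p := p) hp hF σ hσo
    (fun k x => if k = i ∧ x = 0 then 1 else 0)
  have hB1 : ∀ x, B 1 x = 0 := by
    intro x
    have := hB.1 1 1 x
    rw [mul_one, map_one] at this
    exact left_eq_add.1 this
  have hstep : ∀ (c : Bool) (u : List Bool) (x : ZMod q), B (wd (ι i) (ι j) (c :: u)) x =
      (if c = true ∧ x = 0 then 1 else 0) + B (wd (ι i) (ι j) u) (x - 1) := by
    intro c u x
    rw [wd_cons]
    cases c
    · simp only [Bool.false_eq_true, if_false, false_and]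
      rw [hB.1, hBi, hσi]
      show (if j = i ∧ x = 0 then (1 : ZMod p) else 0) + _ = _
      rw [if_neg (fun h => hij h.1.symm)]
    · simp only [if_true, true_and]
      rw [hB.1, hBi, hσi]
      simp
  have key : ∀ (u : List Bool), u.length ≤ q → ∀ k, k < q →
      B (wd (ι i) (ι j) u) ((k : ℕ) : ZMod q) = if u.getD k false = true then 1 else 0 := by
    intro u
    induction u with
    | nil =>
      intro _ k _
      have : wd (ι i) (ι j) [] = 1 := rfl
      rw [this, hB1]
      simp
    | cons c u ih =>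
      intro hu k hk
      simp only [List.length_cons] at hu
      rw [hstep]
      rcases k with _ | k
      · have e : ((0 : ℕ) : ZMod q) - 1 = ((q - 1 : ℕ) : ZMod q) := by
          rw [Nat.cast_sub (by omega), Nat.cast_zero, Nat.cast_one, ZMod.natCast_self]
        rw [e, ih (by omega) (q - 1) (by omega), List.getD_eq_default _ _ (by omega)]
        cases c <;> simp
      · have hne : ((k + 1 : ℕ) : ZMod q) ≠ 0 := by
          intro h0
          rw [ZMod.natCast_eq_zero_iff] at h0
          exact absurd (Nat.le_of_dvd (by omega) h0) (by omega)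
        have e : ((k + 1 : ℕ) : ZMod q) - 1 = ((k : ℕ) : ZMod q) := by
          push_cast; ring
        rw [e, ih (by omega) k (by omega), if_neg (fun h => hne h.2), zero_add,
          List.getD_cons_succ]
  apply List.ext_getElem (by rw [hw, hw'])
  intro k hk hk'
  have h1 := key w (by omega) k (by omega)
  have h2 := key w' (by omega) k (by omega)
  rw [h, h2, List.getD_eq_getElem _ _ hk, List.getD_eq_getElem _ _ hk'] at h1
  have h10 : (1 : ZMod p) ≠ 0 := one_ne_zero
  cases hwk : w[k] <;> cases hwk' : w'[k] <;> rw [hwk, hwk'] at h1 <;> simp_all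

end

section

variable {p d : ℕ} {G : Type} [Group G] [TopologicalSpace G]
    [IsTopologicalGroup G] [CompactSpace G] [TotallyDisconnectedSpace G] [T2Space G]
    {ι : Fin d → G} {ρ : G →* Equiv.Perm (List (Fin p))}

/-- Products of `m` elements of `A`. -/
def Pr (A : Set G) (m : ℕ) (g : G) : Prop :=
  ∃ l : List G, l.length = m ∧ (∀ a ∈ l, a ∈ A) ∧ l.prod = g

theorem exists_big (c M : ℕ) : ∃ j : ℕ, c * j + M < 2 ^ j := by
  set t := c + M + 1 with ht
  refine ⟨4 * t, ?_⟩
  have h1 : t + 1 ≤ 2 ^ t := Nat.succ_le_of_lt Nat.lt_two_pow_self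
  have h2 : (t + 1) ^ 4 ≤ 2 ^ (4 * t) := by
    calc (t + 1) ^ 4 ≤ (2 ^ t) ^ 4 := Nat.pow_le_pow_left h1 4
      _ = 2 ^ (4 * t) := by rw [← pow_mul, mul_comm]
  have h3 : c * (4 * t) + M < (t + 1) ^ 4 := by
    have hc : c ≤ t := by omega
    have hM : M ≤ t := by omega
    have ht1 : 1 ≤ t := by omega
    calc c * (4 * t) + M ≤ t * (4 * t) + t := Nat.add_le_add (Nat.mul_le_mul_right _ hc) hM
      _ < (t + 1) ^ 4 := by nlinarith [Nat.zero_le (t ^ 4), Nat.zero_le (t ^ 3), Nat.zero_le (t ^ 2)]
  omega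

namespace SelfSim

/-- A self-similar (abstract) subgroup containing two free generators is not contracting. -/
theorem not_contracting (hp : p.Prime) (hd : 1 ≤ d) (hF : FreeP p d G ι) (hS : SelfSim p G ρ)
    (i j : Fin d) (hij : i ≠ j) (Γ : Subgroup G) (hi : ι i ∈ Γ) (hj : ι j ∈ Γ)
    (hΓ : ∀ g ∈ Γ, ∀ v, hS.sec v g ∈ Γ) (N : Set G) (hN : N.Finite)
    (hc : ∀ g ∈ Γ, ∃ n : ℕ, ∀ v : List (Fin p), n ≤ v.length → hS.sec v g ∈ N) : False := by
  classical
  set N' := N ∩ (Γ : Set G) with hN'
  have hN'f : N'.Finite := hN.subset Set.inter_subset_left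
  have hc' : ∀ g ∈ Γ, ∃ n : ℕ, ∀ v : List (Fin p), n ≤ v.length → hS.sec v g ∈ N' := by
    intro g hg
    obtain ⟨n, hn⟩ := hc g hg
    exact ⟨n, fun v hv => ⟨hn v hv, hΓ g hg v⟩⟩
  set S' : Set G := {ι i, ι j} ∪ N' with hS'
  have hS'f : S'.Finite := (Set.toFinite _).union hN'f
  have hS'Γ : ∀ s ∈ S', s ∈ Γ := by
    rintro s ((rfl | rfl) | hs)
    · exact hi
    · exact hj
    · exact hs.2
  set A : Set G := ⋃ s ∈ S', Set.range (fun v => hS.sec v s) with hA
  have hAf : A.Finite := by
    refine hS'f.biUnion fun s hs => ?_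
    obtain ⟨n, hn⟩ := hc' s (hS'Γ s hs)
    have hfin : {v : List (Fin p) | v.length < n}.Finite := List.finite_length_lt (Fin p) n
    refine (hN'f.union (hfin.image (fun v => hS.sec v s))).subset ?_
    rintro _ ⟨v, rfl⟩
    rcases le_or_gt n v.length with h | h
    · exact Or.inl (hn v h)
    · exact Or.inr ⟨v, h, rfl⟩
  have hAmem : ∀ h, h ∈ A ↔ ∃ s ∈ S', ∃ v, hS.sec v s = h := by
    intro h
    simp only [hA, Set.mem_iUnion, Set.mem_range, exists_prop]
  have hS'A : ∀ s ∈ S', s ∈ A := fun s hs => (hAmem s).2 ⟨s, hs, [], hS.sec_nil s⟩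
  have hAΓ : ∀ a ∈ A, a ∈ Γ := by
    intro a ha
    obtain ⟨s, hs, v, rfl⟩ := (hAmem a).1 ha
    exact hΓ s (hS'Γ s hs) v
  have hAsec : ∀ a ∈ A, ∀ v, hS.sec v a ∈ A := by
    intro a ha v
    obtain ⟨s, hs, u, rfl⟩ := (hAmem a).1 ha
    exact (hAmem _).2 ⟨s, hs, u ++ v, hS.sec_append u v s⟩
  -- a common level
  obtain ⟨K, hK⟩ : ∃ K : ℕ, ∀ a ∈ A, ∀ b ∈ A, ∀ v : List (Fin p), v.length = K →
      hS.sec v (a * b) ∈ A := by
    have h1 : ∀ q : G × G, ∃ n : ℕ, q.1 ∈ A → q.2 ∈ A → ∀ v : List (Fin p), n ≤ v.length →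
        hS.sec v (q.1 * q.2) ∈ N' := by
      intro q
      by_cases hq : q.1 ∈ A ∧ q.2 ∈ A
      · obtain ⟨n, hn⟩ := hc' (q.1 * q.2) (mul_mem (hAΓ _ hq.1) (hAΓ _ hq.2))
        exact ⟨n, fun _ _ => hn⟩
      · exact ⟨0, fun ha hb => absurd ⟨ha, hb⟩ hq⟩
    choose f hf using h1
    obtain ⟨K, hK⟩ := ((hAf.prod hAf).image f).bddAbove
    refine ⟨K, fun a ha b hb v hv => hS'A _ (Or.inr ?_)⟩
    refine hf (a, b) ha hb v ?_
    rw [hv]
    exact hK ⟨(a, b), ⟨ha, hb⟩, rfl⟩
  -- halving
  have hhalf : ∀ (m : ℕ) (g : G), Pr A (2 * m) g → ∀ v : List (Fin p), v.length = K →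
      Pr A m (hS.sec v g) := by
    intro m
    induction m with
    | zero =>
      rintro g ⟨l, hl, -, rfl⟩ v _
      have hl' : l = [] := List.length_eq_zero_iff.1 (by simpa using hl)
      subst hl'
      rw [List.prod_nil, hS.sec_one]
      exact ⟨[], rfl, by simp, rfl⟩
    | succ m ih =>
      rintro g ⟨l, hl, hlA, rfl⟩ v hv
      rcases l with _ | ⟨a, _ | ⟨b, l⟩⟩
      · simp at hl
      · simp only [List.length_cons, List.length_nil] at hl
        omega
      · have hl' : l.length = 2 * m := by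
          simp only [List.length_cons] at hl
          omega
        obtain ⟨l', hl1, hl2, hl3⟩ := ih l.prod ⟨l, hl', fun c hc => hlA c (by simp [hc]), rfl⟩
          v hv
        refine ⟨hS.sec (ρ l.prod v) (a * b) :: l', by rw [List.length_cons, hl1], ?_, ?_⟩
        · intro c hc
          rcases List.mem_cons.1 hc with rfl | hc
          · exact hK a (hlA a (by simp)) b (hlA b (by simp)) _ (by rw [hS.length, hv])
          · exact hl2 c hc
        · rw [List.prod_cons, hl3, List.prod_cons, List.prod_cons, ← mul_assoc,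
            hS.sec_mul v (a * b) l.prod]
  have hpow : ∀ (j : ℕ) (g : G), Pr A (2 ^ j) g → ∀ v : List (Fin p), v.length = j * K →
      hS.sec v g ∈ A := by
    intro j
    induction j with
    | zero =>
      rintro g ⟨l, hl, hlA, rfl⟩ v hv
      obtain ⟨a, rfl⟩ := List.length_eq_one_iff.1 (by simpa using hl)
      rw [List.prod_singleton]
      exact hAsec a (hlA a (by simp)) v
    | succ j ih =>
      intro g hg v hv
      have hv' : v = v.take K ++ v.drop K := (List.take_append_drop K v).symm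
      have hKv : K ≤ v.length := by rw [hv]; nlinarith
      rw [hv', hS.sec_append]
      refine ih _ (hhalf (2 ^ j) g ?_ _ ?_) _ ?_
      · rw [pow_succ, mul_comm] at hg
        exact hg
      · rw [List.length_take]; omega
      · rw [List.length_drop, hv]
        have : (j + 1) * K = j * K + K := by ring
        omega
  -- counting
  have hAfin : Finite A := hAf
  obtain ⟨J, hJ⟩ := exists_big (p * K) (Nat.card A)
  set x : Fin p := ⟨0, hp.pos⟩
  set v : List (Fin p) := List.replicate (J * K) x with hv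
  have hvl : v.length = J * K := List.length_replicate
  have hwA : ∀ w : List.Vector Bool (2 ^ J), hS.sec v (wd (ι i) (ι j) w.1) ∈ A := by
    intro w
    refine hpow J _ ⟨w.1.map (fun c => if c then ι i else ι j), ?_, ?_, rfl⟩ v hvl
    · rw [List.length_map, w.2]
    · intro a ha
      obtain ⟨c, -, rfl⟩ := List.mem_map.1 ha
      apply hS'A
      cases c
      · exact Or.inl (Or.inr rfl)
      · exact Or.inl (Or.inl rfl)
  set F : List.Vector Bool (2 ^ J) → List.Vector (Fin p) (J * K) × A := fun w =>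
      ((⟨ρ (wd (ι i) (ι j) w.1) v, by rw [hS.length, hvl]⟩ : List.Vector (Fin p) (J * K)),
        (⟨_, hwA w⟩ : A)) with hF'
  have hinj : Function.Injective F := by
    intro w w' h
    have h1 : ρ (wd (ι i) (ι j) w.1) v = ρ (wd (ι i) (ι j) w'.1) v :=
      congrArg (fun q : List.Vector (Fin p) (J * K) × A => q.1.1) h
    have h2 : hS.sec v (wd (ι i) (ι j) w.1) = hS.sec v (wd (ι i) (ι j) w'.1) :=
      congrArg (fun q : List.Vector (Fin p) (J * K) × A => q.2.1) h
    apply Subtype.ext
    refine wd_inj hp hF i j hij (2 ^ J) w.1 w'.1 w.2 w'.2 ?_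
    have h3 : (wd (ι i) (ι j) w'.1)⁻¹ * wd (ι i) (ι j) w.1 = 1 := by
      apply hS.rigid hp hd hF v
      intro u
      rw [map_mul, Equiv.Perm.mul_apply, hS.sec_spec, h1, h2, ← hS.sec_spec, map_inv]
      exact (ρ (wd (ι i) (ι j) w'.1)).symm_apply_apply _
    exact (inv_mul_eq_one.1 h3).symm
  have hcard := Nat.card_le_card_of_injective F hinj
  have hb : Nat.card (List.Vector Bool (2 ^ J)) = 2 ^ (2 ^ J) := by
    rw [Nat.card_eq_fintype_card, card_vector, Fintype.card_bool]
  rw [Nat.card_prod, card_vec, hb] at hcard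
  have e1 : p ^ (J * K) ≤ 2 ^ (p * K * J) := by
    calc p ^ (J * K) ≤ (2 ^ p) ^ (J * K) := Nat.pow_le_pow_left (Nat.lt_two_pow_self).le _
      _ = 2 ^ (p * K * J) := by rw [← pow_mul]; congr 1; ring
  have e2 : Nat.card A ≤ 2 ^ Nat.card A := (Nat.lt_two_pow_self).le
  have e3 : 2 ^ (2 ^ J) ≤ 2 ^ (p * K * J + Nat.card A) := by
    rw [pow_add]
    exact hcard.trans (Nat.mul_le_mul e1 e2)
  have e4 := (Nat.pow_le_pow_iff_right (by norm_num : 1 < 2)).1 e3
  omega

end SelfSim

end

end Pdb20
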