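import Mathlib
import Pool.Agent.Lib.Pdb20.Contr

/-!
# Lifting homomorphisms of open subgroups; non-commuting elements are free
-/

set_option autoImplicit false

namespace Pdb20

open Subgroup

/-- A character of `⟨a, b⟩` killing `a` and sending `b` to `1`, for `b ∉ ⟨a⟩`. -/
theorem exists_char2 {p : ℕ} (hp : p.Prime) {Q : Type} [Group Q] [Finite Q] (hQ : IsPGroup p Q)
    (a b : Q) (hba : b ∉ zpowers a) :
    ∃ χ : Q → ZMod p, (∀ x ∈ Subgroup.closure {a, b}, ∀ y ∈ Subgroup.closure {a, b},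
      χ (x * y) = χ x + χ y) ∧ χ a = 0 ∧ χ b = 1 := by
  classical
  have := Fact.mk hp
  set C : Subgroup Q := Subgroup.closure {a, b} with hC
  have haC : a ∈ C := Subgroup.subset_closure (by simp)
  have hbC : b ∈ C := Subgroup.subset_closure (by simp)
  set a' : C := ⟨a, haC⟩
  set b' : C := ⟨b, hbC⟩
  have hCP : IsPGroup p C := hQ.to_subgroup C
  have hgenC : Subgroup.closure ({a', b'} : Set C) = ⊤ := by
    have h1 : ({a', b'} : Set C) = ((↑) : C → Q) ⁻¹' ({a, b} : Set Q) := by
      ext x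
      simp only [Set.mem_insert_iff, Set.mem_singleton_iff, Set.mem_preimage]
      constructor
      · rintro (rfl | rfl)
        · exact Or.inl rfl
        · exact Or.inr rfl
      · rintro (h | h)
        · exact Or.inl (Subtype.ext h)
        · exact Or.inr (Subtype.ext h)
    rw [h1]
    exact Subgroup.closure_closure_coe_preimage
  have hproper : zpowers a' ≠ ⊤ := by
    intro h
    have h1 : b' ∈ zpowers a' := by rw [h]; trivial
    obtain ⟨k, hk⟩ := mem_zpowers_iff.1 h1
    apply hba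
    refine mem_zpowers_iff.2 ⟨k, ?_⟩
    have := congrArg Subtype.val hk
    simpa using this
  obtain ⟨M, hM, haM⟩ := (eq_top_or_exists_le_coatom (zpowers a')).resolve_left hproper
  have hbM : b' ∉ M := by
    intro hb
    apply hM.1
    rw [eq_top_iff, ← hgenC, Subgroup.closure_le]
    rintro x (rfl | rfl)
    · exact haM (mem_zpowers _)
    · exact hb
  have hnil : Group.IsNilpotent C := hCP.isNilpotent
  have hMn : M.Normal :=
    Subgroup.NormalizerCondition.normal_of_coatom M Group.normalizerCondition_of_isNilpotent hM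
  set q : C ⧸ M := QuotientGroup.mk b' with hq
  have hq1 : q ≠ 1 := by
    intro h
    rw [hq, QuotientGroup.eq_one_iff] at h
    exact hbM h
  have hgen : ∀ x : C ⧸ M, x ∈ zpowers q := by
    set K : Subgroup C := (zpowers q).comap (QuotientGroup.mk' M) with hK
    have hMK : M < K := by
      refine lt_of_le_of_ne ?_ ?_
      · intro m hm
        rw [hK, Subgroup.mem_comap]
        have : QuotientGroup.mk' M m = 1 := (QuotientGroup.eq_one_iff m).2 hm
        rw [this]
        exact one_mem _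
      · intro h
        apply hbM
        rw [h, hK, Subgroup.mem_comap]
        exact mem_zpowers _
    have hKt : K = ⊤ := hM.2 K hMK
    intro x
    obtain ⟨c, rfl⟩ := QuotientGroup.mk_surjective x
    have : c ∈ K := by rw [hKt]; trivial
    exact this
  have hpq : p ∣ orderOf q := by
    have hP : IsPGroup p (C ⧸ M) := hCP.to_quotient M
    obtain ⟨k, hk⟩ := IsPGroup.iff_orderOf.1 hP q
    rw [hk]
    rcases k with _ | k
    · rw [pow_zero, orderOf_eq_one_iff] at hk
      exact absurd hk hq1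
    · exact dvd_pow_self p (Nat.succ_ne_zero k)
  have ho : orderOf (Multiplicative.ofAdd (1 : ZMod p)) ∣ orderOf q := by
    rw [orderOf_ofAdd_eq_addOrderOf, ZMod.addOrderOf_one]
    exact hpq
  set ψ := monoidHomOfForallMemZpowers hgen ho with hψ
  refine ⟨fun x => if h : x ∈ C then Multiplicative.toAdd (ψ (QuotientGroup.mk ⟨x, h⟩)) else 0,
    ?_, ?_, ?_⟩
  · intro x hx y hy
    simp only [dif_pos hx, dif_pos hy, dif_pos (mul_mem hx hy)]
    rw [← toAdd_mul, ← map_mul]
    rfl
  · simp only [dif_pos haC]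
    have : (QuotientGroup.mk (⟨a, haC⟩ : C) : C ⧸ M) = 1 := by
      rw [QuotientGroup.eq_one_iff]
      exact haM (mem_zpowers _)
    rw [this, map_one]
    rfl
  · simp only [dif_pos hbC]
    have : ψ q = Multiplicative.ofAdd (1 : ZMod p) := monoidHomOfForallMemZpowers_apply_gen hgen ho
    rw [show (QuotientGroup.mk (⟨b, hbC⟩ : C) : C ⧸ M) = q from rfl, this]
    rfl

section

variable {p d : ℕ} (hp : p.Prime) {G : Type} [Group G] [TopologicalSpace G]
    [IsTopologicalGroup G] [CompactSpace G] {ι : Fin d → G} (hF : FreeP p d G ι)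

/-- A homomorphism from a subgroup of `G` that is trivial on an open subgroup. -/
def OpenHom {G E : Type} [Group G] [TopologicalSpace G] [Group E] (U : Subgroup G)
    (f : U →* E) : Prop :=
  ∃ N : Subgroup G, IsOpen (N : Set G) ∧ ∀ u : U, (u : G) ∈ N → f u = 1

include hp hF in
/-- Open subgroups of a free pro-`p` group are projective for finite `p`-groups. -/
theorem lift_hom (U : Subgroup G) (hU : IsOpen (U : Set G)) {E Q : Type} [Group E] [Finite E]
    [Group Q] [Finite Q] (hE : IsPGroup p E) (π : E →* Q) (hπ : Function.Surjective π)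
    (f : U →* Q) (hf : OpenHom U f) : ∃ f' : U →* E, OpenHom U f' ∧ ∀ u, π (f' u) = f u := by
  classical
  have := Fact.mk hp
  have hQ : IsPGroup p Q := hE.of_surjective π hπ
  obtain ⟨N, hN, hfN⟩ := hf
  have hfin : Finite (G ⧸ U) := U.quotient_finite_of_isOpen hU
  set σ := MulAction.toPermHom G (G ⧸ U) with hσdef
  have hσ : IsOpen (σ.ker : Set G) := by
    refine ker_open_of σ U.normalCore (open_core U hU) ?_
    intro n hn
    exact Equiv.ext fun x =>
      smul_eq_of_mem_core U U.normalCore inferInstance U.normalCore_le n hn x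
  set Bf : G → (G ⧸ U) → Q := fun g x => f ⟨coc U g x, coc_mem U g x⟩ with hBf
  have hNU : IsOpen ((N ⊓ U : Subgroup G) : Set G) := by
    rw [Subgroup.coe_inf]; exact hN.inter hU
  have hcr : IsCr σ Bf := by
    refine ⟨?_, (N ⊓ U).normalCore, open_core _ hNU, ?_⟩
    · intro g h x
      show f ⟨coc U (g * h) x, _⟩ = f ⟨coc U g x, _⟩ * f ⟨coc U h (g⁻¹ • x), _⟩
      rw [← map_mul]
      exact congrArg f (Subtype.ext (coc_mul U g h x))
    · intro n hn x
      have hx : ∀ m ∈ (N ⊓ U).normalCore, m • x = x := fun m hm =>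
        smul_eq_of_mem_core U (N ⊓ U).normalCore inferInstance
          ((N ⊓ U).normalCore_le.trans inf_le_right) m hm x
      refine ⟨?_, hx n hn⟩
      apply hfN
      show coc U n x ∈ N
      rw [coc, hx _ (inv_mem hn), ← mul_assoc]
      have := (N ⊓ U).normalCore_normal.conj_mem n hn (sct U x)⁻¹
      rw [inv_inv] at this
      exact ((N ⊓ U).normalCore_le this).1
  choose sc hsc using hπ
  obtain ⟨B, hB, hBi⟩ := exists_cr hp hF hE σ hσ (fun i x => sc (Bf (ι i) x))
  have hπB : (fun g x => π (B g x)) = Bf := by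
    refine cr_ext hp hF hQ σ _ _ ⟨?_, ?_⟩ hcr ?_
    · intro g h x
      show π (B (g * h) x) = _
      rw [hB.1, map_mul]
    · obtain ⟨M, hM, hM'⟩ := hB.2
      exact ⟨M, hM, fun n hn x => ⟨by
        show π (B n x) = 1
        rw [(hM' n hn x).1, map_one], (hM' n hn x).2⟩⟩
    · intro i
      funext x
      show π (B (ι i) x) = _
      rw [hBi, hsc]
  set x0 : G ⧸ U := ((1 : G) : G ⧸ U) with hx0
  have hfix : ∀ u ∈ U, u⁻¹ • x0 = x0 := by
    intro u hu
    have : u⁻¹ • x0 = ((u⁻¹ * 1 : G) : G ⧸ U) := rfl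
    rw [this, hx0, QuotientGroup.eq, mul_one, mul_one, inv_inv]
    exact hu
  have ht : sct U x0 ∈ U := by
    have := sct_eq U x0
    rw [hx0, QuotientGroup.eq, mul_one] at this
    exact inv_mem_iff.1 this
  set t : U := ⟨sct U x0, ht⟩ with htdef
  have hBmul : ∀ u ∈ U, ∀ v ∈ U, B (u * v) x0 = B u x0 * B v x0 := by
    intro u hu v hv
    have := hB.1 u v x0
    have h' : (σ u)⁻¹ x0 = x0 := hfix u hu
    rwa [h'] at this
  set e := sc (f t) with he
  refine ⟨MonoidHom.mk' (fun u : U => e * B u.1 x0 * e⁻¹) ?_, ?_, ?_⟩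
  · intro u v
    show e * B (u.1 * v.1) x0 * e⁻¹ = _
    rw [hBmul u.1 u.2 v.1 v.2]
    group
  · obtain ⟨M, hM, hM'⟩ := hB.2
    refine ⟨M, hM, ?_⟩
    intro u hu
    show e * B u.1 x0 * e⁻¹ = 1
    rw [(hM' u.1 hu x0).1, mul_one, mul_inv_cancel]
  · intro u
    show π (e * B u.1 x0 * e⁻¹) = f u
    rw [map_mul, map_mul, map_inv, he, hsc]
    have h1 : π (B u.1 x0) = f ⟨coc U u.1 x0, coc_mem U u.1 x0⟩ :=
      congrFun (congrFun hπB u.1) x0
    have h2 : (⟨coc U u.1 x0, coc_mem U u.1 x0⟩ : U) = t⁻¹ * u * t := by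
      apply Subtype.ext
      show coc U u.1 x0 = (sct U x0)⁻¹ * u.1 * sct U x0
      rw [coc, hfix u.1 u.2, mul_assoc]
    rw [h1, h2, map_mul, map_mul, map_inv]
    group

variable [TotallyDisconnectedSpace G]

include hp hF in
/-- Two elements neither of which lies in the procyclic subgroup generated by the other one can be
mapped to any two elements of any finite `p`-group by a homomorphism of an open subgroup. -/
theorem free_pair (a b : G) (h₁ : a ∉ _root_.closure (zpowers b : Set G))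
    (h₂ : b ∉ _root_.closure (zpowers a : Set G)) :
    ∃ (U : Subgroup G) (ha : a ∈ U) (hb : b ∈ U), ∀ (n : ℕ) (E : Type) [Group E] [Finite E],
      IsPGroup p E → Nat.card E = n → ∀ α β : E, ∃ f : U →* E, OpenHom U f ∧
        f ⟨a, ha⟩ = α ∧ f ⟨b, hb⟩ = β := by
  obtain ⟨V₁, hV₁, hV₁n, h₁⟩ := mem_closure_zpowers_aux a b h₁
  obtain ⟨V₂, hV₂, hV₂n, h₂⟩ := mem_closure_zpowers_aux b a h₂
  set V : Subgroup G := V₁ ⊓ V₂ with hVdef
  have hV : IsOpen (V : Set G) := by
    rw [hVdef, Subgroup.coe_inf]; exact hV₁.inter hV₂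
  have hVn : V.Normal := Subgroup.normal_inf_normal V₁ V₂
  have := Fact.mk hp
  have hfin : Finite (G ⧸ V) := V.quotient_finite_of_isOpen hV
  have hQ : IsPGroup p (G ⧸ V) := by
    obtain ⟨k, hk⟩ := hF.idx V hV hVn
    rw [IsPGroup.iff_card]
    exact ⟨k, by rw [← hk]; rfl⟩
  set π := QuotientGroup.mk' V with hπ
  have hπker : ∀ x, π x = 1 ↔ x ∈ V := fun x => QuotientGroup.eq_one_iff x
  have nb : π b ∉ zpowers (π a) := by
    intro h
    obtain ⟨k, hk⟩ := mem_zpowers_iff.1 h
    apply h₂ k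
    have : π (b⁻¹ * a ^ k) = 1 := by rw [map_mul, map_inv, map_zpow, hk, inv_mul_cancel]
    exact ((hπker _).1 this).2
  have na : π a ∉ zpowers (π b) := by
    intro h
    obtain ⟨k, hk⟩ := mem_zpowers_iff.1 h
    apply h₁ k
    have : π (a⁻¹ * b ^ k) = 1 := by rw [map_mul, map_inv, map_zpow, hk, inv_mul_cancel]
    exact ((hπker _).1 this).1
  obtain ⟨χ₁, c₁, a₁, b₁⟩ := exists_char2 hp hQ (π a) (π b) nb
  obtain ⟨χ₂, c₂, b₂, a₂⟩ := exists_char2 hp hQ (π b) (π a) na
  rw [Set.pair_comm] at c₂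
  set U : Subgroup G := (Subgroup.closure {π a, π b}).comap π with hU
  have hNU : V ≤ U := by
    intro v hv
    rw [hU, Subgroup.mem_comap, (hπker v).2 hv]
    exact one_mem _
  have hUo : IsOpen (U : Set G) := Subgroup.isOpen_mono hNU hV
  have haU : a ∈ U := by
    rw [hU, Subgroup.mem_comap]; exact Subgroup.subset_closure (by simp)
  have hbU : b ∈ U := by
    rw [hU, Subgroup.mem_comap]; exact Subgroup.subset_closure (by simp)
  have hz : ∀ χ : G ⧸ V → ZMod p, (∀ x ∈ Subgroup.closure {π a, π b},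
      ∀ y ∈ Subgroup.closure {π a, π b},
      χ (x * y) = χ x + χ y) → ∀ n ∈ V, χ (π n) = 0 := by
    intro χ h n hn
    rw [(hπker n).2 hn]
    have := h 1 (one_mem _) 1 (one_mem _)
    rw [mul_one] at this
    exact (left_eq_add.1 this)
  refine ⟨U, haU, hbU, ?_⟩
  intro n
  induction n using Nat.strong_induction_on with
  | _ n ih =>
    intro E _ _ hE hn α β
    by_cases hsub : Subsingleton E
    · exact ⟨1, ⟨⊤, by rw [Subgroup.coe_top]; exact isOpen_univ, fun _ _ => rfl⟩,
        Subsingleton.elim _ _, Subsingleton.elim _ _⟩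
    rw [not_subsingleton_iff_nontrivial] at hsub
    -- a central element of order p
    have hcen : Nontrivial (Subgroup.center E) := hE.center_nontrivial
    have hcP : IsPGroup p (Subgroup.center E) := hE.to_subgroup _
    obtain ⟨z, hz'⟩ : ∃ z : Subgroup.center E, orderOf z = p := by
      apply exists_prime_orderOf_dvd_card' p
      obtain ⟨k, hk⟩ := IsPGroup.iff_card.1 hcP
      rw [hk]
      rcases k with _ | k
      · rw [pow_zero] at hk
        exact absurd hk (Finite.one_lt_card).ne'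
      · exact dvd_pow_self p (Nat.succ_ne_zero k)
    have hzo : orderOf (z : E) = p := by rw [Subgroup.orderOf_coe, hz']
    set Z : Subgroup E := zpowers (z : E) with hZ
    have hZc : ∀ y ∈ Z, ∀ g : E, g * y = y * g := by
      intro y hy g
      have hle : Z ≤ Subgroup.center E := by
        rw [hZ, zpowers_le]
        exact z.2
      exact Subgroup.mem_center_iff.1 (hle hy) g
    have hZn : Z.Normal := ⟨fun y hy g => by
      rw [hZc y hy g, mul_inv_cancel_right]
      exact hy⟩
    have hcardlt : Nat.card (E ⧸ Z) < n := by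
      have h1 := Subgroup.card_eq_card_quotient_mul_card_subgroup Z
      have h2 : Nat.card Z = p := by rw [hZ, Nat.card_zpowers, hzo]
      rw [h2, hn] at h1
      have h3 : 0 < Nat.card (E ⧸ Z) := Nat.card_pos
      rw [h1]
      nlinarith [hp.two_le]
    obtain ⟨f₀, hf₀, hα, hβ⟩ := ih _ hcardlt (E ⧸ Z) (hE.to_quotient Z) rfl
      (QuotientGroup.mk α) (QuotientGroup.mk β)
    obtain ⟨f₁, hf₁, hf₁'⟩ := lift_hom hp hF U hUo hE (QuotientGroup.mk' Z)
      (QuotientGroup.mk'_surjective Z) f₀ hf₀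
    -- corrections
    have hcor : ∀ (u : U) (γ : E), QuotientGroup.mk' Z (f₁ u) = QuotientGroup.mk' Z γ →
        ∃ i : ℕ, γ = f₁ u * (z : E) ^ i := by
      intro u γ h
      have h1 : (f₁ u)⁻¹ * γ ∈ Z := QuotientGroup.eq.1 h
      obtain ⟨i, hi⟩ := (mem_powers_iff_mem_zpowers (x := (z : E))).2 h1
      have hi' : (z : E) ^ i = (f₁ u)⁻¹ * γ := hi
      refine ⟨i, ?_⟩
      rw [hi', mul_inv_cancel_left]
    obtain ⟨i, hi⟩ := hcor ⟨a, haU⟩ α ((hf₁' _).trans hα)
    obtain ⟨j, hj⟩ := hcor ⟨b, hbU⟩ β ((hf₁' _).trans hβ)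
    -- the hom `ZMod p → Z`
    have hgenp : ∀ y : Multiplicative (ZMod p), y ∈ zpowers (Multiplicative.ofAdd (1 : ZMod p)) := by
      intro y
      refine mem_zpowers_iff.2 ⟨(Multiplicative.toAdd y).val, ?_⟩
      apply Multiplicative.toAdd.injective
      rw [zpow_natCast, toAdd_pow, toAdd_ofAdd, nsmul_eq_mul, mul_one, ZMod.natCast_val,
        ZMod.cast_id]
    have hop : orderOf (z : E) ∣ orderOf (Multiplicative.ofAdd (1 : ZMod p)) := by
      rw [hzo, orderOf_ofAdd_eq_addOrderOf, ZMod.addOrderOf_one]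
    set κ := monoidHomOfForallMemZpowers hgenp hop with hκ
    have hκ1 : κ (Multiplicative.ofAdd (1 : ZMod p)) = z := monoidHomOfForallMemZpowers_apply_gen _ _
    have hκn : ∀ k : ℕ, κ (Multiplicative.ofAdd ((k : ℕ) : ZMod p)) = (z : E) ^ k := by
      intro k
      have : Multiplicative.ofAdd ((k : ℕ) : ZMod p) = (Multiplicative.ofAdd (1 : ZMod p)) ^ k := by
        rw [← ofAdd_nsmul, nsmul_eq_mul, mul_one]
      rw [this, map_pow, hκ1]
    have hκZ : ∀ y, κ y ∈ Z := by
      intro y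
      obtain ⟨k, rfl⟩ := mem_zpowers_iff.1 (hgenp y)
      rw [map_zpow, hκ1]
      exact zpow_mem (mem_zpowers _) k
    set ch : U → ZMod p := fun u => (i : ZMod p) * χ₂ (π u.1) + (j : ZMod p) * χ₁ (π u.1) with hch
    have hchm : ∀ u v : U, ch (u * v) = ch u + ch v := by
      intro u v
      show (i : ZMod p) * χ₂ (π (u.1 * v.1)) + (j : ZMod p) * χ₁ (π (u.1 * v.1)) = _
      rw [map_mul, c₁ _ u.2 _ v.2, c₂ _ u.2 _ v.2]
      ring
    refine ⟨MonoidHom.mk' (fun u => f₁ u * κ (Multiplicative.ofAdd (ch u))) ?_, ?_, ?_, ?_⟩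
    · intro u v
      rw [map_mul, hchm, ofAdd_add, map_mul]
      have h1 := hZc _ (hκZ (Multiplicative.ofAdd (ch u))) (f₁ v)
      calc f₁ u * f₁ v * (κ (Multiplicative.ofAdd (ch u)) * κ (Multiplicative.ofAdd (ch v)))
          = f₁ u * (f₁ v * κ (Multiplicative.ofAdd (ch u))) * κ (Multiplicative.ofAdd (ch v)) := by
            group
        _ = f₁ u * κ (Multiplicative.ofAdd (ch u)) * (f₁ v * κ (Multiplicative.ofAdd (ch v))) := by
            rw [h1]; group
    · obtain ⟨M, hM, hM'⟩ := hf₁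
      refine ⟨M ⊓ V, by rw [Subgroup.coe_inf]; exact hM.inter hV, ?_⟩
      intro u hu
      show f₁ u * κ (Multiplicative.ofAdd (ch u)) = 1
      have h1 : ch u = 0 := by
        show (i : ZMod p) * χ₂ (π u.1) + (j : ZMod p) * χ₁ (π u.1) = 0
        rw [hz χ₁ c₁ u.1 hu.2, hz χ₂ c₂ u.1 hu.2]
        ring
      rw [hM' u hu.1, h1, ofAdd_zero, map_one, mul_one]
    · show f₁ ⟨a, haU⟩ * κ (Multiplicative.ofAdd (ch ⟨a, haU⟩)) = α
      have h1 : ch ⟨a, haU⟩ = ((i : ℕ) : ZMod p) := by
        show (i : ZMod p) * χ₂ (π a) + (j : ZMod p) * χ₁ (π a) = i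
        rw [a₁, a₂]
        ring
      rw [h1, hκn, ← hi]
    · show f₁ ⟨b, hbU⟩ * κ (Multiplicative.ofAdd (ch ⟨b, hbU⟩)) = β
      have h1 : ch ⟨b, hbU⟩ = ((j : ℕ) : ZMod p) := by
        show (i : ZMod p) * χ₂ (π b) + (j : ZMod p) * χ₁ (π b) = j
        rw [b₁, b₂]
        ring
      rw [h1, hκn, ← hj]

end

end Pdb20
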