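import Mathlib
import Pool.Agent.Lib.Pdb20.Lift

/-!
# Section maps never contract a proper length function on a non-abelian subgroup
-/

set_option autoImplicit false

namespace Pdb20

open Filter

theorem map_wd {G H : Type} [Group G] [Group H] (φ : G →* H) (a b : G) (w : List Bool) :
    φ (wd a b w) = wd (φ a) (φ b) w := by
  induction w with
  | nil => simp [wd]
  | cons c w ih =>
    rw [wd_cons, wd_cons, map_mul, ih]
    cases c <;> simp

section

variable {p d : ℕ} {G : Type} [Group G] [TopologicalSpace G]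
    [IsTopologicalGroup G] [CompactSpace G] [TotallyDisconnectedSpace G] [T2Space G]
    {ι : Fin d → G} {ρ : G →* Equiv.Perm (List (Fin p))}

omit [CompactSpace G] [TotallyDisconnectedSpace G] in
theorem not_mem_closure (a b : G) (hab : a * b ≠ b * a) :
    a ∉ closure (Subgroup.zpowers b : Set G) := by
  intro h
  apply hab
  have hcl : IsClosed {g : G | g * b = b * g} :=
    isClosed_eq (continuous_mul_const b) (continuous_const_mul b)
  have hsub : (Subgroup.zpowers b : Set G) ⊆ {g : G | g * b = b * g} := by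
    rintro g ⟨k, rfl⟩
    exact ((Commute.refl b).zpow_left k)
  exact hcl.closure_subset_iff.2 hsub h

/-- Positive words in two non-commuting elements. -/
theorem wd_inj_of_noncomm (hp : p.Prime) (hd : 2 ≤ d) (hF : FreeP p d G ι) (a b : G)
    (hab : a * b ≠ b * a) (w w' : List Bool) (hlen : w.length = w'.length)
    (h : wd a b w = wd a b w') : w = w' := by
  have := Fact.mk hp
  by_contra hne
  obtain ⟨U, ha, hb, hU⟩ := free_pair hp hF a b (not_mem_closure a b hab)
    (not_mem_closure b a (Ne.symm hab))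
  set i : Fin d := ⟨0, by omega⟩
  set j : Fin d := ⟨1, by omega⟩
  have hij : i ≠ j := by
    intro h
    have := congrArg Fin.val h
    simp [i, j] at this
  have h1 : wd (ι i) (ι j) w ≠ wd (ι i) (ι j) w' := fun h =>
    hne (wd_inj hp hF i j hij w'.length w w' hlen rfl h)
  set y := (wd (ι i) (ι j) w)⁻¹ * wd (ι i) (ι j) w' with hy
  have hy1 : y ≠ 1 := fun h => h1 (inv_mul_eq_one.1 h)
  obtain ⟨V, hV⟩ := ProfiniteGrp.exist_openNormalSubgroup_sub_open_nhds_of_one
    (isOpen_compl_singleton (x := y)) (by simpa using Ne.symm hy1)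
  have hyV : y ∉ V.toSubgroup := fun h => hV h rfl
  have hfin : Finite (G ⧸ V.toSubgroup) := V.toSubgroup.quotient_finite_of_isOpen V.isOpen'
  have hQ : IsPGroup p (G ⧸ V.toSubgroup) := by
    obtain ⟨k, hk⟩ := hF.idx V.toSubgroup V.isOpen' V.isNormal'
    rw [IsPGroup.iff_card]
    exact ⟨k, by rw [← hk]; rfl⟩
  obtain ⟨f, -, hfa, hfb⟩ := hU _ (G ⧸ V.toSubgroup) hQ rfl
    (QuotientGroup.mk' V.toSubgroup (ι i)) (QuotientGroup.mk' V.toSubgroup (ι j))
  have h2 : wd (⟨a, ha⟩ : U) ⟨b, hb⟩ w = wd (⟨a, ha⟩ : U) ⟨b, hb⟩ w' := by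
    apply Subtype.ext
    have e1 := map_wd U.subtype (⟨a, ha⟩ : U) ⟨b, hb⟩ w
    have e2 := map_wd U.subtype (⟨a, ha⟩ : U) ⟨b, hb⟩ w'
    exact e1.trans (h.trans e2.symm)
  have h3 := congrArg f h2
  rw [map_wd, map_wd, hfa, hfb, ← map_wd, ← map_wd] at h3
  exact hyV (QuotientGroup.eq.1 h3)

namespace SelfSim

omit [IsTopologicalGroup G] [CompactSpace G] [TotallyDisconnectedSpace G] [T2Space G] in
/-- Iterated contraction. -/
theorem iter_bound (hS : SelfSim p G ρ) (Γ : Subgroup G) (v : List (Fin p))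
    (hv : ∀ g ∈ Γ, hS.sec v g ∈ Γ) (ℓ : G → ℝ) (lam D : ℝ)
    (h0 : 0 ≤ lam)
    (hcon : ∀ g ∈ Γ, ℓ (hS.sec v g) ≤ lam * ℓ g + D * (1 - lam)) (k : ℕ) :
    ∀ g ∈ Γ, hS.sec (List.replicate k v).flatten g ∈ Γ ∧
      ℓ (hS.sec (List.replicate k v).flatten g) ≤ lam ^ k * ℓ g + D * (1 - lam ^ k) := by
  induction k with
  | zero =>
    intro g hg
    simp only [List.replicate_zero, List.flatten_nil, hS.sec_nil]
    exact ⟨hg, by simp⟩
  | succ k ih =>
    intro g hg
    rw [List.replicate_succ, List.flatten_cons, hS.sec_append]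
    obtain ⟨h1, h2⟩ := ih _ (hv g hg)
    refine ⟨h1, h2.trans ?_⟩
    have h3 := mul_le_mul_of_nonneg_left (hcon g hg) (pow_nonneg h0 k)
    calc lam ^ k * ℓ (hS.sec v g) + D * (1 - lam ^ k)
        ≤ lam ^ k * (lam * ℓ g + D * (1 - lam)) + D * (1 - lam ^ k) := by linarith
      _ = lam ^ (k + 1) * ℓ g + D * (1 - lam ^ (k + 1)) := by ring

/-- The section map at a vertex does not contract a proper length function on a non-abelian
subgroup. -/
theorem no_contraction (hp : p.Prime) (hd : 2 ≤ d) (hF : FreeP p d G ι) (hS : SelfSim p G ρ)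
    (Γ : Subgroup G) (a b : G) (ha : a ∈ Γ) (hb : b ∈ Γ) (hab : a * b ≠ b * a)
    (v : List (Fin p)) (hv : ∀ g ∈ Γ, hS.sec v g ∈ Γ) (ℓ : G → ℝ) (hℓ0 : ∀ g ∈ Γ, 0 ≤ ℓ g)
    (hℓm : ∀ g ∈ Γ, ∀ h ∈ Γ, ℓ (g * h) ≤ ℓ g + ℓ h)
    (hℓf : ∀ r : ℝ, {g : G | g ∈ Γ ∧ ℓ g ≤ r}.Finite) (lam C : ℝ) (hlam : lam < 1)
    (hcon : ∀ g ∈ Γ, ℓ (hS.sec v g) ≤ lam * ℓ g + C) : False := by
  -- a positive factor
  obtain ⟨μ, hμ0, hμ1, hlm⟩ : ∃ μ : ℝ, 0 ≤ μ ∧ μ < 1 ∧ lam ≤ μ :=
    ⟨max lam (1 / 2), le_trans (by norm_num) (le_max_right _ _),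
      max_lt hlam (by norm_num), le_max_left _ _⟩
  set D : ℝ := |C| / (1 - μ) with hD
  have h1μ : 0 < 1 - μ := by linarith
  have hD0 : 0 ≤ D := div_nonneg (abs_nonneg _) h1μ.le
  have hDC : D * (1 - μ) = |C| := by rw [hD]; field_simp
  have hcon' : ∀ g ∈ Γ, ℓ (hS.sec v g) ≤ μ * ℓ g + D * (1 - μ) := by
    intro g hg
    rw [hDC]
    have h1 := hcon g hg
    have h2 := mul_le_mul_of_nonneg_right hlm (hℓ0 g hg)
    have h3 := le_abs_self C
    linarith
  have hit := hS.iter_bound Γ v hv ℓ μ D hμ0 hcon'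
  set A : Set G := {g : G | g ∈ Γ ∧ ℓ g ≤ 1 + D} with hA
  have hAf : Finite A := hℓf (1 + D)
  set M := Nat.card A with hM
  -- lengths of words
  set c : ℝ := ℓ a + ℓ b + ℓ 1 + 1 with hc
  have ha0 := hℓ0 a ha
  have hb0 := hℓ0 b hb
  have h10 := hℓ0 1 (one_mem Γ)
  have hc0 : 0 < c := by rw [hc]; linarith
  have hwΓ : ∀ w : List Bool, wd a b w ∈ Γ := by
    intro w
    induction w with
    | nil => exact one_mem Γ
    | cons e w ih =>
      rw [wd_cons]
      cases e
      · exact mul_mem hb ih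
      · exact mul_mem ha ih
  have hwl : ∀ w : List Bool, ℓ (wd a b w) ≤ (w.length + 1) * c := by
    intro w
    induction w with
    | nil =>
      show ℓ 1 ≤ _
      simp only [List.length_nil, Nat.cast_zero, zero_add, one_mul]
      rw [hc]; linarith
    | cons e w ih =>
      rw [wd_cons, List.length_cons]
      have h1 : ℓ ((if e then a else b) * wd a b w) ≤ ℓ (if e then a else b) + ℓ (wd a b w) := by
        apply hℓm _ _ _ (hwΓ w)
        cases e
        · exact hb
        · exact ha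
      have h2 : ℓ (if e then a else b) ≤ c := by
        cases e
        · show ℓ b ≤ c
          rw [hc]; linarith
        · show ℓ a ≤ c
          rw [hc]; linarith
      push_cast
      linarith
  -- choice of the level
  obtain ⟨k, hk⟩ : ∃ k : ℕ, μ ^ k * (((p * v.length * k + M : ℕ) : ℝ) + 1) * c ≤ 1 := by
    have t1 := (tendsto_self_mul_const_pow_of_lt_one hμ0 hμ1).const_mul
      (((p * v.length : ℕ) : ℝ) * c)
    have t2 := (tendsto_pow_atTop_nhds_zero_of_lt_one hμ0 hμ1).const_mul (((M : ℝ) + 1) * c)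
    have t3 := t1.add t2
    rw [mul_zero, mul_zero, add_zero] at t3
    obtain ⟨k, hk⟩ := (t3.eventually (gt_mem_nhds one_pos)).exists
    refine ⟨k, ?_⟩
    have e : μ ^ k * (((p * v.length * k + M : ℕ) : ℝ) + 1) * c =
        ((p * v.length : ℕ) : ℝ) * c * ((k : ℝ) * μ ^ k) + ((M : ℝ) + 1) * c * μ ^ k := by
      push_cast
      ring
    rw [e]
    exact hk.le
  set n := p * v.length * k + M with hn
  set u : List (Fin p) := (List.replicate k v).flatten with hu
  have hul : u.length = k * v.length := by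
    rw [hu, List.length_flatten, List.map_replicate, List.sum_replicate, smul_eq_mul]
  have hwA : ∀ w : List.Vector Bool n, hS.sec u (wd a b w.1) ∈ A := by
    intro w
    obtain ⟨h1, h2⟩ := hit k _ (hwΓ w.1)
    refine ⟨h1, h2.trans ?_⟩
    have h3 := hwl w.1
    rw [w.2] at h3
    have h4 := mul_le_mul_of_nonneg_left h3 (pow_nonneg hμ0 k)
    have h5 : D * (1 - μ ^ k) ≤ D := by
      have := mul_nonneg hD0 (pow_nonneg hμ0 k)
      linarith
    have h6 : μ ^ k * (((n : ℝ) + 1) * c) ≤ 1 := by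
      rw [← mul_assoc]
      exact hk
    linarith
  set F : List.Vector Bool n → List.Vector (Fin p) (k * v.length) × A := fun w =>
      ((⟨ρ (wd a b w.1) u, by rw [hS.length, hul]⟩ : List.Vector (Fin p) (k * v.length)),
        (⟨_, hwA w⟩ : A)) with hF'
  have hinj : Function.Injective F := by
    intro w w' h
    have h1 : ρ (wd a b w.1) u = ρ (wd a b w'.1) u :=
      congrArg (fun q : List.Vector (Fin p) (k * v.length) × A => q.1.1) h
    have h2 : hS.sec u (wd a b w.1) = hS.sec u (wd a b w'.1) :=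
      congrArg (fun q : List.Vector (Fin p) (k * v.length) × A => q.2.1) h
    apply Subtype.ext
    refine wd_inj_of_noncomm hp hd hF a b hab w.1 w'.1 (w.2.trans w'.2.symm) ?_
    have h3 : (wd a b w'.1)⁻¹ * wd a b w.1 = 1 := by
      apply hS.rigid hp (by omega) hF u
      intro z
      rw [map_mul, Equiv.Perm.mul_apply, hS.sec_spec, h1, h2, ← hS.sec_spec, map_inv]
      exact (ρ (wd a b w'.1)).symm_apply_apply _
    exact (inv_mul_eq_one.1 h3).symm
  have hcard := Nat.card_le_card_of_injective F hinj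
  have hb : Nat.card (List.Vector Bool n) = 2 ^ n := by
    rw [Nat.card_eq_fintype_card, card_vector, Fintype.card_bool]
  rw [Nat.card_prod, card_vec, hb, ← hM] at hcard
  have e1 : p ^ (k * v.length) ≤ 2 ^ (p * v.length * k) := by
    calc p ^ (k * v.length) ≤ (2 ^ p) ^ (k * v.length) :=
          Nat.pow_le_pow_left (Nat.lt_two_pow_self).le _
      _ = 2 ^ (p * v.length * k) := by rw [← pow_mul]; congr 1; ring
  have e2 : M < 2 ^ M := Nat.lt_two_pow_self
  have e3 : p ^ (k * v.length) * M < 2 ^ n := by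
    rw [hn, pow_add]
    calc p ^ (k * v.length) * M ≤ 2 ^ (p * v.length * k) * M := Nat.mul_le_mul_right _ e1
      _ < 2 ^ (p * v.length * k) * 2 ^ M :=
        Nat.mul_lt_mul_of_pos_left e2 (pow_pos (by norm_num) _)
  omega

end SelfSim

end

end Pdb20
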