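import Mathlib
import Pool.Agent.Lib.Pdb20.Entropy

/-!
# Free pro-`p` groups are torsion free; affine actions
-/

set_option autoImplicit false

namespace Pdb20

section

variable {p d : ℕ} {G : Type} [Group G] [TopologicalSpace G]
    [IsTopologicalGroup G] [CompactSpace G] [TotallyDisconnectedSpace G] [T2Space G]
    {ι : Fin d → G}

/-- There are no elements of order `p`. -/
theorem eq_one_of_pow (hp : p.Prime) (hF : FreeP p d G ι) (k : G) (hk : k ^ p = 1) : k = 1 := by
  have := Fact.mk hp
  by_contra hne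
  obtain ⟨V', hV'⟩ := ProfiniteGrp.exist_openNormalSubgroup_sub_open_nhds_of_one
    (isOpen_compl_singleton (x := k)) (by simpa using Ne.symm hne)
  set V : Subgroup G := V'.toSubgroup with hVdef
  have hkV : k ∉ V := fun h => hV' h rfl
  have hV : IsOpen (V : Set G) := V'.isOpen'
  have hVn : V.Normal := V'.isNormal'
  have hfin : Finite (G ⧸ V) := V.quotient_finite_of_isOpen hV
  have hQ : IsPGroup p (G ⧸ V) := by
    obtain ⟨j, hj⟩ := hF.idx V hV hVn
    rw [IsPGroup.iff_card]
    exact ⟨j, by rw [← hj]; rfl⟩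
  set π := QuotientGroup.mk' V with hπ
  have hπker : ∀ x, π x = 1 ↔ x ∈ V := fun x => QuotientGroup.eq_one_iff x
  have hnot : π k ∉ Subgroup.zpowers (1 : G ⧸ V) := by
    rw [Subgroup.zpowers_one_eq_bot, Subgroup.mem_bot, hπker]
    exact hkV
  obtain ⟨χ, c, -, hχk⟩ := exists_char2 hp hQ 1 (π k) hnot
  set U : Subgroup G := (Subgroup.closure {1, π k}).comap π with hU
  have hNU : V ≤ U := by
    intro v hv
    rw [hU, Subgroup.mem_comap, (hπker v).2 hv]
    exact one_mem _
  have hUo : IsOpen (U : Set G) := Subgroup.isOpen_mono hNU hV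
  have hkU : k ∈ U := by
    rw [hU, Subgroup.mem_comap]; exact Subgroup.subset_closure (by simp)
  have hz : ∀ n ∈ V, χ (π n) = 0 := by
    intro n hn
    rw [(hπker n).2 hn]
    have := c 1 (one_mem _) 1 (one_mem _)
    rw [mul_one] at this
    exact (left_eq_add.1 this)
  have hp2 : p ^ 2 ≠ 0 := pow_ne_zero 2 hp.ne_zero
  have : NeZero (p ^ 2) := ⟨hp2⟩
  have : NeZero p := ⟨hp.ne_zero⟩
  have : Finite (Multiplicative (ZMod p)) := inferInstanceAs (Finite (ZMod p))
  have : Finite (Multiplicative (ZMod (p ^ 2))) := inferInstanceAs (Finite (ZMod (p ^ 2)))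
  have hE : IsPGroup p (Multiplicative (ZMod (p ^ 2))) := by
    rw [IsPGroup.iff_card]
    exact ⟨2, by rw [Nat.card_congr Multiplicative.toAdd, Nat.card_zmod]⟩
  set q : Multiplicative (ZMod (p ^ 2)) →* Multiplicative (ZMod p) :=
    AddMonoidHom.toMultiplicative
      (ZMod.castHom (dvd_pow_self p two_ne_zero) (ZMod p)).toAddMonoidHom with hq
  have hqs : Function.Surjective q := by
    intro y
    obtain ⟨z, hz⟩ := ZMod.ringHom_surjective
      (ZMod.castHom (dvd_pow_self p two_ne_zero) (ZMod p)) (Multiplicative.toAdd y)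
    exact ⟨Multiplicative.ofAdd z, congrArg Multiplicative.ofAdd hz⟩
  obtain ⟨f, -, hf⟩ := lift_hom hp hF U hUo hE q hqs
    (MonoidHom.mk' (fun u : U => Multiplicative.ofAdd (χ (π u.1))) (by
      intro u v
      show Multiplicative.ofAdd (χ (π (u.1 * v.1))) = _
      rw [map_mul, c _ u.2 _ v.2]
      rfl))
    ⟨V, hV, fun u hu => by
      show Multiplicative.ofAdd (χ (π u.1)) = 1
      rw [hz u.1 hu]
      rfl⟩
  set y : ZMod (p ^ 2) := Multiplicative.toAdd (f ⟨k, hkU⟩) with hy
  have h1 : (p : ZMod (p ^ 2)) * y = 0 := by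
    have e1 : (⟨k, hkU⟩ : U) ^ p = 1 := Subtype.ext hk
    have e2 := congrArg f e1
    rw [map_pow, map_one] at e2
    have e3 := congrArg Multiplicative.toAdd e2
    rw [toAdd_pow, toAdd_one, nsmul_eq_mul] at e3
    exact e3
  have h2 : ZMod.castHom (dvd_pow_self p two_ne_zero) (ZMod p) y = 1 := by
    have e1 := hf ⟨k, hkU⟩
    have e2 : q (f ⟨k, hkU⟩) = Multiplicative.ofAdd (χ (π k)) := e1
    rw [hχk] at e2
    exact congrArg Multiplicative.toAdd e2
  have h3 : ((p * y.val : ℕ) : ZMod (p ^ 2)) = 0 := by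
    push_cast
    rw [ZMod.natCast_zmod_val]
    exact h1
  rw [ZMod.natCast_eq_zero_iff] at h3
  have h3' : p * p ∣ p * y.val := (pow_two p) ▸ h3
  have h4 : p ∣ y.val := Nat.dvd_of_mul_dvd_mul_left hp.pos h3'
  have h5 : ZMod.castHom (dvd_pow_self p two_ne_zero) (ZMod p) y = 0 := by
    rw [← ZMod.natCast_zmod_val y, map_natCast, ZMod.natCast_eq_zero_iff]
    exact h4
  rw [h5] at h2
  exact zero_ne_one h2

/-- `u - v + w = t` digitwise, for words of equal length, where the letters are identified with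
the elements of `ZMod p` by `e`. -/
def Par {p : ℕ} (e : Fin p ≃ ZMod p) : List (Fin p) → List (Fin p) → List (Fin p) →
    List (Fin p) → Prop
  | [], [], [], [] => True
  | a :: u, b :: v, c :: w, d :: t => e a - e b + e c = e d ∧ Par e u v w t
  | _, _, _, _ => False

/-- `w = u + τ` digitwise. -/
def Sh {p : ℕ} (e : Fin p ≃ ZMod p) : List (ZMod p) → List (Fin p) → List (Fin p) → Prop
  | [], [], [] => True
  | t :: τ, a :: u, b :: w => e b = e a + t ∧ Sh e τ u w
  | _, _, _ => False

variable {e : Fin p ≃ ZMod p}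

theorem par_refl (u v : List (Fin p)) (h : u.length = v.length) : Par e u v v u := by
  induction u generalizing v with
  | nil =>
    rcases v with _ | ⟨b, v⟩
    · trivial
    · simp at h
  | cons a u ih =>
    rcases v with _ | ⟨b, v⟩
    · simp at h
    · exact ⟨by ring, ih v (by simpa using h)⟩

theorem sh_exists (v v' : List (Fin p)) (h : v.length = v'.length) :
    ∃ τ, τ.length = v.length ∧ Sh e τ v v' := by
  induction v generalizing v' with
  | nil =>
    rcases v' with _ | ⟨b, v'⟩
    · exact ⟨[], rfl, trivial⟩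
    · simp at h
  | cons a v ih =>
    rcases v' with _ | ⟨b, v'⟩
    · simp at h
    · obtain ⟨τ, h1, h2⟩ := ih v' (by simpa using h)
      exact ⟨(e b - e a) :: τ, by simp [h1], by ring, h2⟩

theorem sh_of_par (τ : List (ZMod p)) (u v u' v' : List (Fin p)) (h1 : Par e u' v' v u)
    (h2 : Sh e τ v v') : Sh e τ u u' := by
  induction τ generalizing u v u' v' with
  | nil =>
    rcases v with _ | ⟨b, v⟩ <;> rcases v' with _ | ⟨b', v'⟩ <;> rcases u with _ | ⟨a, u⟩ <;>
      rcases u' with _ | ⟨a', u'⟩ <;> simp_all [Par, Sh]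
  | cons t τ ih =>
    rcases v with _ | ⟨b, v⟩ <;> rcases v' with _ | ⟨b', v'⟩ <;> rcases u with _ | ⟨a, u⟩ <;>
      rcases u' with _ | ⟨a', u'⟩ <;> simp only [Par, Sh] at h1 h2 ⊢
    exact ⟨by linear_combination h1.1 + h2.1, ih u v u' v' h1.2 h2.2⟩

theorem sh_zero (τ : List (ZMod p)) (u : List (Fin p)) (h : τ.length = u.length) :
    Sh e (τ.map (fun t => ((0 : ℕ) : ZMod p) * t)) u u := by
  induction τ generalizing u with
  | nil =>
    rcases u with _ | ⟨a, u⟩
    · trivial
    · simp at h
  | cons t τ ih =>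
    rcases u with _ | ⟨a, u⟩
    · simp at h
    · exact ⟨by push_cast; ring, ih u (by simpa using h)⟩

theorem sh_succ (τ : List (ZMod p)) (j : ℕ) (u w z : List (Fin p))
    (h1 : Sh e (τ.map (fun t => (j : ZMod p) * t)) u w) (h2 : Sh e τ w z) :
    Sh e (τ.map (fun t => ((j + 1 : ℕ) : ZMod p) * t)) u z := by
  induction τ generalizing u w z with
  | nil =>
    rcases u with _ | ⟨a, u⟩ <;> rcases w with _ | ⟨b, w⟩ <;> rcases z with _ | ⟨c, z⟩ <;>
      simp_all [Sh]
  | cons t τ ih =>
    rcases u with _ | ⟨a, u⟩ <;> rcases w with _ | ⟨b, w⟩ <;> rcases z with _ | ⟨c, z⟩ <;>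
      simp only [List.map_cons, Sh] at h1 h2 ⊢
    refine ⟨?_, ih u w z h1.2 h2.2⟩
    push_cast
    linear_combination h1.1 + h2.1

theorem sh_p (τ : List (ZMod p)) (u w : List (Fin p))
    (h : Sh e (τ.map (fun t => ((p : ℕ) : ZMod p) * t)) u w) : u = w := by
  induction τ generalizing u w with
  | nil =>
    rcases u with _ | ⟨a, u⟩ <;> rcases w with _ | ⟨b, w⟩ <;> simp_all [Sh]
  | cons t τ ih =>
    rcases u with _ | ⟨a, u⟩ <;> rcases w with _ | ⟨b, w⟩ <;>
      simp only [List.map_cons, Sh] at h ⊢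
    rw [ih u w h.2]
    have h1 : e a = e b := by
      have := h.1
      rw [ZMod.natCast_self, zero_mul, add_zero] at this
      exact this.symm
    rw [e.injective h1]

namespace SelfSim

variable {ρ : G →* Equiv.Perm (List (Fin p))}

omit [IsTopologicalGroup G] [CompactSpace G] [TotallyDisconnectedSpace G] [T2Space G] in
/-- Translations have order dividing `p`. -/
theorem pow_of_trans (hS : SelfSim p G ρ) (k : G)
    (hk : ∀ u v : List (Fin p), u.length = v.length → Par e (ρ k u) (ρ k v) v u) : k ^ p = 1 := by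
  apply hS.inj
  rw [map_one]
  apply Equiv.ext
  intro u
  obtain ⟨τ, hτ, hτ'⟩ := sh_exists (e := e) u (ρ k u) (hS.length u k).symm
  have hall : ∀ w : List (Fin p), w.length = u.length → Sh e τ w (ρ k w) := fun w hw =>
    sh_of_par τ w u (ρ k w) (ρ k u) (hk w u hw) hτ'
  have hj : ∀ j : ℕ, Sh e (τ.map (fun t => (j : ZMod p) * t)) u (ρ (k ^ j) u) := by
    intro j
    induction j with
    | zero =>
      rw [pow_zero, map_one]
      exact sh_zero τ u hτ
    | succ j ih =>
      refine sh_succ τ j u (ρ (k ^ j) u) _ ih ?_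
      rw [pow_succ', map_mul, Equiv.Perm.mul_apply]
      exact hall _ (hS.length _ _)
  exact (sh_p τ u _ (hj p)).symm

/-- There is no faithful self-similar action by affine maps. -/
theorem not_affine (hp : p.Prime) (hd : 2 ≤ d) (hF : FreeP p d G ι) (hS : SelfSim p G ρ)
    (haff : ∀ g u v w t, Par e u v w t → Par e (ρ g u) (ρ g v) (ρ g w) (ρ g t)) : False := by
  -- all first level sections of an element coincide
  have hsec : ∀ (g : G) (x y : Fin p), hS.sec [x] g = hS.sec [y] g := by
    intro g x y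
    set a := hS.sec [x] g with ha
    set b := hS.sec [y] g with hb
    have hk : ∀ u v : List (Fin p), u.length = v.length →
        Par e (ρ (a * b⁻¹) u) (ρ (a * b⁻¹) v) v u := by
      have h1 : ∀ u v : List (Fin p), u.length = v.length →
          Par e (ρ a u) (ρ a v) (ρ b v) (ρ b u) := by
        intro u v huv
        have h2 : Par e (x :: u) (x :: v) (y :: v) (y :: u) := ⟨by ring, par_refl u v huv⟩
        have h3 := haff g _ _ _ _ h2
        obtain ⟨x', hx'⟩ := List.length_eq_one_iff.1 (show (ρ g [x]).length = 1 by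
          rw [hS.length]; rfl)
        obtain ⟨y', hy'⟩ := List.length_eq_one_iff.1 (show (ρ g [y]).length = 1 by
          rw [hS.length]; rfl)
        have e1 : ∀ z, ρ g (x :: z) = x' :: ρ a z := by
          intro z
          have := hS.sec_spec [x] z g
          rw [hx'] at this
          exact this
        have e2 : ∀ z, ρ g (y :: z) = y' :: ρ b z := by
          intro z
          have := hS.sec_spec [y] z g
          rw [hy'] at this
          exact this
        rw [e1, e1, e2, e2] at h3
        exact h3.2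
      intro u v huv
      have h2 := h1 (ρ b⁻¹ u) (ρ b⁻¹ v) (by rw [hS.length, hS.length, huv])
      have e3 : ∀ z, ρ b (ρ b⁻¹ z) = z := by
        intro z
        rw [← Equiv.Perm.mul_apply, ← map_mul, mul_inv_cancel, map_one]
        rfl
      rw [e3, e3] at h2
      rw [map_mul, Equiv.Perm.mul_apply, Equiv.Perm.mul_apply]
      exact h2
    have h4 := eq_one_of_pow hp hF _ (hS.pow_of_trans _ hk)
    exact mul_inv_eq_one.1 h4
  -- the action on the first level is abelian
  have hlev1 : ∀ (g h : G) (x : Fin p), ρ (g * h) [x] = ρ (h * g) [x] := by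
    intro g h x
    obtain ⟨l, hl1, hl2⟩ := exists_lam0 hS x hp (by omega) hF
    have hl0 : l 1 = 0 := (hl2 1).2 (one_mem _)
    have hinv : ∀ y, l y⁻¹ = - l y := by
      intro y
      have := hl1 y y⁻¹
      rw [mul_inv_cancel, hl0] at this
      exact (neg_eq_of_add_eq_zero_right this.symm).symm
    have h1 : (h * g)⁻¹ * (g * h) ∈ Pn ρ x 1 := by
      rw [← hl2, hl1, hinv, hl1, hl1]
      ring
    have h2 : ρ ((h * g)⁻¹ * (g * h)) [x] = [x] := h1
    rw [map_mul, Equiv.Perm.mul_apply, map_inv, Equiv.Perm.inv_eq_iff_eq] at h2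
    exact h2
  have hcomm : ∀ (u : List (Fin p)) (g h : G), ρ (g * h) u = ρ (h * g) u := by
    intro u
    induction u with
    | nil => intro g h; rw [hS.nil, hS.nil]
    | cons x u ih =>
      intro g h
      have e1 : ∀ g h : G, ρ (g * h) (x :: u) = ρ (g * h) [x] ++
          ρ (hS.sec [x] g * hS.sec [x] h) u := by
        intro g h
        have h1 := hS.sec_spec [x] u (g * h)
        rw [hS.sec_mul] at h1
        obtain ⟨x', hx'⟩ := List.length_eq_one_iff.1 (show (ρ h [x]).length = 1 by
          rw [hS.length]; rfl)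
        rw [hx', hsec g x' x] at h1
        exact h1
      rw [e1, e1, hlev1, ih]
  have hab : ∀ g h : G, g * h = h * g := fun g h => hS.inj (Equiv.ext fun u => hcomm u g h)
  have h1 := wd_inj hp hF ⟨0, by omega⟩ ⟨1, by omega⟩ (by
    intro h
    have := congrArg Fin.val h
    simp at this) 2 [true, false] [false, true] rfl rfl (by
    simp only [wd, List.map_cons, List.map_nil, List.prod_cons, List.prod_nil, mul_one]
    exact hab _ _)
  simp at h1

end SelfSim

end

end Pdb20
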